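import Pool.Agent.Lib.MP_d27f8c_ag.CycC

/-!
# Cyclic vectors: either `M = D x` or `F^g x, V^g x ∈ p M`
-/

set_option linter.unusedSectionVars false

namespace MPd27f8c

open Module

variable {K V ι : Type*} [Field K] [AddCommGroup V] [Module K V] [Fintype ι]
variable {v : AddValuation K (WithTop ℤ)} {π : K}

theorem World.Fz_flip_comm (W : World K V ι v π) (i j : ℤ) (y : V) :
    W.Fz i (W.flip.Fz j y) = W.flip.Fz j (W.Fz i y) := by
  rw [W.flip_Fz, W.flip_Fz, W.F_pi, ← W.Fz_add, ← W.Fz_add, add_comm]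

/-- membership in the `D`-module generated by a cyclic vector -/
def InN (W : World K V ι v π) {h : ℕ} (g : ℕ) (B : Basis (Fin h) K V) (y : V) : Prop :=
  ∀ j : Fin h, ((max ((g : ℤ) - (j : ℕ)) 0 : ℤ) : WithTop ℤ) ≤ v (B.repr (W.Fz g y) j)

theorem uniform_nil (W : World K V ι v π) (hF : W.TopNil) (T : ℤ) :
    ∃ n₀ : ℤ, ∀ n ≥ n₀, ∀ y, Fil v W.e 0 y → Fil v W.e T (W.Fz n y) := by
  classical
  choose f hf using fun i => hF (W.e i) T
  refine ⟨∑ i, |f i|, fun n hn y hy => ?_⟩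
  conv_rhs => rw [← W.e.sum_repr y]
  rw [map_sum]
  refine Fil.sum _ _ fun i _ => ?_
  rw [W.semi_z]
  refine Fil.smul_int ?_ (hf i n ?_)
  · rw [W.v_σz]
    exact_mod_cast hy i
  · have h1 : |f i| ≤ ∑ i, |f i| := Finset.single_le_sum (f := fun i => |f i|)
      (fun j _ => abs_nonneg (f j)) (Finset.mem_univ i)
    have := le_abs_self (f i)
    omega

theorem coordF (W : World K V ι v π) {h : ℕ} (h0 : 0 < h) (x : V) (B : Basis (Fin h) K V)
    (hB : ∀ j, B j = W.Fz (j : ℕ) x) (z : V) (i : Fin h) :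
    B.repr (W.F z) i = (if hi : 1 ≤ (i : ℕ) then W.σ (B.repr z ⟨i - 1, by omega⟩) else 0)
      + W.σ (B.repr z ⟨h - 1, by omega⟩) * B.repr (W.Fz (h : ℤ) x) i := by
  classical
  conv_lhs => rw [← B.sum_repr z]
  rw [map_sum, map_sum, Finsupp.coe_finsetSum, Finset.sum_apply]
  simp only [W.semi, map_smul, Finsupp.smul_apply, smul_eq_mul]
  rw [← Finset.sum_erase_add _ _ (Finset.mem_univ (⟨h - 1, by omega⟩ : Fin h))]
  congr 1
  · have hFB : ∀ j ∈ Finset.univ.erase (⟨h - 1, by omega⟩ : Fin h),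
        B.repr (W.F (B j)) i = if (j : ℕ) + 1 = i then 1 else 0 := by
      intro j hj
      have hj1 : (j : ℕ) ≠ h - 1 := by
        intro h'
        exact (Finset.mem_erase.1 hj).1 (Fin.ext h')
      have : W.F (B j) = B ⟨j + 1, by omega⟩ := by
        rw [hB, hB, ← W.Fz_one, ← W.Fz_add]
        congr 2
        push_cast
        ring
      rw [this, Basis.repr_self, Finsupp.single_apply]
      simp [Fin.ext_iff]
    rw [Finset.sum_congr rfl fun j hj => by rw [hFB j hj]]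
    by_cases hi : 1 ≤ (i : ℕ)
    · rw [dif_pos hi, Finset.sum_eq_single (⟨i - 1, by omega⟩ : Fin h)]
      · rw [if_pos (by simp; omega), mul_one]
      · intro j _ hne
        rw [if_neg, mul_zero]
        intro h'
        apply hne
        apply Fin.ext
        simp
        omega
      · intro hnot
        exact absurd (Finset.mem_erase.2 ⟨fun h' => by
          have := congrArg Fin.val h'
          simp at this; omega, Finset.mem_univ _⟩) hnot
    · rw [dif_neg hi]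
      refine Finset.sum_eq_zero fun j _ => ?_
      rw [if_neg (by omega), mul_zero]
  · have : W.F (B ⟨h - 1, by omega⟩) = W.Fz (h : ℤ) x := by
      rw [hB, ← W.Fz_one, ← W.Fz_add]
      congr 2
      push_cast
      omega
    rw [this]

theorem le_val_of_add {a b : K} {m : ℤ} (h1 : (m : WithTop ℤ) ≤ v (a + b))
    (h2 : (m : WithTop ℤ) ≤ v b) : (m : WithTop ℤ) ≤ v a := by
  have h3 : a = (a + b) - b := by ring
  rw [h3, sub_eq_add_neg]
  refine le_trans (le_min h1 ?_) (v.map_add _ _)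
  rwa [v.map_neg]

theorem le_val_add {a b : K} {m : ℤ} (h1 : (m : WithTop ℤ) ≤ v a)
    (h2 : (m : WithTop ℤ) ≤ v b) : (m : WithTop ℤ) ≤ v (a + b) :=
  le_trans (le_min h1 h2) (v.map_add _ _)

theorem le_val_mul {a b : K} {m n : ℤ} (h1 : (m : WithTop ℤ) ≤ v a)
    (h2 : (n : WithTop ℤ) ≤ v b) : ((m + n : ℤ) : WithTop ℤ) ≤ v (a * b) := by
  rw [v.map_mul]
  push_cast
  exact add_le_add h1 h2

theorem le_mono {a : K} {m n : ℤ} (h : m ≤ n) (h1 : (n : WithTop ℤ) ≤ v a) :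
    (m : WithTop ℤ) ≤ v a := le_trans (by exact_mod_cast h) h1

theorem dichotomy (W : World K V ι v π) (hF : W.TopNil) (hV : W.flip.TopNil) {g h : ℕ}
    (hh : h = 2 * g) (h0 : 0 < h) (x : V) (hx : Fil v W.e 0 x) (B : Basis (Fin h) K V)
    (hB : ∀ j, B j = W.Fz (j : ℕ) x)
    (hdet : v (B.repr (W.Fz (h : ℤ) x) ⟨0, h0⟩) = ((g : ℤ) : WithTop ℤ)) :
    (∀ y, Fil v W.e 0 y → InN W g B y) ∨
      (Fil v W.e 1 (W.Fz g x) ∧ Fil v W.e 1 (W.flip.Fz g x)) := by
  classical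
  obtain ⟨B', hB'⟩ := flipBasis W x B hB
  obtain ⟨-, hco⟩ := coeffs W hV hh h0 x B hB B' hB' hdet
  have hA := relA W hF x B hB
  set a : Fin h → K := fun i => B.repr (W.Fz (h : ℤ) x) i with ha
  have hai : ∀ i : Fin h, 1 ≤ (i : ℕ) →
      ((max 1 ((g : ℤ) + 1 - (i : ℕ)) : ℤ) : WithTop ℤ) ≤ v (a i) := by
    intro i hi
    rcases le_total 1 ((g : ℤ) + 1 - (i : ℕ)) with h | h
    · rw [max_eq_right h]; exact hco i hi
    · rw [max_eq_left h]; exact hA i
  by_contra hcon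
  push Not at hcon
  obtain ⟨⟨y₀, hy₀, hny₀⟩, hcon2⟩ := hcon
  -- a vector `m ∉ N` with `F m, V m ∈ N`
  have hex : ∃ m, Fil v W.e 0 m ∧ ¬ InN W g B m ∧ InN W g B (W.F m) ∧
      InN W g B (W.flip.F m) := by
    by_contra hno
    push Not at hno
    obtain ⟨T, hT, hcomp⟩ := Fil.compare (v := v) B W.e
    have hIn : ∀ z, Fil v W.e (g + T) z → InN W g B z := by
      intro z hz j
      have h1 := hcomp _ _ (W.Fz_fil_of_nonneg (n := g) (by omega) hz) j
      exact le_mono (by omega) h1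
    obtain ⟨n₁, hn₁⟩ := uniform_nil W hF (g + T)
    obtain ⟨n₂, hn₂⟩ := uniform_nil W.flip hV (g + T)
    have hind : ∀ k : ℕ, ∃ i j : ℕ, i + j = k ∧
        ¬ InN W g B (W.Fz i (W.flip.Fz j y₀)) := by
      intro k
      induction k with
      | zero => exact ⟨0, 0, rfl, by simpa using hny₀⟩
      | succ k ih =>
        obtain ⟨i, j, hij, hN⟩ := ih
        have hfil : Fil v W.e 0 (W.Fz i (W.flip.Fz j y₀)) :=
          W.Fz_fil_of_nonneg (by omega) (W.flip.Fz_fil_of_nonneg (n := j) (by omega) hy₀)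
        by_cases hF' : InN W g B (W.F (W.Fz i (W.flip.Fz j y₀)))
        · have h2 := hno _ hfil hN hF'
          refine ⟨i, j + 1, by omega, ?_⟩
          rw [W.Fz_flip_comm]
          push_cast
          rw [add_comm, W.flip.Fz_add, ← W.Fz_flip_comm, W.flip.Fz_one]
          exact h2
        · refine ⟨i + 1, j, by omega, ?_⟩
          push_cast
          rw [add_comm, W.Fz_add, W.Fz_one]
          exact hF'
    obtain ⟨i, j, hij, hN⟩ := hind (n₁.toNat + n₂.toNat)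
    rcases le_or_gt n₁ i with h | h
    · exact hN (hIn _ (hn₁ i h _ (W.flip.Fz_fil_of_nonneg (n := j) (by omega) hy₀)))
    · apply hN
      rw [W.Fz_flip_comm]
      exact hIn _ (hn₂ j (by omega) _ (W.Fz_fil_of_nonneg (n := i) (by omega) hy₀))
  obtain ⟨m, hm, hmN, hFm, hVm⟩ := hex
  set c : Fin h → K := fun j => B.repr (W.Fz g m) j with hc
  -- information from `F m`
  have hFm' : ∀ i : Fin h, ((max ((g : ℤ) - (i : ℕ)) 0 : ℤ) : WithTop ℤ) ≤
      v ((if hi : 1 ≤ (i : ℕ) then W.σ (c ⟨i - 1, by omega⟩) else 0)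
        + W.σ (c ⟨h - 1, by omega⟩) * a i) := by
    intro i
    have h1 := hFm i
    have h2 : W.Fz g (W.F m) = W.F (W.Fz g m) := by
      rw [← W.Fz_one, ← W.Fz_one, ← W.Fz_add, ← W.Fz_add, add_comm]
    rwa [h2, coordF W h0 x B hB] at h1
  have hlast : (0 : WithTop ℤ) ≤ v (c ⟨h - 1, by omega⟩) := by
    have h1 := hFm' ⟨0, h0⟩
    rw [dif_neg (by simp), zero_add, v.map_mul, W.vσ] at h1
    have h2 : v (a ⟨0, h0⟩) = ((g : ℤ) : WithTop ℤ) := hdet
    rw [h2] at h1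
    by_cases ht : v (c ⟨h - 1, by omega⟩) = ⊤
    · simp [ht]
    · obtain ⟨k, hk⟩ := WithTop.ne_top_iff_exists.1 ht
      rw [← hk] at h1 ⊢
      have h3 : max ((g : ℤ) - (((⟨0, h0⟩ : Fin h) : ℕ) : ℤ)) 0 ≤ k + g := by exact_mod_cast h1
      have h4 : max ((g : ℤ) - (((⟨0, h0⟩ : Fin h) : ℕ) : ℤ)) 0 = g := by simp
      rw [h4] at h3
      exact_mod_cast (by omega : (0 : ℤ) ≤ k)
  have hcF : ∀ j : Fin h, (j : ℕ) + 1 < h →
      ((max ((g : ℤ) - (j : ℕ) - 1) 0 : ℤ) : WithTop ℤ) ≤ v (c j) := by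
    intro j hj
    have h1 := hFm' ⟨j + 1, hj⟩
    rw [dif_pos (by simp)] at h1
    have h2 := hai ⟨j + 1, hj⟩ (by simp)
    have h3 : ((0 + max 1 ((g : ℤ) + 1 - (((⟨j + 1, hj⟩ : Fin h) : ℕ) : ℤ)) : ℤ) : WithTop ℤ) ≤
        v (W.σ (c ⟨h - 1, by omega⟩) * a ⟨j + 1, hj⟩) :=
      le_val_mul (by rw [W.vσ]; exact_mod_cast hlast) h2
    have h4 := le_val_of_add h1 (le_mono (by simp; omega) h3)
    rw [W.vσ] at h4
    have h5 : (⟨(⟨j + 1, hj⟩ : Fin h) - 1, by simp⟩ : Fin h) = j := Fin.ext (by simp)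
    have h6 : (g : ℤ) - (((⟨j + 1, hj⟩ : Fin h) : ℕ) : ℤ) = (g : ℤ) - (j : ℕ) - 1 := by
      push_cast; ring
    rw [h6] at h4
    simpa using h4
  -- information from `V m`
  set d : Fin h → K := fun j => B.repr (W.F.symm (W.Fz g m)) j with hd
  have hVm' : ∀ i : Fin h, ((max ((g : ℤ) - (i : ℕ)) 0 - 1 : ℤ) : WithTop ℤ) ≤ v (d i) := by
    intro i
    have h1 := hVm i
    have h2 : W.Fz g (W.flip.F m) = π • W.F.symm (W.Fz g m) := by
      rw [W.flip_F, W.F_pi', ← W.Fz_neg_one, ← W.Fz_neg_one, ← W.Fz_add, ← W.Fz_add, add_comm]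
    rw [h2, map_smul, Finsupp.smul_apply, smul_eq_mul, v.map_mul, W.vπ] at h1
    change _ ≤ 1 + v (d i) at h1
    by_cases ht : v (d i) = ⊤
    · simp [ht]
    · obtain ⟨k, hk⟩ := WithTop.ne_top_iff_exists.1 ht
      rw [← hk] at h1 ⊢
      have h3 : max ((g : ℤ) - (i : ℕ)) 0 ≤ 1 + k := by exact_mod_cast h1
      exact_mod_cast (by omega : max ((g : ℤ) - (i : ℕ)) 0 - 1 ≤ k)
  have hcV : ∀ i : Fin h, 1 ≤ (i : ℕ) → ((max ((g : ℤ) - (i : ℕ)) (-1) : ℤ) : WithTop ℤ) ≤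
      v (c i) := by
    intro i hi
    have h1 : c i = W.σ (d ⟨i - 1, by omega⟩) + W.σ (d ⟨h - 1, by omega⟩) * a i := by
      have h2 := coordF W h0 x B hB (W.F.symm (W.Fz g m)) i
      rw [AddEquiv.apply_symm_apply, dif_pos hi] at h2
      exact h2
    rw [h1]
    refine le_val_add ?_ ?_
    · rw [W.vσ]
      refine le_mono ?_ (hVm' ⟨i - 1, by omega⟩)
      simp only
      omega
    · have h3 := hVm' ⟨h - 1, by omega⟩
      have h4 := le_val_mul (v := v) (a := W.σ (d ⟨h - 1, by omega⟩))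
        (by rw [W.vσ]; exact h3) (hai i hi)
      refine le_mono ?_ h4
      simp only
      omega
  have hcj : ∀ j : Fin h, 1 ≤ (j : ℕ) → ((max ((g : ℤ) - (j : ℕ)) 0 : ℤ) : WithTop ℤ) ≤
      v (c j) := by
    intro j hj
    rcases le_or_gt (j : ℕ) g with hle | hgt
    · refine le_mono ?_ (hcV j hj)
      omega
    · by_cases hlt : (j : ℕ) + 1 < h
      · refine le_mono ?_ (hcF j hlt)
        omega
      · have : j = ⟨h - 1, by omega⟩ := by apply Fin.ext; simp; omega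
        rw [this]
        refine le_mono (n := 0) ?_ (by exact_mod_cast hlast)
        simp
        omega
  have hc0 : v (c ⟨0, h0⟩) = (((g : ℤ) - 1 : ℤ) : WithTop ℤ) := by
    have h1 := hcF ⟨0, h0⟩ (by simp; omega)
    have h2 : ¬ ((g : ℤ) : WithTop ℤ) ≤ v (c ⟨0, h0⟩) := by
      intro h'
      apply hmN
      intro j
      by_cases hj : 1 ≤ (j : ℕ)
      · exact hcj j hj
      · have : j = ⟨0, h0⟩ := by apply Fin.ext; simp; omega
        rw [this]
        refine le_mono ?_ h'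
        simp
    have ht : v (c ⟨0, h0⟩) ≠ ⊤ := by
      intro h'
      rw [h'] at h2
      exact h2 le_top
    obtain ⟨k, hk⟩ := WithTop.ne_top_iff_exists.1 ht
    rw [← hk] at h1 h2 ⊢
    have h3 : max ((g : ℤ) - (((⟨0, h0⟩ : Fin h) : ℕ) : ℤ) - 1) 0 ≤ k := by exact_mod_cast h1
    have h4 : ¬ (g : ℤ) ≤ k := fun h' => h2 (by exact_mod_cast h')
    have h5 : (((⟨0, h0⟩ : Fin h) : ℕ) : ℤ) = 0 := by simp
    rw [h5] at h3
    have : k = (g : ℤ) - 1 := by omega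
    rw [this]
  -- `F^{-g} x`
  have hFx : ∀ j : ℕ, Fil v W.e (min ((j : ℤ) - g) 0) (W.Fz ((j : ℤ) - g) x) := by
    intro j
    have := W.Fz_fil ((j : ℤ) - g) hx
    simpa using this
  have hm_eq : m = ∑ j, (W.σ ^ (-(g : ℤ))) (c j) • W.Fz (((j : ℕ) : ℤ) - g) x := by
    have h1 : W.Fz (-(g : ℤ)) (W.Fz g m) = m := by rw [← W.Fz_add]; simp
    rw [← h1]
    conv_lhs => rw [← B.sum_repr (W.Fz g m)]
    rw [map_sum]
    refine Finset.sum_congr rfl fun j _ => ?_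
    rw [W.semi_z, hB, ← W.Fz_add, neg_add_eq_sub]
  have hFneg : Fil v W.e (1 - (g : ℤ)) (W.Fz (-(g : ℤ)) x) := by
    rw [← Finset.add_sum_erase _ _ (Finset.mem_univ (⟨0, h0⟩ : Fin h))] at hm_eq
    have h1 : Fil v W.e 0 (∑ j ∈ Finset.univ.erase (⟨0, h0⟩ : Fin h),
        (W.σ ^ (-(g : ℤ))) (c j) • W.Fz (((j : ℕ) : ℤ) - g) x) := by
      refine Fil.sum _ _ fun j hj => ?_
      have hj0 : (j : ℕ) ≠ 0 := by
        intro h'
        exact (Finset.mem_erase.1 hj).1 (Fin.ext h')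
      have h2 := Fil.smul (by rw [W.v_σz]; exact hcj j (by omega) :
        ((max ((g : ℤ) - (j : ℕ)) 0 : ℤ) : WithTop ℤ) ≤ v ((W.σ ^ (-(g : ℤ))) (c j))) (hFx j)
      exact h2.mono (by omega)
    have h2 : Fil v W.e ((g : ℤ) - 1 + (1 - (g : ℤ)))
        ((W.σ ^ (-(g : ℤ))) (c ⟨0, h0⟩) • W.Fz ((((⟨0, h0⟩ : Fin h) : ℕ) : ℤ) - g) x) := by
      rw [eq_sub_of_add_eq hm_eq.symm]
      have := hm.sub h1
      exact this.mono (by omega)
    rw [Fil.smul_iff (by rw [W.v_σz]; exact hc0)] at h2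
    simpa using h2
  have hres1 : Fil v W.e 1 (W.Fz g x) := by
    have h1 : W.Fz (g : ℤ) x = ∑ j, (W.σ ^ (-(g : ℤ))) (a j) • W.Fz (((j : ℕ) : ℤ) - g) x := by
      have h2 : W.Fz (g : ℤ) x = W.Fz (-(g : ℤ)) (W.Fz (h : ℤ) x) := by
        rw [← W.Fz_add]; congr 2; omega
      rw [h2]
      conv_lhs => rw [← B.sum_repr (W.Fz (h : ℤ) x)]
      rw [map_sum]
      refine Finset.sum_congr rfl fun j _ => ?_
      rw [W.semi_z, hB, ← W.Fz_add, neg_add_eq_sub]
    rw [h1]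
    refine Fil.sum _ _ fun j _ => ?_
    by_cases hj : 1 ≤ (j : ℕ)
    · have h2 := Fil.smul (by rw [W.v_σz]; exact hai j hj :
        ((max 1 ((g : ℤ) + 1 - (j : ℕ)) : ℤ) : WithTop ℤ) ≤ v ((W.σ ^ (-(g : ℤ))) (a j))) (hFx j)
      exact h2.mono (by omega)
    · have : j = ⟨0, h0⟩ := by apply Fin.ext; simp; omega
      rw [this]
      have h2 : (((((⟨0, h0⟩ : Fin h) : ℕ) : ℤ)) - g) = -(g : ℤ) := by simp
      rw [h2]
      have h3 := Fil.smul (by rw [W.v_σz]; exact hdet.ge :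
        ((g : ℤ) : WithTop ℤ) ≤ v ((W.σ ^ (-(g : ℤ))) (a ⟨0, h0⟩))) hFneg
      exact h3.mono (by omega)
  have hres2 : Fil v W.e 1 (W.flip.Fz g x) := by
    rw [W.flip_Fz]
    have h3 := Fil.smul (W.v_π_zpow (g : ℤ)).ge hFneg
    exact h3.mono (by omega)
  exact hcon2 hres1 hres2

end MPd27f8c
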