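import Pool.Agent.Lib.MP_d27f8c_ag.Eig

/-!
# Cyclic vectors exist and are generic
-/

set_option linter.unusedSectionVars false

namespace MPd27f8c

open Module

variable {K V ι κ : Type*} [Field K] [AddCommGroup V] [Module K V] [Fintype ι] [Fintype κ]
variable {v : AddValuation K (WithTop ℤ)} {π : K}

/-- `x` generates the isocrystal -/
def Full (W : World K V ι v π) (x : V) : Prop :=
  Submodule.span K (Set.range fun n : ℕ => W.Fz n x) = ⊤

theorem Full.pr_ne {W : World K V ι v π} (E : Eig W κ) {x : V} (hx : Full W x) (j : κ) :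
    E.pr (fun a => a = E.r j) x ≠ 0 := by
  intro h0
  have h1 : Submodule.span K (Set.range fun n : ℕ => W.Fz n x) ≤
      LinearMap.ker (E.pr (fun a => a = E.r j)) := by
    rw [Submodule.span_le]
    rintro _ ⟨n, rfl⟩
    simp only [SetLike.mem_coe, LinearMap.mem_ker]
    rw [← E.Fz_pr, h0, map_zero]
  rw [hx, top_le_iff] at h1
  have h2 : E.b j ∈ LinearMap.ker (E.pr (fun a => a = E.r j)) := by rw [h1]; trivial
  rw [LinearMap.mem_ker, E.pr_b, if_pos rfl] at h2
  exact E.b.ne_zero j h2

theorem basis_of_full {W : World K V ι v π} {x : V} (hx : Full W x) {h : ℕ}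
    (hh : finrank K V = h) (hfin : Module.Finite K V) :
    ∃ B : Basis (Fin h) K V, ∀ j, B j = W.Fz (j : ℕ) x := by
  classical
  set S : ℕ → Submodule K V := fun m =>
    Submodule.span K (Set.range fun j : Fin m => W.Fz (j : ℕ) x) with hS
  have key : ∀ m, m < h → W.Fz (m : ℕ) x ∉ S m := by
    intro m hm hmem
    have hstab : ∀ y ∈ S m, W.F y ∈ S m := by
      intro y hy
      induction hy using Submodule.span_induction with
      | mem y hy =>
        obtain ⟨j, rfl⟩ := hy
        simp only
        rw [← W.Fz_one, ← W.Fz_add]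
        by_cases hj : (j : ℕ) + 1 < m
        · apply Submodule.subset_span
          refine ⟨⟨j + 1, hj⟩, ?_⟩
          simp only
          congr 2
          push_cast; ring
        · have : (1 : ℤ) + (j : ℕ) = (m : ℕ) := by
            have := j.2
            omega
          rw [this]
          exact hmem
      | zero => simp
      | add y z _ _ hy hz => rw [map_add]; exact Submodule.add_mem _ hy hz
      | smul a y _ hy => rw [W.semi]; exact Submodule.smul_mem _ _ hy
    have hall : ∀ n : ℕ, W.Fz n x ∈ S m := by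
      intro n
      induction n with
      | zero =>
        rcases Nat.eq_zero_or_pos m with h0 | h0
        · subst h0; exact hmem
        · exact Submodule.subset_span ⟨⟨0, h0⟩, rfl⟩
      | succ n ih =>
        push_cast
        rw [add_comm, W.Fz_add, W.Fz_one]
        exact hstab _ ih
    have htop : S m = ⊤ := by
      rw [eq_top_iff, ← hx, Submodule.span_le]
      rintro _ ⟨n, rfl⟩
      exact hall n
    have h1 : finrank K (S m) ≤ m := by
      have := finrank_range_le_card (R := K) (fun j : Fin m => W.Fz (j : ℕ) x)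
      simpa [Set.finrank] using this
    rw [htop, finrank_top, hh] at h1
    omega
  have hli : ∀ m, m ≤ h → LinearIndependent K (fun j : Fin m => W.Fz (j : ℕ) x) := by
    intro m
    induction m with
    | zero => intro _; exact linearIndependent_empty_type
    | succ m ih =>
      intro hm
      rw [linearIndependent_finSucc']
      exact ⟨ih (by omega), fun hmem => key m (by omega) hmem⟩
  rcases Nat.eq_zero_or_pos h with h0 | h0
  · subst h0
    have : Subsingleton V := Module.finrank_zero_iff.1 hh
    exact ⟨Basis.empty V, fun j => j.elim0⟩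
  · have : Nonempty (Fin h) := ⟨⟨0, h0⟩⟩
    refine ⟨basisOfLinearIndependentOfCardEqFinrank (hli h le_rfl) (by simp [hh]), fun j => ?_⟩
    simp

/-- the coordinate matrix of `F^(s j) x` -/
noncomputable def coordM {W : World K V ι v π} (E : Eig W κ) (ε : κ → ℕ) (x : V) : Matrix κ κ K :=
  fun i j => E.b.repr (W.Fz (E.s * ε j) x) i

theorem full_of_det [DecidableEq κ] {W : World K V ι v π} (E : Eig W κ) (ε : κ → ℕ) {x : V}
    (h : (coordM E ε x).det ≠ 0) : Full W x := by
  have h1 : LinearIndependent K (fun j => W.Fz (E.s * ε j) x) := by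
    have h2 : LinearIndependent K (coordM E ε x).col :=
      Matrix.linearIndependent_cols_iff_isUnit.2
        ((Matrix.isUnit_iff_isUnit_det _).2 (isUnit_iff_ne_zero.2 h))
    have h3 := h2.map' (Finsupp.linearEquivFunOnFinite K K κ).symm.toLinearMap
      (LinearEquiv.ker _)
    have h4 := h3.map' E.b.repr.symm.toLinearMap (LinearEquiv.ker _)
    have h5 : (fun j => W.Fz (E.s * ε j) x) = ⇑E.b.repr.symm.toLinearMap ∘
        ⇑(Finsupp.linearEquivFunOnFinite K K κ).symm.toLinearMap ∘ (coordM E ε x).col := by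
      funext j
      simp only [Function.comp_apply, LinearEquiv.coe_coe]
      rw [LinearEquiv.eq_symm_apply]
      ext i
      simp [coordM, Matrix.col]
    rw [h5]
    exact h4
  have hfin : Module.Finite K V := Module.Finite.of_basis E.b
  have h5 : Submodule.span K (Set.range (fun j => W.Fz (E.s * ε j) x)) = ⊤ := by
    apply h1.span_eq_top_of_card_eq_finrank'
    rw [finrank_eq_card_basis E.b]
  rw [Full, eq_top_iff, ← h5, Submodule.span_le]
  rintro _ ⟨j, rfl⟩
  apply Submodule.subset_span
  refine ⟨(E.s * ε j).toNat, ?_⟩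
  have : 0 ≤ E.s * ε j := mul_nonneg E.hs.le (by omega)
  simp only
  rw [Int.toNat_of_nonneg this]

/-- existence of cyclic vectors, by Dedekind's theorem on independence of characters -/
theorem exists_det_ne [DecidableEq κ] {W : World K V ι v π} (E : Eig W κ) (ε : κ → ℕ)
    (hε : Function.Injective ε)
    (hσ : ∃ t : K, ∀ n m : ℕ, n ≠ m → (W.σ ^ (n : ℤ)) t ≠ (W.σ ^ (m : ℤ)) t) :
    ∃ w, (coordM E ε w).det ≠ 0 := by
  obtain ⟨t, ht⟩ := hσ
  by_contra hcon
  push Not at hcon
  have hscast : ∀ n : ℕ, E.s * (n : ℤ) = ((E.s.toNat * n : ℕ) : ℤ) := by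
    intro n
    push_cast
    rw [Int.toNat_of_nonneg E.hs.le]
  have hs0 : 0 < E.s.toNat := by have := E.hs; omega
  set χ : Equiv.Perm κ → ((κ → K) →* K) := fun τ =>
    { toFun := fun a => ∏ j, (W.σ ^ (E.s * ε j)) (a (τ j))
      map_one' := by simp
      map_mul' := fun a b => by simp [Finset.prod_mul_distrib] } with hχ
  have hχinj : Function.Injective χ := by
    intro τ τ' hττ
    by_contra hne
    obtain ⟨i, hi⟩ : ∃ i, τ.symm i ≠ τ'.symm i := by
      by_contra hc
      push Not at hc
      apply hne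
      have : τ.symm = τ'.symm := Equiv.ext hc
      exact Equiv.symm_bijective.injective this
    have h1 := DFunLike.congr_fun hττ (Pi.mulSingle i t)
    have h2 : ∀ ρ : Equiv.Perm κ, χ ρ (Pi.mulSingle i t) = (W.σ ^ (E.s * ε (ρ.symm i))) t := by
      intro ρ
      change ∏ j, (W.σ ^ (E.s * ε j)) ((Pi.mulSingle i t : κ → K) (ρ j)) = _
      rw [Finset.prod_eq_single (ρ.symm i)]
      · simp
      · intro j _ hj
        have : ρ j ≠ i := by
          intro h
          apply hj
          rw [← h]
          simp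
        rw [Pi.mulSingle_eq_of_ne this, map_one]
      · simp
    rw [h2, h2, hscast, hscast] at h1
    refine ht _ _ ?_ h1
    intro h
    exact hi (hε (Nat.eq_of_mul_eq_mul_left hs0 h))
  have hli := (linearIndependent_monoidHom (κ → K) K).comp χ hχinj
  rw [Fintype.linearIndependent_iff] at hli
  set c : Equiv.Perm κ → K := fun τ => (Equiv.Perm.sign τ : ℤ) • ∏ j, π ^ (E.r (τ j) * ε j) with hc
  have hsum : ∑ τ, c τ • (((fun f => f : ((κ → K) →* K) → (κ → K) → K) ∘ χ) τ) = 0 := by
    funext a
    have h1 := hcon (∑ i, a i • E.b i)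
    rw [Matrix.det_apply] at h1
    rw [Finset.sum_apply]
    rw [Pi.zero_apply, ← h1]
    refine Finset.sum_congr rfl fun τ _ => ?_
    have h2 : ∀ j, coordM E ε (∑ i, a i • E.b i) (τ j) j
        = (W.σ ^ (E.s * ε j)) (a (τ j)) * π ^ (E.r (τ j) * ε j) := by
      intro j
      unfold coordM
      rw [E.repr_Fz]
      congr 2
      simp [Finsupp.single_apply]
    simp only [h2, Finset.prod_mul_distrib]
    simp only [hc, Pi.smul_apply, Function.comp_apply, smul_eq_mul, Units.smul_def, zsmul_eq_mul]
    change _ * (∏ j, (W.σ ^ (E.s * ε j)) (a (τ j))) = _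
    ring
  have h3 := hli c hsum 1
  have h4 : c 1 ≠ 0 := by
    simp only [hc, Equiv.Perm.sign_one, Units.val_one, one_smul]
    exact Finset.prod_ne_zero_iff.2 fun j _ => zpow_ne_zero _ W.π_ne
  exact h4 h3

theorem exists_full [DecidableEq κ] [CharZero K] {W : World K V ι v π} (E : Eig W κ)
    (hσ : ∃ t : K, ∀ n m : ℕ, n ≠ m → (W.σ ^ (n : ℤ)) t ≠ (W.σ ^ (m : ℤ)) t) :
    ∃ w, Fil v W.e 0 w ∧ Full W w ∧ ∀ x, ∃ T : ℕ, Full W (x + (T : K) • w) := by
  classical
  obtain ⟨ε, hε⟩ : ∃ ε : κ → ℕ, Function.Injective ε :=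
    ⟨fun j => (Fintype.equivFin κ j : ℕ), fun i j h => (Fintype.equivFin κ).injective (Fin.ext h)⟩
  obtain ⟨w₀, hw₀⟩ := exists_det_ne E ε hε hσ
  obtain ⟨m, hm⟩ := Fil.exists (v := v) W.e w₀
  set w := π ^ (-m) • w₀ with hw
  have hcw : coordM E ε w = π ^ (-m) • coordM E ε w₀ := by
    ext i j
    simp only [coordM, hw, W.F_pi, map_smul, Finsupp.smul_apply, Matrix.smul_apply]
  have hdw : (coordM E ε w).det ≠ 0 := by
    rw [hcw, Matrix.det_smul]
    exact mul_ne_zero (pow_ne_zero _ (zpow_ne_zero _ W.π_ne)) hw₀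
  refine ⟨w, ?_, full_of_det E ε hdw, fun x => ?_⟩
  · have := Fil.smul (W.v_π_zpow (-m)).ge hm
    rw [hw]
    simpa using this
  · set A := coordM E ε x with hA
    set B := coordM E ε w with hB
    have hBu : IsUnit B.det := isUnit_iff_ne_zero.2 hdw
    set M := -(B⁻¹ * A) with hM
    have hchar : M.charpoly ≠ 0 := (Matrix.charpoly_monic M).ne_zero
    obtain ⟨T, hT⟩ : ∃ T : ℕ, M.charpoly.eval (T : K) ≠ 0 := by
      by_contra hc
      push Not at hc
      apply hchar
      apply Polynomial.eq_zero_of_infinite_isRoot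
      refine Set.Infinite.mono (s := Set.range fun T : ℕ => (T : K)) ?_ ?_
      · rintro _ ⟨T, rfl⟩
        exact hc T
      · exact Set.infinite_range_of_injective Nat.cast_injective
    refine ⟨T, full_of_det E ε ?_⟩
    have h1 : coordM E ε (x + (T : K) • w) = B * (Matrix.scalar κ (T : K) - M) := by
      have h2 : B * (Matrix.scalar κ (T : K) - M) = A + (T : K) • B := by
        rw [hM, sub_neg_eq_add, mul_add, ← mul_assoc, Matrix.mul_nonsing_inv _ hBu, one_mul,
          add_comm]
        congr 1
        rw [Matrix.scalar_apply, ← Matrix.smul_one_eq_diagonal, mul_smul_comm, mul_one]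
      rw [h2]
      ext i j
      simp only [coordM, map_add, W.semi_z, map_natCast, map_smul, Finsupp.add_apply,
        Finsupp.smul_apply, Matrix.add_apply, Matrix.smul_apply, hA, hB]
    rw [h1, Matrix.det_mul]
    refine mul_ne_zero hdw ?_
    rwa [← Matrix.eval_charpoly]

end MPd27f8c
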