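import Pool.Agent.Lib.MP_d27f8c_ag.World

/-!
# Eigenbases of a power of `F`: slope projections and growth
-/

set_option linter.unusedSectionVars false

namespace MPd27f8c

open Module

variable {K V ι κ : Type*} [Field K] [AddCommGroup V] [Module K V] [Fintype κ] [Fintype ι]
variable {v : AddValuation K (WithTop ℤ)} {π : K}

/-- A Dieudonné–Manin basis: `F ^ s b_i = π ^ (r_i) b_i`. -/
structure Eig (W : World K V ι v π) (κ : Type*) where
  s : ℤ
  hs : 0 < s
  b : Basis κ K V
  r : κ → ℤ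
  heig : ∀ i, W.Fz s (b i) = π ^ (r i) • b i

namespace Eig

variable {W : World K V ι v π} (E : Eig W κ)

omit [Fintype κ] [Fintype ι] in
theorem Fz_eig {y : V} {s ρ : ℤ} (h : W.Fz s y = π ^ ρ • y) (q : ℤ) :
    W.Fz (s * q) y = π ^ (ρ * q) • y := by
  have hinv : W.Fz (-s) y = π ^ (-ρ) • y := by
    have h1 : W.Fz (-s) (W.Fz s y) = y := by rw [← W.Fz_add]; simp
    rw [h, W.F_pi] at h1
    rw [← h1, smul_smul, ← zpow_add₀ W.π_ne, h1]
    simp
  induction q using Int.induction_on with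
  | zero => simp
  | succ q ih =>
    rw [mul_add, mul_one, W.Fz_add, h, W.F_pi, ih, smul_smul, ← zpow_add₀ W.π_ne]
    congr 2; ring
  | pred q ih =>
    rw [mul_sub, mul_one, sub_eq_add_neg, W.Fz_add, hinv, W.F_pi, ih, smul_smul,
      ← zpow_add₀ W.π_ne]
    congr 2; ring

theorem repr_Fz (q : ℤ) (y : V) (j : κ) :
    E.b.repr (W.Fz (E.s * q) y) j = (W.σ ^ (E.s * q)) (E.b.repr y j) * π ^ (E.r j * q) := by
  classical
  conv_lhs => rw [← E.b.sum_repr y, map_sum]
  simp only [W.semi_z, Fz_eig (E.heig _) q, map_sum, map_smul, Finsupp.coe_finsetSum,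
    Finset.sum_apply, Finsupp.smul_apply, Basis.repr_self, smul_eq_mul, Finsupp.single_apply]
  rw [Finset.sum_eq_single j]
  · simp
  · intro b _ hb
    simp [hb]
  · simp

/-- projection on the span of the eigenvectors whose exponent satisfies `P` -/
noncomputable def pr (P : ℤ → Prop) : V →ₗ[K] V :=
  open Classical in E.b.constr K (fun i => if P (E.r i) then E.b i else 0)

theorem pr_b (P : ℤ → Prop) (i : κ) : E.pr P (E.b i) =
    open Classical in if P (E.r i) then E.b i else 0 := by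
  classical
  rw [pr, Basis.constr_basis]

theorem repr_pr (P : ℤ → Prop) (x : V) (j : κ) : E.b.repr (E.pr P x) j =
    open Classical in if P (E.r j) then E.b.repr x j else 0 := by
  classical
  conv_lhs => rw [← E.b.sum_repr x]
  simp only [map_sum, map_smul, E.pr_b, Finsupp.coe_finsetSum, Finset.sum_apply,
    Finsupp.smul_apply, smul_eq_mul]
  rw [Finset.sum_eq_single j]
  · split_ifs <;> simp
  · intro b _ hb
    split_ifs <;> simp [hb]
  · simp

theorem eig_coord {y : V} {ρ : ℤ} (h : W.Fz E.s y = π ^ ρ • y) (j : κ)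
    (hj : E.b.repr y j ≠ 0) : E.r j = ρ := by
  have h1 := E.repr_Fz 1 y j
  rw [mul_one, mul_one, h, map_smul, Finsupp.smul_apply, smul_eq_mul] at h1
  have h2 := congrArg v h1
  rw [v.map_mul, v.map_mul, W.v_σz, W.v_π_zpow, W.v_π_zpow] at h2
  obtain ⟨m, hm⟩ := exists_val (v := v) hj
  rw [hm] at h2
  have h3 : ρ + m = m + E.r j := by exact_mod_cast h2
  omega

theorem pr_of_coord {P : ℤ → Prop} {y : V} (h : ∀ j, E.b.repr y j ≠ 0 → P (E.r j)) :
    E.pr P y = y := by
  classical
  apply E.b.repr.injective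
  ext j
  rw [repr_pr]
  split_ifs with hP
  · rfl
  · by_contra hne
    exact hP (h j (Ne.symm hne))

theorem pr_of_coord_not {P : ℤ → Prop} {y : V} (h : ∀ j, E.b.repr y j ≠ 0 → ¬ P (E.r j)) :
    E.pr P y = 0 := by
  classical
  apply E.b.repr.injective
  ext j
  rw [repr_pr]
  split_ifs with hP
  · by_contra hne
    exact h j (by simpa using hne) hP
  · simp

theorem F_pr (P : ℤ → Prop) (x : V) : W.F (E.pr P x) = E.pr P (W.F x) := by
  classical
  have hb : ∀ i, W.F (E.pr P (E.b i)) = E.pr P (W.F (E.b i)) := by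
    intro i
    have h1 : W.Fz E.s (W.F (E.b i)) = π ^ (E.r i) • W.F (E.b i) := by
      rw [← W.Fz_one, ← W.Fz_add, add_comm, W.Fz_add, E.heig, W.F_pi]
    rw [E.pr_b]
    split_ifs with hP
    · rw [E.pr_of_coord]
      intro j hj
      rwa [E.eig_coord h1 j hj]
    · rw [map_zero, E.pr_of_coord_not]
      intro j hj
      rwa [E.eig_coord h1 j hj]
  conv_lhs => rw [← E.b.sum_repr x]
  conv_rhs => rw [← E.b.sum_repr x]
  simp only [map_sum, map_smul, W.semi, hb]

theorem Fz_pr (P : ℤ → Prop) (n : ℤ) (x : V) : W.Fz n (E.pr P x) = E.pr P (W.Fz n x) := by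
  have hinv : ∀ x, W.F.symm (E.pr P x) = E.pr P (W.F.symm x) := by
    intro x
    apply W.F.injective
    rw [E.F_pr, AddEquiv.apply_symm_apply, AddEquiv.apply_symm_apply]
  induction n using Int.induction_on generalizing x with
  | zero => simp
  | succ n ih => rw [W.Fz_add, W.Fz_add, W.Fz_one, W.Fz_one, E.F_pr, ih]
  | pred n ih =>
    rw [sub_eq_add_neg, W.Fz_add, W.Fz_add, W.Fz_neg_one, W.Fz_neg_one, hinv, ih]

theorem growth (t : ℤ) (y : V) (Q : ℤ → Prop)
    (h : ∀ j, E.b.repr y j ≠ 0 → ∀ q, Q q → t * q ≤ E.r j * q) :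
    ∃ C, ∀ n, Q (n / E.s) → Gr v W.e E.s t C n (W.Fz n y) := by
  classical
  obtain ⟨T, hT, hcomp⟩ := Fil.compare (v := v) W.e E.b
  obtain ⟨T0, hT0⟩ := Fil.exists (v := v) E.b y
  refine ⟨|t| * E.s + E.s - E.s * (T0 - T), fun n hn m hm => ?_⟩
  have hdiv : E.s * (n / E.s) + n % E.s = n := Int.mul_ediv_add_emod n E.s
  set q := n / E.s with hq
  set ρ := n % E.s with hρ
  have hρ0 : 0 ≤ ρ := Int.emod_nonneg _ E.hs.ne'
  have hρs : ρ < E.s := Int.emod_lt_of_pos _ E.hs
  have h1 : Fil v E.b (T0 + t * q) (W.Fz (E.s * q) y) := by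
    intro j
    rw [E.repr_Fz, v.map_mul, W.v_σz, W.v_π_zpow]
    by_cases hj : E.b.repr y j = 0
    · simp [hj]
    · have h2 := hT0 j
      have h3 := h j hj q hn
      push_cast
      refine add_le_add h2 ?_
      exact_mod_cast h3
  have h2 := hcomp _ _ h1
  have h3 := W.Fz_fil_of_nonneg hρ0 h2
  rw [← W.Fz_add, add_comm ρ, hdiv] at h3
  refine h3.mono ?_
  have h4 : t * ρ ≤ |t| * E.s := by
    calc t * ρ ≤ |t| * ρ := mul_le_mul_of_nonneg_right (le_abs_self t) hρ0
      _ ≤ |t| * E.s := mul_le_mul_of_nonneg_left hρs.le (abs_nonneg t)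
  have h5 : t * n = E.s * (t * q) + t * ρ := by rw [← hdiv]; ring
  have h6 : E.s * m < E.s * (T0 + t * q - T + 1) := by
    have h7 : E.s * (T0 + t * q - T + 1) = E.s * (T0 - T) + E.s * (t * q) + E.s := by ring
    have := E.hs
    rw [h7]
    linarith
  have := lt_of_mul_lt_mul_left h6 E.hs.le
  omega

theorem growth_pos {t : ℤ} {y : V} (h : ∀ j, E.b.repr y j ≠ 0 → t ≤ E.r j) :
    ∃ C, ∀ n, 0 ≤ n → Gr v W.e E.s t C n (W.Fz n y) := by
  obtain ⟨C, hC⟩ := E.growth t y (fun q => 0 ≤ q)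
    (fun j hj q hq => mul_le_mul_of_nonneg_right (h j hj) hq)
  exact ⟨C, fun n hn => hC n (Int.ediv_nonneg hn E.hs.le)⟩

theorem growth_neg {t : ℤ} {y : V} (h : ∀ j, E.b.repr y j ≠ 0 → E.r j ≤ t) :
    ∃ C, ∀ n, n ≤ 0 → Gr v W.e E.s t C n (W.Fz n y) := by
  obtain ⟨C, hC⟩ := E.growth t y (fun q => q ≤ 0)
    (fun j hj q hq => mul_le_mul_of_nonpos_right (h j hj) hq)
  exact ⟨C, fun n hn => hC n (Int.ediv_nonpos_of_nonpos_of_neg hn E.hs)⟩

/-- the part of slope `≥ t / s` -/
noncomputable def ge (t : ℤ) : V →ₗ[K] V := E.pr (fun a => t ≤ a)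

/-- the part of slope `< t / s` -/
noncomputable def lt (t : ℤ) : V →ₗ[K] V := E.pr (fun a => a < t)

theorem ge_add_lt (t : ℤ) (x : V) : E.ge t x + E.lt t x = x := by
  classical
  apply E.b.repr.injective
  ext j
  rw [map_add, Finsupp.add_apply, ge, lt, repr_pr, repr_pr]
  by_cases h : t ≤ E.r j
  · simp [h]
  · have h' : E.r j < t := by omega
    simp [h, h']

theorem repr_ge_ne {t : ℤ} {x : V} {j : κ} (h : E.b.repr (E.ge t x) j ≠ 0) : t ≤ E.r j := by
  classical
  rw [ge, repr_pr] at h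
  by_contra hc
  simp [hc] at h

theorem repr_lt_ne {t : ℤ} {x : V} {j : κ} (h : E.b.repr (E.lt t x) j ≠ 0) : E.r j < t := by
  classical
  rw [lt, repr_pr] at h
  by_contra hc
  simp [hc] at h

/-- **Key estimate.** -/
theorem key (t : ℤ) (ht0 : 0 ≤ t) (hts : t ≤ E.s) {x : V} (hx : Fil v W.e 0 x) (θ : ℤ →₀ K)
    (hθ : ∀ i, ((max (-i) 0 : ℤ) : WithTop ℤ) ≤ v (θ i))
    (hrel : ∑ i ∈ θ.support, θ i • W.Fz i x = 0) (B : ℤ)
    (hB : ∃ i, ∃ a : ℤ, v (θ i) = a ∧ E.s * a + i * t ≤ B) :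
    (∀ n, 0 ≤ n → Gr v W.e E.s t B n (W.Fz n (E.ge t x))) ∧
    (∀ n, n < 0 → Gr v W.e E.s t B n (W.Fz n (E.lt t x))) ∧
    (0 < t → t < E.s → Fil v W.e 1 (∑ i ∈ θ.support, if 0 ≤ i then θ i • W.Fz i x else 0) →
      (∀ n, 0 ≤ n → Gr v W.e E.s t (B - 1) n (W.Fz n (E.ge t x))) ∧
      (∀ n, n < 0 → Gr v W.e E.s t (B - 1) n (W.Fz n (E.lt t x)))) := by
  classical
  set Y : ℤ → V := fun n => if 0 ≤ n then W.Fz n (E.ge t x) else - W.Fz n (E.lt t x) with hY
  have hsum : ∀ n : ℤ, ∑ i ∈ θ.support, (W.σ ^ n) (θ i) • W.Fz (n + i) x = 0 := by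
    intro n
    have := congrArg (W.Fz n) hrel
    rw [map_sum, map_zero] at this
    rw [← this]
    refine Finset.sum_congr rfl fun i _ => ?_
    rw [W.semi_z, W.Fz_add]
  have hsumP : ∀ (P : ℤ → Prop) (n : ℤ),
      ∑ i ∈ θ.support, (W.σ ^ n) (θ i) • W.Fz (n + i) (E.pr P x) = 0 := by
    intro P n
    have := congrArg (E.pr P) (hsum n)
    rw [map_sum, map_zero] at this
    rw [← this]
    refine Finset.sum_congr rfl fun i _ => ?_
    rw [map_smul, E.Fz_pr]
  -- estimates for R
  have hR_nonneg : ∀ n : ℤ, 0 ≤ n →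
      Fil v W.e n (∑ i ∈ θ.support, (W.σ ^ n) (θ i) • Y (n + i)) := by
    intro n hn
    have h1 : ∑ i ∈ θ.support, (W.σ ^ n) (θ i) • Y (n + i)
        = ∑ i ∈ θ.support, (W.σ ^ n) (θ i) • (Y (n + i) - W.Fz (n + i) (E.ge t x)) := by
      simp only [smul_sub, Finset.sum_sub_distrib]
      rw [show E.ge t x = E.pr (fun a => t ≤ a) x from rfl, hsumP, sub_zero]
    rw [h1]
    refine Fil.sum _ _ fun i _ => ?_
    by_cases hi : 0 ≤ n + i
    · simp only [hY, hi, if_true, sub_self, smul_zero]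
      exact Fil.zero _
    · have h2 : Y (n + i) - W.Fz (n + i) (E.ge t x) = - W.Fz (n + i) x := by
        simp only [hY, hi, if_false]
        conv_rhs => rw [← E.ge_add_lt t x]
        rw [map_add]; abel
      rw [h2]
      have h3 : Fil v W.e (0 + (n + i)) (W.Fz (n + i) x) :=
        W.Fz_fil_of_nonpos (by omega) hx
      have h4 : ((-i : ℤ) : WithTop ℤ) ≤ v ((W.σ ^ n) (θ i)) := by
        rw [W.v_σz]
        refine le_trans ?_ (hθ i)
        exact_mod_cast le_max_left _ _
      have h5 := Fil.smul h4 h3.neg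
      refine h5.mono (by omega)
  have hR_neg' : ∀ n : ℤ, ∑ i ∈ θ.support, (W.σ ^ n) (θ i) • Y (n + i)
      = ∑ i ∈ θ.support, if 0 ≤ n + i then (W.σ ^ n) (θ i) • W.Fz (n + i) x else 0 := by
    intro n
    have h1 : ∑ i ∈ θ.support, (W.σ ^ n) (θ i) • Y (n + i)
        = ∑ i ∈ θ.support, (W.σ ^ n) (θ i) • (Y (n + i) + W.Fz (n + i) (E.lt t x)) := by
      simp only [smul_add, Finset.sum_add_distrib]
      rw [show E.lt t x = E.pr (fun a => a < t) x from rfl, hsumP, add_zero]
    rw [h1]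
    refine Finset.sum_congr rfl fun i _ => ?_
    by_cases hi : 0 ≤ n + i
    · simp only [hY, hi, if_true]
      rw [← map_add, E.ge_add_lt]
    · simp only [hY, hi, if_false]
      simp
  have hR_neg : ∀ n : ℤ, Fil v W.e 0 (∑ i ∈ θ.support, (W.σ ^ n) (θ i) • Y (n + i)) := by
    intro n
    rw [hR_neg']
    refine Fil.sum _ _ fun i _ => ?_
    split_ifs with hi
    · have h4 : (0 : WithTop ℤ) ≤ v ((W.σ ^ n) (θ i)) := by
        rw [W.v_σz]
        refine le_trans ?_ (hθ i)
        exact_mod_cast le_max_right _ _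
      exact Fil.smul_int h4 (W.Fz_fil_of_nonneg hi hx)
    · exact Fil.zero _
  -- growth of Y
  obtain ⟨C1, hC1⟩ := E.growth_pos (t := t) (y := E.ge t x) (fun j hj => E.repr_ge_ne hj)
  obtain ⟨C2, hC2⟩ := E.growth_neg (t := t - 1) (y := E.lt t x)
    (fun j hj => by have := E.repr_lt_ne hj; omega)
  have hC0 : ∃ C₀, ∀ n, Gr v W.e E.s t C₀ n (Y n) := by
    refine ⟨max C1 C2, fun n => ?_⟩
    by_cases hn : 0 ≤ n
    · simp only [hY, hn, if_true]
      exact (hC1 n hn).mono (le_max_left _ _)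
    · simp only [hY, hn, if_false]
      refine Gr.neg ?_
      intro m hm
      apply hC2 n (by omega)
      have := le_max_right C1 C2
      have h6 : (t - 1) * n = t * n - n := by ring
      rw [h6]; omega
  have hneg : ∀ C, ∃ n₀, ∀ n ≤ n₀, Gr v W.e E.s t C n (Y n) := by
    intro C
    refine ⟨min (-1) (C - C2), fun n hn => ?_⟩
    have hn1 : n ≤ -1 := hn.trans (min_le_left _ _)
    have hn2 : n ≤ C - C2 := hn.trans (min_le_right _ _)
    have hn0 : ¬ 0 ≤ n := by omega
    simp only [hY, hn0, if_false]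
    refine Gr.neg ?_
    intro m hm
    apply hC2 n (by omega)
    have h6 : (t - 1) * n = t * n - n := by ring
    rw [h6]; omega
  -- the minimum N
  have hmin : ∃ N : ℤ, (∀ i, ∀ a : ℤ, v (θ i) = a → N ≤ E.s * a + i * t) ∧
      (∃ i, ∃ a : ℤ, v (θ i) = a ∧ E.s * a + i * t = N) ∧ N ≤ B := by
    obtain ⟨i₁, a₁, h1, h2⟩ := hB
    have hsupp : ∀ i, ∀ a : ℤ, v (θ i) = a → i ∈ θ.support := by
      intro i a h
      rw [Finsupp.mem_support_iff]
      intro h0
      rw [h0, v.map_zero] at h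
      exact absurd h (by simp)
    set val : ℤ → ℤ := fun i => E.s * (v (θ i)).untopD 0 + i * t with hval
    obtain ⟨i₀, hi₀, hmin⟩ := Finset.exists_min_image θ.support val ⟨i₁, hsupp i₁ a₁ h1⟩
    obtain ⟨a₀, ha₀⟩ := exists_val (v := v) (Finsupp.mem_support_iff.1 hi₀)
    have hval' : ∀ i, ∀ a : ℤ, v (θ i) = a → val i = E.s * a + i * t := by
      intro i a h
      simp only [hval, h, WithTop.untopD_coe]
    refine ⟨val i₀, fun i a h => ?_, ⟨i₀, a₀, ha₀, (hval' i₀ a₀ ha₀).symm⟩, ?_⟩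
    · rw [← hval' i a h]
      exact hmin i (hsupp i a h)
    · refine le_trans (hmin i₁ (hsupp i₁ a₁ h1)) ?_
      rw [hval' i₁ a₁ h1]
      exact h2
  obtain ⟨N, hN, hN', hNB⟩ := hmin
  -- bound of R for C > N
  have hRbig : ∀ C > N, ∀ n m : ℤ, E.s * m = N + t * n - C →
      Fil v W.e (m + 1) (∑ i ∈ θ.support, (W.σ ^ n) (θ i) • Y (n + i)) := by
    intro C hC n m hm
    have hs := E.hs
    rcases le_or_gt 0 n with hn | hn
    · refine (hR_nonneg n hn).mono ?_
      have h1 : t * n ≤ E.s * n := mul_le_mul_of_nonneg_right hts hn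
      have h2 : E.s * m < E.s * n := by linarith
      have := lt_of_mul_lt_mul_left h2 hs.le
      omega
    · refine (hR_neg n).mono ?_
      have h1 : t * n ≤ 0 := mul_nonpos_of_nonneg_of_nonpos ht0 hn.le
      have h2 : E.s * m < E.s * 0 := by linarith
      have := lt_of_mul_lt_mul_left h2 hs.le
      omega
  have hweak : ∀ n, Gr v W.e E.s t N n (Y n) :=
    key_recurrence W.σ W.vσ E.s t Y θ hC0 hneg N hN hN' N hRbig
  refine ⟨fun n hn => ?_, fun n hn => ?_, fun htpos htlt hstr => ?_⟩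
  · have := hweak n
    simp only [hY, hn, if_true] at this
    exact this.mono hNB
  · have := hweak n
    have hn' : ¬ 0 ≤ n := by omega
    simp only [hY, hn', if_false] at this
    have := this.neg
    rw [neg_neg] at this
    exact this.mono hNB
  · have hstrict : ∀ n, Gr v W.e E.s t (N - 1) n (Y n) := by
      refine key_recurrence W.σ W.vσ E.s t Y θ hC0 hneg N hN hN' (N - 1) ?_
      intro C hC n m hm
      rcases lt_or_eq_of_le (show N ≤ C by omega) with hlt | heq
      · exact hRbig C hlt n m hm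
      · subst heq
        have hs := E.hs
        have hm' : E.s * m = t * n := by linarith
        rcases lt_trichotomy n 0 with hn | hn | hn
        · refine (hR_neg n).mono ?_
          have h1 : t * n < 0 := mul_neg_of_pos_of_neg htpos hn
          have h2 : E.s * m < E.s * 0 := by linarith
          have := lt_of_mul_lt_mul_left h2 hs.le
          omega
        · subst hn
          have hm0 : m = 0 := by
            rw [mul_zero] at hm'
            rcases mul_eq_zero.1 hm' with h | h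
            · omega
            · exact h
          subst hm0
          rw [hR_neg']
          simpa using hstr
        · refine (hR_nonneg n hn.le).mono ?_
          have h1 : t * n < E.s * n := mul_lt_mul_of_pos_right htlt hn
          have h2 : E.s * m < E.s * n := by linarith
          have := lt_of_mul_lt_mul_left h2 hs.le
          omega
    refine ⟨fun n hn => ?_, fun n hn => ?_⟩
    · have := hstrict n
      simp only [hY, hn, if_true] at this
      exact this.mono (by omega)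
    · have := hstrict n
      have hn' : ¬ 0 ≤ n := by omega
      simp only [hY, hn', if_false] at this
      have := this.neg
      rw [neg_neg] at this
      exact this.mono (by omega)

end Eig

end MPd27f8c
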