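import Pool.Agent.Lib.MP_d27f8c_ag.CycC
import Pool.Agent.Lib.MP_d27f8c_ag.Eig

/-!
# Slopes: each slope is a slope of the Newton polygon of a relation; multiplicities
-/

set_option linter.unusedSectionVars false

namespace MPd27f8c

open Module

variable {K V ι κ : Type*} [Field K] [AddCommGroup V] [Module K V] [Fintype ι] [Fintype κ]
variable {v : AddValuation K (WithTop ℤ)} {π : K}

theorem exists_order (e : Basis κ K V) {y : V} (hy : y ≠ 0) :
    ∃ m : ℤ, Fil v e m y ∧ ¬ Fil v e (m + 1) y := by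
  obtain ⟨m₀, hm₀⟩ := Fil.exists (v := v) e y
  have hbdd : ∃ b : ℤ, ∀ z, Fil v e z y → z ≤ b := by
    by_contra hcon
    push Not at hcon
    apply hy
    apply Fil.eq_zero (v := v) (e := e)
    intro m
    obtain ⟨z, hz, hlt⟩ := hcon m
    exact hz.mono hlt.le
  obtain ⟨m, hm1, hm2⟩ := Int.exists_greatest_of_bdd hbdd ⟨m₀, hm₀⟩
  refine ⟨m, hm1, fun h => ?_⟩
  have := hm2 _ h
  omega

namespace Eig

variable {W : World K V ι v π} (E : Eig W κ)

theorem Fil_shift {ℓ : ℤ} {y : V} (hy : ∀ j, E.b.repr y j ≠ 0 → E.r j = ℓ) (m : ℤ) :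
    Fil v E.b (m + ℓ) (W.Fz E.s y) ↔ Fil v E.b m y := by
  have h1 : ∀ j, E.b.repr (W.Fz E.s y) j = (W.σ ^ E.s) (E.b.repr y j) * π ^ E.r j := by
    intro j
    have := E.repr_Fz 1 y j
    simpa using this
  constructor
  · intro h j
    have h2 := h j
    by_cases hj : E.b.repr y j = 0
    · simp [hj]
    · rw [h1, v.map_mul, W.v_σz, W.v_π_zpow, hy j hj] at h2
      obtain ⟨k, hk⟩ := exists_val (v := v) hj
      rw [hk] at h2 ⊢
      have h3 : m + ℓ ≤ k + ℓ := by exact_mod_cast h2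
      exact_mod_cast (by omega : m ≤ k)
  · intro h j
    have h2 := h j
    rw [h1, v.map_mul, W.v_σz, W.v_π_zpow]
    by_cases hj : E.b.repr y j = 0
    · simp [hj]
    · rw [hy j hj]
      push_cast
      exact add_le_add h2 le_rfl

/-- Every slope occurring in `x` is a slope of the Newton polygon of a relation for `x`. -/
theorem twice (x : V) (θ : ℤ →₀ K) (hrel : ∑ i ∈ θ.support, θ i • W.Fz i x = 0) (ℓ : ℤ)
    (hy : E.pr (fun a => a = ℓ) x ≠ 0) (i₀ a₀ : ℤ) (h0 : v (θ i₀) = a₀)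
    (hmin : ∀ i, i ≠ i₀ → ∀ a : ℤ, v (θ i) = a → E.s * a₀ + i₀ * ℓ < E.s * a + i * ℓ) :
    False := by
  classical
  set y := E.pr (fun a => a = ℓ) x with hyd
  have hyc : ∀ n : ℤ, ∀ j, E.b.repr (W.Fz n y) j ≠ 0 → E.r j = ℓ := by
    intro n j hj
    rw [hyd, E.Fz_pr, repr_pr] at hj
    by_contra hc
    simp [hc] at hj
  have hne : ∀ n : ℤ, W.Fz n y ≠ 0 := by
    intro n h
    apply hy
    have : W.Fz (-n) (W.Fz n y) = y := by rw [← W.Fz_add]; simp
    rw [← this, h, map_zero]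
  choose o ho1 ho2 using fun n => exists_order (v := v) E.b (hne n)
  have hper1 : ∀ n, o (n + E.s) = o n + ℓ := by
    intro n
    have h1 := fun m => E.Fil_shift (hyc n) m
    have h2 : W.Fz E.s (W.Fz n y) = W.Fz (n + E.s) y := by rw [← W.Fz_add, add_comm]
    rw [h2] at h1
    have h3 : Fil v E.b (o n + ℓ) (W.Fz (n + E.s) y) := (h1 _).2 (ho1 n)
    have h4 : ¬ Fil v E.b (o n + ℓ + 1) (W.Fz (n + E.s) y) := by
      intro h
      apply ho2 n
      rw [← h1]
      exact h.mono (by omega)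
    by_contra hc
    rcases lt_or_gt_of_ne hc with hlt | hgt
    · exact ho2 (n + E.s) (h3.mono (by omega))
    · exact h4 ((ho1 (n + E.s)).mono (by omega))
  -- the quantity q(n) = s o(n) - ℓ n is periodic
  have hper : ∀ (k : ℤ) (n : ℤ), E.s * o (n + E.s * k) - ℓ * (n + E.s * k)
      = E.s * o n - ℓ * n := by
    intro k
    induction k using Int.induction_on with
    | zero => intro n; simp
    | succ k ih =>
      intro n
      have h1 : n + E.s * (k + 1) = (n + E.s * k) + E.s := by ring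
      rw [h1, hper1, ← ih n]
      ring
    | pred k ih =>
      intro n
      have h1 : n + E.s * (-(k : ℤ)) = (n + E.s * (-(k : ℤ) - 1)) + E.s := by ring
      have h2 := ih n
      rw [h1, hper1] at h2
      rw [← h2]
      ring
  obtain ⟨n₁, hn₁⟩ : ∃ n₁, ∀ n, E.s * o n₁ - ℓ * n₁ ≤ E.s * o n - ℓ * n := by
    obtain ⟨n₁, hn₁, hmin'⟩ := Finset.exists_min_image (Finset.Ico 0 E.s)
      (fun n => E.s * o n - ℓ * n) ⟨0, by simp [E.hs]⟩
    refine ⟨n₁, fun n => ?_⟩
    have h1 := hmin' (n % E.s) (by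
      simp only [Finset.mem_Ico]
      exact ⟨Int.emod_nonneg _ E.hs.ne', Int.emod_lt_of_pos _ E.hs⟩)
    have h2 := hper (n / E.s) (n % E.s)
    rw [Int.emod_add_mul_ediv] at h2
    rw [h2]
    exact h1
  have hi₀ : i₀ ∈ θ.support := by
    rw [Finsupp.mem_support_iff]
    intro h
    rw [h, v.map_zero] at h0
    exact absurd h0 (by simp)
  set n := n₁ - i₀ with hn
  have hsum : ∑ i ∈ θ.support, (W.σ ^ n) (θ i) • W.Fz (n + i) y = 0 := by
    have h1 := congrArg (fun z => W.Fz n (E.pr (fun a => a = ℓ) z)) hrel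
    simp only [map_sum, map_zero, map_smul] at h1
    rw [← h1]
    refine Finset.sum_congr rfl fun i _ => ?_
    rw [W.semi_z, ← E.Fz_pr, ← W.Fz_add]
  rw [← Finset.add_sum_erase _ _ hi₀] at hsum
  have hrest : Fil v E.b (a₀ + o n₁ + 1)
      (∑ i ∈ θ.support.erase i₀, (W.σ ^ n) (θ i) • W.Fz (n + i) y) := by
    refine Fil.sum _ _ fun i hi => ?_
    obtain ⟨hne', hisupp⟩ := Finset.mem_erase.1 hi
    obtain ⟨a, ha⟩ := exists_val (v := v) (Finsupp.mem_support_iff.1 hisupp)
    have h1 := hmin i hne' a ha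
    have h2 := hn₁ (n + i)
    have h3 := Fil.smul (by rw [W.v_σz]; exact ha.ge :
      (a : WithTop ℤ) ≤ v ((W.σ ^ n) (θ i))) (ho1 (n + i))
    refine h3.mono ?_
    have h4 : E.s * (a₀ + o n₁) < E.s * (a + o (n + i)) := by
      have h5 : E.s * (a + o (n + i)) - E.s * (a₀ + o n₁)
          = (E.s * a + i * ℓ - (E.s * a₀ + i₀ * ℓ)) +
            ((E.s * o (n + i) - ℓ * (n + i)) - (E.s * o n₁ - ℓ * n₁)) := by
        rw [hn]; ring
      linarith
    have := lt_of_mul_lt_mul_left h4 E.hs.le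
    omega
  have hmain : Fil v E.b (a₀ + (o n₁ + 1)) ((W.σ ^ n) (θ i₀) • W.Fz (n + i₀) y) := by
    rw [eq_neg_of_add_eq_zero_left hsum, ← add_assoc]
    exact hrest.neg
  rw [Fil.smul_iff (by rw [W.v_σz, h0])] at hmain
  have : n + i₀ = n₁ := by omega
  rw [this] at hmain
  exact ho2 n₁ hmain

/-- a slope `ℓ / s` with denominator `b` gives `b` independent vectors -/
theorem indep {j : κ} {b : ℕ} (hb : ∀ i : ℤ, E.s ∣ i * E.r j → (b : ℤ) ∣ i) :
    LinearIndependent K (fun i : Fin b => W.Fz (i : ℕ) (E.b j)) := by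
  classical
  rw [Fintype.linearIndependent_iff]
  intro c hc
  by_contra hcon
  push Not at hcon
  obtain ⟨i₁, hi₁⟩ := hcon
  set f : ℤ → K := fun i => if hi : 0 ≤ i ∧ i < b then c ⟨i.toNat, by omega⟩ else 0 with hf
  have hfin : ∀ i, f i ≠ 0 → i ∈ Finset.Ico (0 : ℤ) b := by
    intro i hi
    rw [Finset.mem_Ico]
    by_contra hc'
    apply hi
    simp only [hf]
    rw [dif_neg hc']
  set θ : ℤ →₀ K := Finsupp.onFinset (Finset.Ico (0 : ℤ) b) f hfin with hθ
  have hθc : ∀ i : Fin b, θ ((i : ℕ) : ℤ) = c i := by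
    intro i
    simp only [hθ, Finsupp.onFinset_apply, hf]
    rw [dif_pos ⟨by omega, by have := i.2; omega⟩]
    congr 1
  have hrel : ∑ i ∈ θ.support, θ i • W.Fz i (E.b j) = 0 := by
    have h1 : ∑ i ∈ θ.support, θ i • W.Fz i (E.b j)
        = ∑ i ∈ Finset.Ico (0 : ℤ) b, θ i • W.Fz i (E.b j) := by
      apply Finset.sum_subset
      · exact Finsupp.support_onFinset_subset
      · intro i _ hi
        rw [Finsupp.notMem_support_iff] at hi
        rw [hi, zero_smul]
    have h2 : Finset.Ico (0 : ℤ) b = Finset.univ.image (fun i : Fin b => ((i : ℕ) : ℤ)) := by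
      ext i
      simp only [Finset.mem_Ico, Finset.mem_image, Finset.mem_univ, true_and]
      constructor
      · intro h
        exact ⟨⟨i.toNat, by omega⟩, by simp; omega⟩
      · rintro ⟨i', hi'⟩
        have := i'.2
        omega
    rw [h1, h2, Finset.sum_image]
    · rw [← hc]
      refine Finset.sum_congr rfl fun i _ => ?_
      rw [hθc]
    · intro i _ i' _ h
      apply Fin.ext
      simpa using h
  have hne : θ.support.Nonempty := by
    refine ⟨((i₁ : ℕ) : ℤ), ?_⟩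
    rw [Finsupp.mem_support_iff, hθc]
    exact hi₁
  set val : ℤ → ℤ := fun i => E.s * (v (θ i)).untopD 0 + i * E.r j with hval
  have hval' : ∀ i, ∀ a : ℤ, v (θ i) = a → val i = E.s * a + i * E.r j := by
    intro i a h
    simp only [hval, h, WithTop.untopD_coe]
  obtain ⟨i₀, hi₀, hmin⟩ := Finset.exists_min_image θ.support val hne
  obtain ⟨a₀, ha₀⟩ := exists_val (v := v) (Finsupp.mem_support_iff.1 hi₀)
  refine E.twice (E.b j) θ hrel (E.r j) ?_ i₀ a₀ ha₀ ?_
  · rw [E.pr_b, if_pos rfl]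
    exact E.b.ne_zero j
  · intro i hne' a ha
    have hisupp : i ∈ θ.support := by
      rw [Finsupp.mem_support_iff]
      intro h
      rw [h, v.map_zero] at ha
      exact absurd ha (by simp)
    rw [← hval' i a ha, ← hval' i₀ a₀ ha₀]
    refine lt_of_le_of_ne (hmin i hisupp) ?_
    intro heq
    rw [hval' i a ha, hval' i₀ a₀ ha₀] at heq
    have h1 : E.s ∣ (i - i₀) * E.r j := ⟨a₀ - a, by linear_combination -heq⟩
    have h2 := hb _ h1
    have h3 := Finset.mem_Ico.1 (Finsupp.support_onFinset_subset hisupp)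
    have h4 := Finset.mem_Ico.1 (Finsupp.support_onFinset_subset hi₀)
    apply hne'
    have h5 : |i - i₀| < b := by rw [abs_lt]; omega
    have := Int.eq_zero_of_abs_lt_dvd h2 h5
    omega

/-- two different slopes -/
theorem indep2 {j j' : κ} (hjj : E.r j ≠ E.r j') {b : ℕ}
    (hb : ∀ i : ℤ, E.s ∣ i * E.r j → (b : ℤ) ∣ i)
    (hb' : ∀ i : ℤ, E.s ∣ i * E.r j' → (b : ℤ) ∣ i) : 2 * b ≤ finrank K V := by
  classical
  have h1 := E.indep hb
  have h2 := E.indep hb'
  have h3 : LinearIndependent K (fun i : Fin b ⊕ Fin b =>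
      Sum.elim (fun i : Fin b => W.Fz (i : ℕ) (E.b j))
        (fun i : Fin b => W.Fz (i : ℕ) (E.b j')) i) := by
    rw [Fintype.linearIndependent_iff] at h1 h2 ⊢
    intro c hc
    rw [Fintype.sum_sum_type] at hc
    simp only [Sum.elim_inl, Sum.elim_inr] at hc
    have h4 : ∑ i : Fin b, c (Sum.inl i) • W.Fz ((i : ℕ) : ℤ) (E.b j) = 0 := by
      have h5 := congrArg (E.pr (fun a => a = E.r j)) hc
      simp only [map_add, map_sum, map_smul, map_zero, ← E.Fz_pr, E.pr_b] at h5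
      simpa [Ne.symm hjj] using h5
    rw [h4, zero_add] at hc
    have h6 := h1 _ h4
    have h7 := h2 _ hc
    rintro (i | i)
    · exact h6 i
    · exact h7 i
  have : Module.Finite K V := Module.Finite.of_basis E.b
  have h8 := h3.fintype_card_le_finrank
  simp at h8
  omega

theorem slope_gap {g : ℕ} (hdim : finrank K V = 2 * g) {j j' : κ}
    (hsym : E.r j + E.r j' = E.s) (hne : 2 * E.r j ≠ E.s) :
    E.s ≤ |2 * E.r j - E.s| * g := by
  classical
  have hs := E.hs
  set d := Int.gcd E.s (E.r j) with hd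
  have hd0 : 0 < d := Int.gcd_pos_of_ne_zero_left _ hs.ne'
  obtain ⟨b, hb⟩ : ∃ b : ℤ, E.s = d * b := Int.gcd_dvd_left _ _
  have hb0 : 0 < b := by
    by_contra hc
    have : (d : ℤ) * b ≤ 0 := mul_nonpos_of_nonneg_of_nonpos (by omega) (by omega)
    omega
  obtain ⟨c, hc⟩ : ∃ c : ℤ, E.r j = d * c := Int.gcd_dvd_right _ _
  have hcop : IsCoprime b c := by
    have h1 := Int.gcd_eq_gcd_ab E.s (E.r j)
    rw [← hd] at h1
    refine ⟨Int.gcdA E.s (E.r j), Int.gcdB E.s (E.r j), ?_⟩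
    have h2 : (d : ℤ) * (Int.gcdA E.s (E.r j) * b + Int.gcdB E.s (E.r j) * c) = d * 1 := by
      rw [mul_one]
      conv_rhs => rw [h1]
      conv_rhs => rw [hb, hc]
      rw [← hb, ← hc]
      have h3 : (d : ℤ) * (Int.gcdA E.s (E.r j) * b + Int.gcdB E.s (E.r j) * c)
        = (d * b) * Int.gcdA E.s (E.r j) + (d * c) * Int.gcdB E.s (E.r j) := by ring
      rw [h3, ← hb, ← hc]
    exact mul_left_cancel₀ (by exact_mod_cast hd0.ne') h2
  have hbdvd : ∀ i : ℤ, E.s ∣ i * E.r j → (b.toNat : ℤ) ∣ i := by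
    intro i hi
    rw [Int.toNat_of_nonneg hb0.le]
    rw [hb, hc, ← mul_assoc, mul_comm i, mul_assoc] at hi
    have h1 : b ∣ i * c := (mul_dvd_mul_iff_left (by exact_mod_cast hd0.ne')).1 hi
    exact hcop.dvd_of_dvd_mul_right h1
  have hbdvd' : ∀ i : ℤ, E.s ∣ i * E.r j' → (b.toNat : ℤ) ∣ i := by
    intro i hi
    apply hbdvd
    have h1 : i * E.r j = i * E.s - i * E.r j' := by rw [← hsym]; ring
    rw [h1]
    exact dvd_sub (dvd_mul_left _ _) hi
  have h1 := E.indep2 (j := j) (j' := j') (by intro h; apply hne; omega) hbdvd hbdvd'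
  rw [hdim] at h1
  have h2 : b ≤ g := by omega
  have h3 : (d : ℤ) ≤ |2 * E.r j - E.s| := by
    apply Int.le_of_dvd
    · rw [abs_pos]; omega
    · rw [dvd_abs]
      refine ⟨2 * c - b, ?_⟩
      rw [mul_sub, ← hb]
      conv_lhs => rw [hc]
      ring
  calc E.s = d * b := hb
    _ ≤ |2 * E.r j - E.s| * g := mul_le_mul h3 h2 hb0.le (abs_nonneg _)

/-- the pairing forces slopes to be symmetric -/
theorem sym (ψ : LinearMap.BilinForm K V) (hψ : ψ.Nondegenerate)
    (hψF : ∀ y z, ψ (W.F y) (W.F z) = π * W.σ (ψ y z)) (j : κ) :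
    ∃ j', E.r j + E.r j' = E.s := by
  classical
  have hpow : ∀ n : ℕ, ∀ y z, ψ (W.Fz n y) (W.Fz n z) = π ^ (n : ℤ) * (W.σ ^ (n : ℤ)) (ψ y z) := by
    intro n
    induction n with
    | zero => intro y z; simp
    | succ n ih =>
      intro y z
      push_cast
      rw [add_comm, W.Fz_add, W.Fz_add, W.Fz_one, W.Fz_one, hψF, ih, map_mul]
      have h1 : W.σ (π ^ (n : ℤ)) = π ^ (n : ℤ) := by
        have := W.σ_zpow_π 1 n
        simpa using this
      rw [h1, zpow_add₀ W.π_ne, zpow_one, mul_assoc, zpow_add, zpow_one, RingAut.mul_apply]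
  have hex : ∃ j', ψ (E.b j) (E.b j') ≠ 0 := by
    by_contra hcon
    push Not at hcon
    have h1 : ψ (E.b j) = 0 := by
      apply E.b.ext
      intro j'
      rw [hcon j']
      rfl
    exact E.b.ne_zero j (hψ.1 (E.b j) (fun y => by rw [h1]; rfl))
  obtain ⟨j', hj'⟩ := hex
  refine ⟨j', ?_⟩
  have h1 := hpow E.s.toNat (E.b j) (E.b j')
  rw [Int.toNat_of_nonneg E.hs.le, E.heig, E.heig] at h1
  simp only [map_smul, LinearMap.smul_apply, smul_eq_mul] at h1
  have h2 := congrArg v h1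
  rw [v.map_mul, v.map_mul, v.map_mul, W.v_σz, W.v_π_zpow, W.v_π_zpow, W.v_π_zpow] at h2
  obtain ⟨m, hm⟩ := exists_val (v := v) hj'
  rw [hm] at h2
  have h3 : E.r j' + (E.r j + m) = E.s + m := by exact_mod_cast h2
  omega

/-- at slope `1/2` the Newton polygon of a cyclic relation is low if there is another slope -/
theorem low_mid {g : ℕ} {x : V} {θ : ℤ →₀ K} (hθ : Rel W x g θ) {j : κ}
    (hj : 2 * E.r j < E.s) (hx : E.pr (fun a => a = E.r j) x ≠ 0) :
    ∃ i, ∃ a : ℤ, v (θ i) = a ∧ 2 * a + i ≤ (g : ℤ) - 1 := by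
  classical
  by_contra hcon
  push Not at hcon
  refine E.twice x θ hθ.rel (E.r j) hx g 0 (by rw [hθ.top, v.map_neg, v.map_one]; rfl) ?_
  intro i hne a ha
  have h1 := hcon i a ha
  have hne0 : θ i ≠ 0 := by
    intro h
    rw [h, v.map_zero] at ha
    exact absurd ha (by simp)
  have h2 : i ≤ g := by
    by_contra hc
    exact hne0 (hθ.out i (Or.inr (by omega)))
  have h3 : i < g := lt_of_le_of_ne h2 hne
  have h4 : 2 * a ≥ g - i := by omega
  have h5 : 0 < ((g : ℤ) - i) * (E.s - 2 * E.r j) := mul_pos (by omega) (by omega)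
  have h6 : E.s * ((g : ℤ) - i) ≤ E.s * (2 * a) := mul_le_mul_of_nonneg_left h4 E.hs.le
  nlinarith

end Eig

end MPd27f8c
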