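import Pool.Agent.Lib.MP_d27f8c_ag.Eig

/-!
# Weak and strict growth, good pairs
-/

set_option linter.unusedSectionVars false

namespace MPd27f8c

open Module

variable {K V ι κ : Type*} [Field K] [AddCommGroup V] [Module K V] [Fintype ι] [Fintype κ]
variable {v : AddValuation K (WithTop ℤ)} {π : K}

namespace Eig

variable {W : World K V ι v π} (E : Eig W κ)

/-- the same eigenbasis in the flipped world -/
noncomputable def flip : Eig W.flip κ where
  s := E.s
  hs := E.hs
  b := E.b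
  r := fun i => E.s - E.r i
  heig := fun i => by
    rw [W.flip_Fz]
    have h1 := Fz_eig (E.heig i) (-1)
    rw [mul_neg_one, mul_neg_one] at h1
    rw [h1, smul_smul, ← zpow_add₀ W.π_ne, sub_eq_add_neg]

@[simp] theorem flip_s : E.flip.s = E.s := rfl
@[simp] theorem flip_b : E.flip.b = E.b := rfl
@[simp] theorem flip_r (i : κ) : E.flip.r i = E.s - E.r i := rfl

theorem flip_pr (P : ℤ → Prop) (x : V) : E.flip.pr P x = E.pr (fun a => P (E.s - a)) x := by
  classical
  apply E.b.repr.injective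
  ext j
  have h1 := E.flip.repr_pr P x j
  rw [flip_b, flip_r] at h1
  rw [h1, E.repr_pr]

theorem pr_congr {P Q : ℤ → Prop} (h : ∀ j, P (E.r j) ↔ Q (E.r j)) (x : V) :
    E.pr P x = E.pr Q x := by
  classical
  apply E.b.repr.injective
  ext j
  rw [E.repr_pr, E.repr_pr]
  simp [h j]

/-- growth in the positive direction -/
def Pp (B : ℤ) (y : V) : Prop :=
  ∀ j, ∀ n, 0 ≤ n → Gr v W.e E.s (E.r j) B n (W.Fz n (E.ge (E.r j) y))

/-- growth in the negative direction -/
def Pm (B : ℤ) (y : V) : Prop :=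
  ∀ j, ∀ n, n < 0 → Gr v W.e E.s (E.r j) B n (W.Fz n (E.lt (E.r j) y))

variable {E}

theorem Pp.mono {B B' : ℤ} (hB : B ≤ B') {y : V} (h : E.Pp B y) : E.Pp B' y :=
  fun j n hn => (h j n hn).mono hB

theorem Pp.zero (B : ℤ) : E.Pp B 0 := fun j n _ => by
  rw [map_zero, map_zero]; exact Gr.zero

theorem Pp.add {B : ℤ} {x y : V} (hx : E.Pp B x) (hy : E.Pp B y) : E.Pp B (x + y) :=
  fun j n hn => by
    rw [map_add, map_add]
    exact (hx j n hn).add (hy j n hn)

theorem Pp.sub {B : ℤ} {x y : V} (hx : E.Pp B x) (hy : E.Pp B y) : E.Pp B (x - y) :=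
  fun j n hn => by
    rw [map_sub, map_sub]
    exact (hx j n hn).sub (hy j n hn)

theorem Pp.smul {B : ℤ} {c : K} (hc : 0 ≤ v c) {x : V} (hx : E.Pp B x) : E.Pp B (c • x) :=
  fun j n hn m hm => by
    rw [map_smul, W.semi_z]
    exact Fil.smul_int (by rwa [W.v_σz]) (hx j n hn m hm)

theorem Pp.sum {α : Type*} {B : ℤ} (s : Finset α) (f : α → V) (h : ∀ a ∈ s, E.Pp B (f a)) :
    E.Pp B (∑ a ∈ s, f a) := by
  classical
  induction s using Finset.induction_on with
  | empty => simpa using Pp.zero B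
  | insert a s ha ih =>
    rw [Finset.sum_insert ha]
    exact (h a (Finset.mem_insert_self _ _)).add
      (ih fun b hb => h b (Finset.mem_insert_of_mem hb))

variable (E)

theorem shiftF {B : ℤ} {w : V} (hw : E.Pp B w) (hr : ∀ j, 1 ≤ E.r j) {c : ℤ} (hc : 1 ≤ c) :
    E.Pp (B - 1) (W.Fz c w) := by
  intro j n hn m hm
  have h1 : E.ge (E.r j) (W.Fz c w) = W.Fz c (E.ge (E.r j) w) := (E.Fz_pr _ c w).symm
  rw [h1, ← W.Fz_add]
  apply hw j (n + c) (by omega)
  have h2 : 1 ≤ E.r j * c := by nlinarith [hr j]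
  have h3 : E.r j * (n + c) = E.r j * n + E.r j * c := by ring
  rw [h3]
  omega

theorem shiftV {B : ℤ} (hB : 1 ≤ B) {w : V} (hw0 : Fil v W.e 0 w) (hw : E.Pp B w)
    (hw' : E.Pm B w) (hr0 : ∀ j, 0 ≤ E.r j) (hr : ∀ j, E.r j < E.s) {c : ℤ} (hc : 1 ≤ c) :
    E.Pp (B - 1) (W.flip.Fz c w) := by
  intro j n hn m hm
  have h1 : W.Fz n (E.ge (E.r j) (W.flip.Fz c w)) = π ^ c • W.Fz (n - c) (E.ge (E.r j) w) := by
    rw [W.flip_Fz, map_smul, W.F_pi, show E.ge (E.r j) (W.Fz (-c) w) = W.Fz (-c) (E.ge (E.r j) w)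
      from (E.Fz_pr _ _ w).symm, ← W.Fz_add, ← sub_eq_add_neg]
  rw [h1]
  have hs := E.hs
  have h2 : 1 ≤ (E.s - E.r j) * c := by nlinarith [hr j]
  have h3 : E.s * (m - c) < E.r j * (n - c) - B + E.s := by nlinarith
  have hcm : c + (m - c) = m := by ring
  by_cases hnc : 0 ≤ n - c
  · have h4 := hw j (n - c) hnc (m - c) h3
    have h5 := Fil.smul (W.v_π_zpow c).ge h4
    rwa [hcm] at h5
  · have h4 := hw' j (n - c) (by omega) (m - c) h3
    have h5 : E.ge (E.r j) w = w - E.lt (E.r j) w := by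
      conv_rhs => rw [← E.ge_add_lt (E.r j) w]
      rw [E.ge_add_lt]
      have := E.ge_add_lt (E.r j) w
      exact eq_sub_of_add_eq this
    rw [h5, map_sub, smul_sub]
    refine Fil.sub ?_ ?_
    · have h6 := W.Fz_fil_of_nonpos (n := n - c) (by omega) hw0
      have h7 := Fil.smul (W.v_π_zpow c).ge h6
      refine h7.mono ?_
      have h8 : E.r j * n ≤ E.s * n := mul_le_mul_of_nonneg_right (hr j).le hn
      have h9 : E.s * m < E.s * (n + 1) := by linarith
      have := lt_of_mul_lt_mul_left h9 hs.le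
      omega
    · have h6 := Fil.smul (W.v_π_zpow c).ge h4
      rwa [hcm] at h6

/-- arbitrary thresholds -/
theorem Pp_threshold {B : ℤ} {y : V} (h : E.Pp B y) (t : ℤ) (n : ℤ) (hn : 0 ≤ n) :
    Gr v W.e E.s t B n (W.Fz n (E.ge t y)) := by
  classical
  by_cases hex : ∃ j, t ≤ E.r j
  · obtain ⟨j₀, hj₀, hmin⟩ := Finset.exists_min_image
      (Finset.univ.filter fun j => t ≤ E.r j) (fun j => E.r j) (by
        obtain ⟨j, hj⟩ := hex
        exact ⟨j, by simp [hj]⟩)
    have hj₀' : t ≤ E.r j₀ := by simpa using hj₀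
    have h1 : E.ge t y = E.ge (E.r j₀) y := by
      apply E.pr_congr
      intro j
      constructor
      · intro hj
        exact hmin j (by simpa using hj)
      · intro hj
        exact hj₀'.trans hj
    rw [h1]
    intro m hm
    apply h j₀ n hn
    have := mul_le_mul_of_nonneg_right hj₀' hn
    omega
  · have h1 : E.ge t y = 0 := by
      apply E.pr_of_coord_not
      intro j _ hj
      exact hex ⟨j, hj⟩
    rw [h1, map_zero]
    exact Gr.zero

end Eig

/-- A pair whose product stays bounded under powers of `F`. -/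
def GoodPair (W : World K V ι v π) (N : ℤ) (u u' : V) : Prop :=
  ∀ n, 0 ≤ n → ∃ m₁ m₂, Fil v W.e m₁ (W.Fz n u) ∧ Fil v W.e m₂ (W.Fz n u') ∧ n - N + 1 ≤ m₁ + m₂

theorem GoodPair.symm {W : World K V ι v π} {N : ℤ} {u u' : V} (h : GoodPair W N u u') :
    GoodPair W N u' u := by
  intro n hn
  obtain ⟨m₁, m₂, h1, h2, h3⟩ := h n hn
  exact ⟨m₂, m₁, h2, h1, by omega⟩

namespace Eig

variable {W : World K V ι v π} (E : Eig W κ)

theorem goodPair {B N : ℤ} (hB : 2 * B ≤ E.s * N) {x y : V} (hx : E.Pp B x)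
    (hy : E.Pp (B - 1) y) {a b : ℤ} (hab : E.s ≤ a + b) :
    GoodPair W N (E.ge a x) (E.ge b y) := by
  intro n hn
  have hs := E.hs
  refine ⟨-((B - a * n) / E.s), -((B - 1 - b * n) / E.s), ?_, ?_, ?_⟩
  · apply E.Pp_threshold hx a n hn
    have h1 := Int.mul_ediv_add_emod (B - a * n) E.s
    have h2 := Int.emod_lt_of_pos (B - a * n) hs
    rw [mul_neg]
    linarith
  · apply E.Pp_threshold hy b n hn
    have h1 := Int.mul_ediv_add_emod (B - 1 - b * n) E.s
    have h2 := Int.emod_lt_of_pos (B - 1 - b * n) hs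
    rw [mul_neg]
    linarith
  · have h1 := Int.mul_ediv_add_emod (B - a * n) E.s
    have h2 := Int.emod_nonneg (B - a * n) hs.ne'
    have h3 := Int.mul_ediv_add_emod (B - 1 - b * n) E.s
    have h4 := Int.emod_nonneg (B - 1 - b * n) hs.ne'
    have h5 : E.s * n ≤ (a + b) * n := mul_le_mul_of_nonneg_right hab hn
    have h6 : E.s * (n - N) < E.s * (-((B - a * n) / E.s) + -((B - 1 - b * n) / E.s)) := by
      have h7 : E.s * (-((B - a * n) / E.s) + -((B - 1 - b * n) / E.s))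
        = -(E.s * ((B - a * n) / E.s)) - (E.s * ((B - 1 - b * n) / E.s)) := by ring
      rw [h7]
      have h8 : E.s * (n - N) = E.s * n - E.s * N := by ring
      rw [h8]
      have h9 : (a + b) * n = a * n + b * n := by ring
      linarith
    have := lt_of_mul_lt_mul_left h6 hs.le
    omega

end Eig

section pairing

variable {L : Type*} [AddCommGroup L] [Module K L] (β : V →ₗ[K] V →ₗ[K] L)

/-- the subgroup generated by the good pairs -/
def Gd (W : World K V ι v π) (N : ℤ) : AddSubgroup L :=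
  AddSubgroup.closure {z | ∃ u u', GoodPair W N u u' ∧ z = β u u'}

theorem mem_Gd_of_good {W : World K V ι v π} {N : ℤ} {u u' : V} (h : GoodPair W N u u') :
    β u u' ∈ Gd β W N := AddSubgroup.subset_closure ⟨u, u', h, rfl⟩

/-- decomposition of a product into two good parts -/
theorem decomp {W : World K V ι v π} (E : Eig W κ) (hr0 : ∀ j, 0 ≤ E.r j)
    (hr : ∀ j, E.r j ≤ E.s) {B N : ℤ} {x y : V}
    (h1 : ∀ a b, E.s ≤ a + b → GoodPair W N (E.ge a x) (E.ge b y))
    (h2 : ∀ a b, E.s ≤ a + b → GoodPair W.flip N (E.flip.ge a x) (E.flip.ge b y)) :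
    β x y ∈ Gd β W N ⊔ Gd β W.flip N := by
  classical
  have hs := E.hs
  set S := E.s.toNat with hS
  have hScast : (S : ℤ) = E.s := Int.toNat_of_nonneg hs.le
  have htel : x = ∑ ℓ ∈ Finset.range (S + 1), (E.ge ℓ x - E.ge (ℓ + 1) x) := by
    have h3 := Finset.sum_range_sub' (fun ℓ : ℕ => E.ge (ℓ : ℤ) x) (S + 1)
    have h4 : ∑ ℓ ∈ Finset.range (S + 1), (E.ge (ℓ : ℤ) x - E.ge ((ℓ : ℤ) + 1) x)
        = ∑ ℓ ∈ Finset.range (S + 1), (E.ge (ℓ : ℤ) x - E.ge ((ℓ + 1 : ℕ) : ℤ) x) := by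
      refine Finset.sum_congr rfl fun ℓ _ => ?_
      push_cast
      rfl
    rw [h4, h3]
    have h5 : E.ge ((0 : ℕ) : ℤ) x = x := by
      apply E.pr_of_coord
      intro j _
      simpa using hr0 j
    have h6 : E.ge ((S + 1 : ℕ) : ℤ) x = 0 := by
      apply E.pr_of_coord_not
      intro j _ hj
      have := hr j
      push_cast at hj
      omega
    rw [h5, h6, sub_zero]
  have hterm : ∀ ℓ : ℕ, ℓ ∈ Finset.range (S + 1) →
      β (E.ge ℓ x - E.ge (ℓ + 1) x) y ∈ Gd β W N ⊔ Gd β W.flip N := by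
    intro ℓ _
    have hy : y = E.ge (E.s - ℓ) y + E.flip.ge (ℓ + 1) y := by
      have h3 : E.flip.ge (ℓ + 1) y = E.lt (E.s - ℓ) y := by
        unfold Eig.ge Eig.lt
        rw [E.flip_pr]
        apply E.pr_congr
        intro j
        constructor <;> intro h <;> omega
      rw [h3, E.ge_add_lt]
    have hx : E.ge ℓ x - E.ge (ℓ + 1) x = E.flip.ge (E.s - ℓ) x - E.flip.ge (E.s - ℓ + 1) x := by
      have h3 : E.flip.ge (E.s - ℓ) x = E.lt (ℓ + 1) x := by
        unfold Eig.ge Eig.lt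
        rw [E.flip_pr]
        apply E.pr_congr
        intro j
        constructor <;> intro h <;> omega
      have h4 : E.flip.ge (E.s - ℓ + 1) x = E.lt ℓ x := by
        unfold Eig.ge Eig.lt
        rw [E.flip_pr]
        apply E.pr_congr
        intro j
        constructor <;> intro h <;> omega
      rw [h3, h4]
      have h5 := E.ge_add_lt ℓ x
      have h6 := E.ge_add_lt (ℓ + 1) x
      rw [sub_eq_sub_iff_add_eq_add, h5, add_comm, h6]
    rw [show β (E.ge ℓ x - E.ge (ℓ + 1) x) y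
      = β (E.ge ℓ x - E.ge (ℓ + 1) x) (E.ge (E.s - ℓ) y)
        + β (E.ge ℓ x - E.ge (ℓ + 1) x) (E.flip.ge (ℓ + 1) y) by
      conv_lhs => rw [hy]
      rw [map_add]]
    refine AddSubgroup.add_mem_sup ?_ ?_
    · rw [map_sub, LinearMap.sub_apply]
      exact AddSubgroup.sub_mem _ (mem_Gd_of_good β (h1 _ _ (by omega)))
        (mem_Gd_of_good β (h1 _ _ (by omega)))
    · rw [hx, map_sub, LinearMap.sub_apply]
      exact AddSubgroup.sub_mem _ (mem_Gd_of_good β (h2 _ _ (by omega)))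
        (mem_Gd_of_good β (h2 _ _ (by omega)))
  rw [show β x y = ∑ ℓ ∈ Finset.range (S + 1), β (E.ge ℓ x - E.ge (ℓ + 1) x) y by
    conv_lhs => rw [htel]
    rw [map_sum, LinearMap.sum_apply]]
  exact AddSubgroup.sum_mem _ hterm

end pairing

end MPd27f8c
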