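import Pool.Agent.Lib.MP_d27f8c_ag.CycB
import Pool.Agent.Lib.MP_d27f8c_ag.CycD
import Pool.Agent.Lib.MP_d27f8c_ag.Slope
import Pool.Agent.Lib.MP_d27f8c_ag.Full
import Pool.Agent.Lib.MP_d27f8c_ag.WS

/-!
# The core theorem for local-local lattices
-/

set_option linter.unusedSectionVars false

namespace MPd27f8c

open Module

variable {K V ι κ : Type*} [Field K] [AddCommGroup V] [Module K V] [Fintype ι] [Fintype κ]
variable {v : AddValuation K (WithTop ℤ)} {π : K}

theorem topNil_of_slopes {W : World K V ι v π} (E : Eig W κ) (hr : ∀ j, 1 ≤ E.r j) :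
    W.TopNil := by
  intro y m
  obtain ⟨C, hC⟩ := E.growth_pos (t := 1) (y := y) (fun j _ => hr j)
  refine ⟨max 0 (E.s * m + C), fun n hn => ?_⟩
  have h0 : 0 ≤ n := (le_max_left _ _).trans hn
  have h1 : E.s * m + C ≤ n := (le_max_right _ _).trans hn
  apply hC n h0
  have := E.hs
  omega

/-- numerical condition on the exponent -/
def NCond {W : World K V ι v π} (E : Eig W κ) (g : ℕ) (N : ℤ) : Prop :=
  N = g ∨ (N = g - 1 ∧ ∃ j, 2 * E.r j ≠ E.s)

theorem NCond.flip {W : World K V ι v π} {E : Eig W κ} {g : ℕ} {N : ℤ} (h : NCond E g N) :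
    NCond E.flip g N := by
  rcases h with h | ⟨h, j, hj⟩
  · exact Or.inl h
  · refine Or.inr ⟨h, j, ?_⟩
    simp only [Eig.flip_r, Eig.flip_s]
    omega

theorem growthX {W : World K V ι v π} (E : Eig W κ) (hr1 : ∀ j, 1 ≤ E.r j)
    (hr2 : ∀ j, E.r j < E.s) {s' : ℤ} (hs' : E.s = 2 * s') (hsym : ∀ j, ∃ j', E.r j + E.r j' = E.s)
    {g h : ℕ} (hh : h = 2 * g) (h0 : 0 < h) (hdim : finrank K V = 2 * g) {N : ℤ}
    (hN : NCond E g N) (hF : W.TopNil) (hV : W.flip.TopNil) (x : V) (hx : Fil v W.e 0 x)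
    (hpr : ∀ j, E.pr (fun a => a = E.r j) x ≠ 0) (B : Basis (Fin h) K V)
    (hB : ∀ j, B j = W.Fz (j : ℕ) x)
    (hdet : v (B.repr (W.Fz (h : ℤ) x) ⟨0, h0⟩) = ((g : ℤ) : WithTop ℤ)) :
    E.Pp (s' * N) x ∧ E.Pm (s' * N) x ∧
      (Fil v W.e 1 (W.Fz g x) → E.Pp (s' * N - 1) x) := by
  classical
  obtain ⟨θ, hθ⟩ := exists_rel W hF hV hh h0 x B hB hdet
  have hs := E.hs
  have hs'0 : 0 < s' := by omega
  have hθint : ∀ i, ((max (-i) 0 : ℤ) : WithTop ℤ) ≤ v (θ i) := by
    intro i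
    rcases lt_trichotomy i (-(g : ℤ)) with h1 | h1 | h1
    · rw [hθ.out i (Or.inl h1)]; simp
    · subst h1
      rw [hθ.bot]
      exact_mod_cast (by omega : max (-(-(g : ℤ))) 0 ≤ g)
    · rcases lt_trichotomy i g with h2 | h2 | h2
      · exact le_mono (by omega) (hθ.mid i h1 h2)
      · subst h2
        rw [hθ.top, v.map_neg, v.map_one]
        exact_mod_cast (by omega : max (-(g : ℤ)) 0 ≤ 0)
      · rw [hθ.out i (Or.inr h2)]; simp
  have hbound : ∀ j, ∃ i, ∃ a : ℤ, v (θ i) = a ∧ E.s * a + i * E.r j ≤ s' * N := by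
    intro j
    have hgtop : v (θ g) = ((0 : ℤ) : WithTop ℤ) := by rw [hθ.top, v.map_neg, v.map_one]; rfl
    rcases hN with hN | ⟨hN, j₁, hj₁⟩
    · rcases le_total (2 * E.r j) E.s with h1 | h1
      · refine ⟨g, 0, hgtop, ?_⟩
        have : E.r j ≤ s' := by omega
        rw [hN]
        nlinarith
      · refine ⟨-g, g, hθ.bot, ?_⟩
        have : s' ≤ E.r j := by omega
        rw [hN]
        nlinarith
    · by_cases h1 : 2 * E.r j = E.s
      · -- slope 1/2
        obtain ⟨j₂, hj₂⟩ : ∃ j₂, 2 * E.r j₂ < E.s := by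
          rcases lt_or_gt_of_ne hj₁ with h2 | h2
          · exact ⟨j₁, h2⟩
          · obtain ⟨j', hj'⟩ := hsym j₁
            exact ⟨j', by omega⟩
        obtain ⟨i, a, ha, hia⟩ := E.low_mid hθ hj₂ (hpr j₂)
        refine ⟨i, a, ha, ?_⟩
        have h3 : E.r j = s' := by omega
        rw [h3, hs', hN]
        nlinarith
      · obtain ⟨j', hj'⟩ := hsym j
        have h2 := E.slope_gap hdim hj' h1
        rcases lt_or_gt_of_ne h1 with h3 | h3
        · refine ⟨g, 0, hgtop, ?_⟩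
          rw [abs_of_neg (by omega)] at h2
          rw [hN]
          nlinarith
        · refine ⟨-g, g, hθ.bot, ?_⟩
          rw [abs_of_pos (by omega)] at h2
          rw [hN]
          nlinarith
  have hkey := fun j => E.key (E.r j) (by have := hr1 j; omega) (hr2 j).le hx θ hθint hθ.rel
    (s' * N) (hbound j)
  refine ⟨fun j n hn => (hkey j).1 n hn, fun j n hn => (hkey j).2.1 n hn, fun hg1 j n hn => ?_⟩
  refine ((hkey j).2.2 (by have := hr1 j; omega) (hr2 j) ?_).1 n hn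
  refine Fil.sum _ _ fun i _ => ?_
  split_ifs with hi
  · rcases lt_trichotomy i g with h2 | h2 | h2
    · have h3 := hθ.mid i (by omega) h2
      have h4 := Fil.smul (le_mono (by omega : (1 : ℤ) ≤ max 1 (1 - i)) h3)
        (W.Fz_fil_of_nonneg hi hx)
      simpa using h4
    · subst h2
      rw [hθ.top, neg_one_smul]
      exact hg1.neg
    · rw [hθ.out i (Or.inr h2), zero_smul]
      exact Fil.zero _
  · exact Fil.zero _

/-- both directions -/
structure Strict2 {W : World K V ι v π} (E : Eig W κ) (B : ℤ) (x : V) : Prop where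
  p : E.Pp (B - 1) x
  q : E.flip.Pp (B - 1) x

structure Weak2 {W : World K V ι v π} (E : Eig W κ) (B : ℤ) (x : V) : Prop where
  p : E.Pp B x
  q : E.flip.Pp B x

theorem Strict2.weak {W : World K V ι v π} {E : Eig W κ} {B : ℤ} {x : V} (h : Strict2 E B x) :
    Weak2 E B x := ⟨h.p.mono (by omega), h.q.mono (by omega)⟩

theorem Strict2.add {W : World K V ι v π} {E : Eig W κ} {B : ℤ} {x y : V}
    (hx : Strict2 E B x) (hy : Strict2 E B y) : Strict2 E B (x + y) :=
  ⟨hx.p.add hy.p, hx.q.add hy.q⟩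

theorem Strict2.sub {W : World K V ι v π} {E : Eig W κ} {B : ℤ} {x y : V}
    (hx : Strict2 E B x) (hy : Strict2 E B y) : Strict2 E B (x - y) :=
  ⟨hx.p.sub hy.p, hx.q.sub hy.q⟩

theorem Strict2.smul {W : World K V ι v π} {E : Eig W κ} {B : ℤ} {c : K} (hc : 0 ≤ v c) {x : V}
    (hx : Strict2 E B x) : Strict2 E B (c • x) :=
  ⟨hx.p.smul hc, hx.q.smul hc⟩

theorem Strict2.sum {W : World K V ι v π} {E : Eig W κ} {B : ℤ} {α : Type*} (s : Finset α)
    (f : α → V) (h : ∀ a ∈ s, Strict2 E B (f a)) : Strict2 E B (∑ a ∈ s, f a) :=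
  ⟨Eig.Pp.sum s f fun a ha => (h a ha).p, Eig.Pp.sum s f fun a ha => (h a ha).q⟩

theorem Weak2.smul {W : World K V ι v π} {E : Eig W κ} {B : ℤ} {c : K} (hc : 0 ≤ v c) {x : V}
    (hx : Weak2 E B x) : Weak2 E B (c • x) :=
  ⟨hx.p.smul hc, hx.q.smul hc⟩

theorem pair_mem {L : Type*} [AddCommGroup L] [Module K L] (β : V →ₗ[K] V →ₗ[K] L)
    {W : World K V ι v π} (E : Eig W κ) (hr0 : ∀ j, 0 ≤ E.r j) (hr : ∀ j, E.r j ≤ E.s)
    {B N : ℤ} (hB : 2 * B ≤ E.s * N) {x y : V} (hx : Weak2 E B x) (hy : Strict2 E B y) :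
    β x y ∈ Gd β W N ⊔ Gd β W.flip N ∧ β y x ∈ Gd β W N ⊔ Gd β W.flip N := by
  constructor
  · exact decomp β E hr0 hr (B := B) (fun a b hab => E.goodPair hB hx.p hy.p hab)
      (fun a b hab => E.flip.goodPair hB hx.q hy.q hab)
  · exact decomp β E hr0 hr (B := B)
      (fun a b hab => (E.goodPair hB hx.p hy.p (by omega)).symm)
      (fun a b hab => (E.flip.goodPair hB hx.q hy.q (by rw [E.flip_s]; omega)).symm)

theorem core [CharZero K] {L : Type*} [AddCommGroup L] [Module K L] (β : V →ₗ[K] V →ₗ[K] L)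
    (hβ : ∀ x, β x x = 0) {W : World K V ι v π} (E : Eig W κ) (hr1 : ∀ j, 1 ≤ E.r j)
    (hr2 : ∀ j, E.r j < E.s) {s' : ℤ} (hs' : E.s = 2 * s')
    (hσ : ∃ t : K, ∀ n m : ℕ, n ≠ m → (W.σ ^ (n : ℤ)) t ≠ (W.σ ^ (m : ℤ)) t)
    (ψ : LinearMap.BilinForm K V) (hψ : ψ.Nondegenerate)
    (hψF : ∀ y z, ψ (W.F y) (W.F z) = π * W.σ (ψ y z))
    {g : ℕ} (hg : 1 ≤ g) (hdim : finrank K V = 2 * g) {N : ℤ}
    (hN : NCond E g N) (hN1 : 1 ≤ N) (x y : V) (hx : Fil v W.e 0 x) (hy : Fil v W.e 0 y) :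
    β x y ∈ Gd β W N ⊔ Gd β W.flip N := by
  classical
  have hs := E.hs
  have hs'0 : 0 < s' := by omega
  have hF : W.TopNil := topNil_of_slopes E hr1
  have hV : W.flip.TopNil := topNil_of_slopes E.flip (fun j => by
    rw [E.flip_r]; have := hr2 j; omega)
  have hfin : Module.Finite K V := Module.Finite.of_basis E.b
  have hsym := E.sym ψ hψ hψF
  have hsymf : ∀ j, ∃ j', E.flip.r j + E.flip.r j' = E.flip.s := by
    intro j
    obtain ⟨j', hj'⟩ := hsym j
    exact ⟨j', by simp only [Eig.flip_r, Eig.flip_s]; omega⟩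
  have hr0 : ∀ j, 0 ≤ E.r j := fun j => by have := hr1 j; omega
  have hr2' : ∀ j, E.r j ≤ E.s := fun j => (hr2 j).le
  set B := s' * N with hB
  have hB1 : 1 ≤ B := by nlinarith
  have hBN : 2 * B ≤ E.s * N := by rw [hs', hB]; apply le_of_eq; ring
  obtain ⟨h', hh'⟩ : ∃ h', 2 * g = h' + 1 := ⟨2 * g - 1, by omega⟩
  -- data attached to a full vector
  have hdata : ∀ z, Fil v W.e 0 z → Full W z → ∃ Bz : Basis (Fin (h' + 1)) K V,
      (∀ j, Bz j = W.Fz (j : ℕ) z) ∧
      v (Bz.repr (W.Fz ((h' + 1 : ℕ) : ℤ) z) ⟨0, by omega⟩) = ((g : ℤ) : WithTop ℤ) ∧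
      Weak2 E B z ∧ E.Pm B z ∧ E.flip.Pm B z ∧
      ((Fil v W.e 1 (W.Fz g z) ∧ Fil v W.e 1 (W.flip.Fz g z)) → Strict2 E B z) := by
    intro z hz hfull
    obtain ⟨Bz, hBz⟩ := basis_of_full hfull (h := h' + 1) (by rw [hdim, hh']) hfin
    have hdet : v (Bz.repr (W.Fz ((h' + 1 : ℕ) : ℤ) z) ⟨0, by omega⟩) = ((g : ℤ) : WithTop ℤ) := by
      have hne : Bz.repr (W.Fz ((h' + 1 : ℕ) : ℤ) z) 0 ≠ 0 := by
        intro h0
        -- otherwise `F^h z` is in the span of the last ones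
        have hT : Module.Finite K V := hfin
        have h1 := W.Fz_neg_one (W.Fz ((h' + 1 : ℕ) : ℤ) z)
        -- use injectivity: F^{h-1} z would be in the span of the first ones
        have h2 : W.Fz ((h' : ℕ) : ℤ) z = ∑ i : Fin (h' + 1),
            (W.σ ^ (-1 : ℤ)) (Bz.repr (W.Fz ((h' + 1 : ℕ) : ℤ) z) i) •
              W.Fz (((i : ℕ) : ℤ) - 1) z := by
          have h3 : W.Fz ((h' : ℕ) : ℤ) z = W.Fz (-1) (W.Fz ((h' + 1 : ℕ) : ℤ) z) := by
            rw [← W.Fz_add]; congr 2; push_cast; ring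
          rw [h3]
          conv_lhs => rw [← Bz.sum_repr (W.Fz ((h' + 1 : ℕ) : ℤ) z)]
          rw [map_sum]
          refine Finset.sum_congr rfl fun i _ => ?_
          rw [W.semi_z, hBz, ← W.Fz_add, neg_add_eq_sub]
        rw [Fin.sum_univ_succ, h0, map_zero, zero_smul, zero_add] at h2
        have h4 : Bz (Fin.last h') = ∑ i : Fin h',
            (W.σ ^ (-1 : ℤ)) (Bz.repr (W.Fz ((h' + 1 : ℕ) : ℤ) z) i.succ) • Bz i.castSucc := by
          rw [hBz, Fin.val_last, h2]
          refine Finset.sum_congr rfl fun i _ => ?_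
          rw [hBz]
          congr 3
          simp
        have h5 := congrArg (fun y => Bz.repr y (Fin.last h')) h4
        simp only [Basis.repr_self, Finsupp.single_eq_same, map_sum, map_smul,
          Finsupp.coe_finsetSum, Finset.sum_apply, Finsupp.smul_apply, smul_eq_mul] at h5
        rw [Finset.sum_eq_zero] at h5
        · exact one_ne_zero h5
        · intro i _
          rw [Finsupp.single_eq_of_ne, mul_zero]
          exact (Fin.castSucc_lt_last i).ne'
      obtain ⟨δ, hδ⟩ := exists_val (v := v) hne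
      have h3 := val_det_F W z Bz hBz ψ hψ hψF δ hδ
      have h4 : δ = g := by
        have : (2 * g : ℤ) = h' + 1 := by exact_mod_cast hh'
        omega
      rw [← h4]
      exact hδ
    obtain ⟨Bz', hBz'⟩ := flipBasis W z Bz hBz
    obtain ⟨hdet', -⟩ := coeffs W hV (g := g) (h := h' + 1) (by omega) (by omega) z Bz hBz
      Bz' hBz' hdet
    have hpr : ∀ j, E.pr (fun a => a = E.r j) z ≠ 0 := fun j => hfull.pr_ne E j
    have hprf : ∀ j, E.flip.pr (fun a => a = E.flip.r j) z ≠ 0 := by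
      intro j
      rw [E.flip_pr]
      have : E.pr (fun a => E.s - a = E.flip.r j) z = E.pr (fun a => a = E.r j) z := by
        apply E.pr_congr
        intro j'
        rw [E.flip_r]
        constructor <;> intro h <;> omega
      rw [this]
      exact hpr j
    have g1 := growthX E hr1 hr2 hs' hsym (h := h' + 1) (by omega) (by omega) hdim hN hF hV z hz
      hpr Bz hBz hdet
    have g2 := growthX E.flip (fun j => by rw [E.flip_r]; have := hr2 j; omega)
      (fun j => by rw [E.flip_r, E.flip_s]; have := hr1 j; omega) (by rw [E.flip_s]; exact hs')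
      hsymf (h := h' + 1) (by omega) (by omega) hdim hN.flip hV hF.flip_flip z hz hprf Bz' hBz'
      hdet'
    exact ⟨Bz, hBz, hdet, ⟨g1.1, g2.1⟩, g1.2.1, g2.2.1, fun hf => ⟨g1.2.2 hf.1, g2.2.2 hf.2⟩⟩
  obtain ⟨w, hw0, hwfull, hwT⟩ := exists_full E hσ
  by_cases hcase : ∃ z, Fil v W.e 0 z ∧ Full W z ∧ ¬ (Fil v W.e 1 (W.Fz g z) ∧
      Fil v W.e 1 (W.flip.Fz g z))
  · -- cyclic case
    obtain ⟨z, hz, hzfull, hznot⟩ := hcase
    obtain ⟨Bz, hBz, hdet, hweak, hpm, hpmf, -⟩ := hdata z hz hzfull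
    have hdich := (dichotomy W hF hV (g := g) (h := h' + 1) (by omega) (by omega) z hz Bz hBz
      hdet).resolve_right hznot
    have hstrictF : ∀ c : ℤ, 1 ≤ c → Strict2 E B (W.Fz c z) := by
      intro c hc
      refine ⟨E.shiftF hweak.p hr1 hc, ?_⟩
      have h1 := E.flip.shiftV hB1 hz hweak.q hpmf
        (fun j => by rw [E.flip_r]; have := hr2 j; omega)
        (fun j => by rw [E.flip_r, E.flip_s]; have := hr1 j; omega) hc
      rwa [W.flip_flip_Fz] at h1
    have hstrictV : ∀ c : ℤ, 1 ≤ c → Strict2 E B (W.flip.Fz c z) := by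
      intro c hc
      refine ⟨E.shiftV hB1 hz hweak.p hpm hr0 hr2 hc, ?_⟩
      exact E.flip.shiftF hweak.q (fun j => by rw [E.flip_r]; have := hr2 j; omega) hc
    have hsplit : ∀ y, Fil v W.e 0 y → ∃ α : K, 0 ≤ v α ∧ ∃ u, Strict2 E B u ∧
        y = α • z + u := by
      intro y hy
      have h1 := hdich y hy
      set c : Fin (h' + 1) → K := fun j => Bz.repr (W.Fz g y) j with hc
      have hy_eq : y = ∑ j, (W.σ ^ (-(g : ℤ))) (c j) • W.Fz (((j : ℕ) : ℤ) - g) z := by
        have h2 : W.Fz (-(g : ℤ)) (W.Fz g y) = y := by rw [← W.Fz_add]; simp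
        rw [← h2]
        conv_lhs => rw [← Bz.sum_repr (W.Fz g y)]
        rw [map_sum]
        refine Finset.sum_congr rfl fun j _ => ?_
        rw [W.semi_z, hBz, ← W.Fz_add, neg_add_eq_sub, hc]
      have hgh : g < h' + 1 := by omega
      rw [← Finset.add_sum_erase _ _ (Finset.mem_univ (⟨g, hgh⟩ : Fin (h' + 1)))] at hy_eq
      have hz0 : W.Fz (((⟨g, hgh⟩ : Fin (h' + 1)) : ℕ) - (g : ℤ)) z = z := by
        have : (((⟨g, hgh⟩ : Fin (h' + 1)) : ℕ) - (g : ℤ)) = 0 := sub_self _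
        rw [this, W.Fz_zero]
      rw [hz0] at hy_eq
      refine ⟨(W.σ ^ (-(g : ℤ))) (c ⟨g, hgh⟩), ?_, _, ?_, hy_eq⟩
      · rw [W.v_σz]
        have h2 := h1 ⟨g, hgh⟩
        exact_mod_cast le_mono (m := 0) (by simp) h2
      · refine Strict2.sum _ _ fun j hj => ?_
        have hjg : (j : ℕ) ≠ g := by
          intro h2
          exact (Finset.mem_erase.1 hj).1 (Fin.ext h2)
        rcases lt_or_gt_of_ne hjg with hlt | hgt
        · have h3 : (W.σ ^ (-(g : ℤ))) (c j) • W.Fz (((j : ℕ) : ℤ) - g) z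
            = ((W.σ ^ (-(g : ℤ))) (c j) * π ^ (((j : ℕ) : ℤ) - g)) •
                W.flip.Fz ((g : ℤ) - (j : ℕ)) z := by
            rw [W.flip_Fz, smul_smul, mul_assoc, ← zpow_add₀ W.π_ne]
            have h4 : ((j : ℕ) : ℤ) - g + ((g : ℤ) - (j : ℕ)) = 0 := by ring
            have h5 : -((g : ℤ) - (j : ℕ)) = ((j : ℕ) : ℤ) - g := by ring
            rw [h4, h5, zpow_zero, mul_one]
          rw [h3]
          refine (hstrictV _ (by omega)).smul ?_
          have h4 := le_val_mul (v := v) (a := (W.σ ^ (-(g : ℤ))) (c j))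
            (by rw [W.v_σz]; exact h1 j) (W.v_π_zpow (((j : ℕ) : ℤ) - g)).ge
          exact_mod_cast le_mono (m := 0) (by omega) h4
        · refine (hstrictF _ (by omega)).smul ?_
          rw [W.v_σz]
          exact_mod_cast le_mono (m := 0) (by omega) (h1 j)
    obtain ⟨α, hα, u, hu, rfl⟩ := hsplit x hx
    obtain ⟨α', hα', u', hu', rfl⟩ := hsplit y hy
    have e1 : β (α • z + u) (α' • z + u') = β (α • z) u' + β u (α' • z) + β u u' := by
      simp only [map_add, map_smul, LinearMap.add_apply, LinearMap.smul_apply, hβ z, smul_zero,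
        zero_add]
      abel
    rw [e1]
    refine AddSubgroup.add_mem _ (AddSubgroup.add_mem _ ?_ ?_) ?_
    · exact (pair_mem β E hr0 hr2' hBN (hweak.smul hα) hu').1
    · exact (pair_mem β E hr0 hr2' hBN (hweak.smul hα') hu).2
    · exact (pair_mem β E hr0 hr2' hBN hu.weak hu').1
  · push Not at hcase
    have hallfull : ∀ z, Fil v W.e 0 z → Full W z → Strict2 E B z := by
      intro z hz hzf
      obtain ⟨_, _, _, _, _, _, h7⟩ := hdata z hz hzf
      by_contra hc
      apply hc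
      apply h7
      exact hcase z hz hzf
    have hall : ∀ z, Fil v W.e 0 z → Strict2 E B z := by
      intro z hz
      obtain ⟨T, hT⟩ := hwT z
      have hTv : (0 : WithTop ℤ) ≤ v (T : K) := by
        have : ∀ n : ℕ, (0 : WithTop ℤ) ≤ v (n : K) := by
          intro n
          induction n with
          | zero => simp
          | succ n ih =>
            push_cast
            exact le_trans (le_min ih (by rw [v.map_one])) (v.map_add _ _)
        exact this T
      have h1 := hallfull _ (hz.add (Fil.smul_int hTv hw0)) hT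
      have h2 := (hallfull w hw0 hwfull).smul hTv
      have h3 : z = (z + (T : K) • w) - (T : K) • w := by abel
      rw [h3]
      exact h1.sub h2
    exact (pair_mem β E hr0 hr2' hBN (hall x hx).weak (hall y hy)).1

end MPd27f8c
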