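import Pool.Agent.Lib.MP_d27f8c_ag.World

/-!
# Cyclic vectors: integrality of the minimal relation
-/

set_option linter.unusedSectionVars false

namespace MPd27f8c

open Module

variable {K V ι : Type*} [Field K] [AddCommGroup V] [Module K V] [Fintype ι]
variable {v : AddValuation K (WithTop ℤ)} {π : K}

/-- topological nilpotence of `F` -/
def World.TopNil (W : World K V ι v π) : Prop :=
  ∀ y m, ∃ n₀ : ℤ, ∀ n ≥ n₀, Fil v W.e m (W.Fz n y)

/-- **Lemma A.** -/
theorem relA (W : World K V ι v π) (hW : W.TopNil) {h : ℕ} (x : V)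
    (B : Basis (Fin h) K V) (hB : ∀ j, B j = W.Fz (j : ℕ) x) (j : Fin h) :
    (1 : WithTop ℤ) ≤ v (B.repr (W.Fz h x) j) := by
  classical
  set a : Fin h → K := fun j => B.repr (W.Fz h x) j with ha
  by_contra hcon
  -- coefficients of the relation, indices `0..h`
  set c : ℕ → K := fun i => if hi : i < h then a ⟨i, hi⟩ else -1 with hc
  have hch : c h = -1 := by simp [hc]
  have hcj : ∀ i : Fin h, c i = a i := by intro i; simp [hc]
  have hvh : v (c h) = 0 := by rw [hch, v.map_neg, v.map_one]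
  have hrel0 : ∑ i ∈ Finset.range (h + 1), c i • W.Fz i x = 0 := by
    rw [Finset.sum_range_succ, hch, Finset.sum_range]
    have : ∑ i : Fin h, c i • W.Fz (i : ℕ) x = W.Fz h x := by
      conv_rhs => rw [← B.sum_repr (W.Fz h x)]
      refine Finset.sum_congr rfl fun i _ => ?_
      rw [hcj, hB]
    rw [this]
    simp
  have hrel : ∀ n : ℤ, ∑ i ∈ Finset.range (h + 1), (W.σ ^ n) (c i) • W.Fz (n + i) x = 0 := by
    intro n
    have := congrArg (W.Fz n) hrel0
    rw [map_sum, map_zero] at this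
    rw [← this]
    refine Finset.sum_congr rfl fun i _ => ?_
    rw [W.semi_z, W.Fz_add]
  -- minimal valuation
  obtain ⟨e, he1, i₁, hi₁, he2⟩ : ∃ e : ℤ, (∀ i ∈ Finset.range (h + 1), (e : WithTop ℤ) ≤ v (c i))
      ∧ ∃ i ∈ Finset.range (h + 1), v (c i) = e := by
    obtain ⟨i₀, hi₀, hmin⟩ := Finset.exists_min_image (Finset.range (h + 1)) (fun i => v (c i))
      ⟨h, by simp⟩
    have hne : v (c i₀) ≠ ⊤ := by
      have := hmin h (by simp)
      rw [hvh] at this
      intro h0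
      rw [h0] at this
      simp at this
    obtain ⟨e, he⟩ := WithTop.ne_top_iff_exists.1 hne
    exact ⟨e, fun i hi => by rw [he]; exact hmin i hi, i₀, hi₀, he.symm⟩
  have he0 : e ≤ 0 := by
    have := he1 h (by simp)
    rw [hvh] at this
    exact_mod_cast this
  -- smallest index
  have hex : ∃ i, i ∈ Finset.range (h + 1) ∧ v (c i) = e := ⟨i₁, hi₁, he2⟩
  set i₀ := Nat.find hex with hi₀def
  obtain ⟨hi₀r, hi₀⟩ := Nat.find_spec hex
  rw [← hi₀def] at hi₀r hi₀
  have hi₀min : ∀ i < i₀, i ∈ Finset.range (h + 1) → v (c i) ≠ e := fun i hi hir h' =>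
    Nat.find_min hex hi ⟨hir, h'⟩
  have hi₀lt : i₀ < h := by
    rcases lt_or_eq_of_le he0 with hlt | heq
    · have : i₀ ≠ h := by
        intro h'
        rw [h', hvh] at hi₀
        have : (0 : ℤ) = e := by exact_mod_cast hi₀
        omega
      have := Finset.mem_range.1 hi₀r
      omega
    · have hjv : v (c j) = e := by
        rw [heq]
        push Not at hcon
        have h1 : v (c j) < 1 := by rw [hcj]; exact hcon
        have h2 := he1 j (by simp)
        rw [heq] at h2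
        obtain ⟨m, hm⟩ := WithTop.ne_top_iff_exists.1 (h1.trans (by exact WithTop.coe_lt_top 1)).ne
        rw [← hm] at h1 h2 ⊢
        have h3 : m < 1 := by exact_mod_cast h1
        have h4 : 0 ≤ m := by exact_mod_cast h2
        have : m = 0 := by omega
        rw [this]
      have : i₀ ≤ j := Nat.find_min' hex ⟨by simp, hjv⟩
      omega
  -- the sequence
  have hB0 : ∀ n : ℕ, n < h → Fil v B 0 (W.Fz n x) ∧ ¬ Fil v B 1 (W.Fz n x) := by
    intro n hn
    have h1 : W.Fz n x = B ⟨n, hn⟩ := by rw [hB]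
    rw [h1]
    refine ⟨fun i => ?_, fun hf => ?_⟩
    · rw [Basis.repr_self, Finsupp.single_apply]
      split_ifs <;> simp
    · have := hf ⟨n, hn⟩
      rw [Basis.repr_self, Finsupp.single_eq_same, v.map_one] at this
      have : (1 : ℤ) ≤ 0 := by exact_mod_cast this
      omega
  obtain ⟨T, hT, hcomp⟩ := Fil.compare (v := v) B W.e
  have hconv : ∀ m, ∃ n₀ : ℕ, ∀ n : ℕ, n₀ ≤ n → Fil v B m (W.Fz n x) := by
    intro m
    obtain ⟨n₀, hn₀⟩ := hW x (m + T)
    refine ⟨n₀.toNat, fun n hn => ?_⟩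
    have := hcomp _ _ (hn₀ n (by omega))
    exact this.mono (by omega)
  obtain ⟨μ, hμ1, hμ2⟩ := Int.exists_greatest_of_bdd
    (P := fun m => ∀ n : ℕ, Fil v B m (W.Fz n x))
    (by
      refine ⟨0, fun z hz => ?_⟩
      by_contra hlt
      exact (hB0 (h - 1) (by omega)).2 ((hz (h - 1)).mono (by omega)))
    (by
      obtain ⟨n₀, hn₀⟩ := hconv 0
      obtain ⟨m, hm⟩ := Fil.exists_forall (v := v) B (fun n : Fin n₀ => W.Fz (n : ℕ) x)
      refine ⟨min m 0, fun n => ?_⟩
      rcases lt_or_ge n n₀ with h' | h'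
      · exact (hm ⟨n, h'⟩).mono (min_le_left _ _)
      · exact (hn₀ n h').mono (min_le_right _ _))
  have hμ3 : ∃ n : ℕ, ¬ Fil v B (μ + 1) (W.Fz n x) := by
    by_contra hc'
    push Not at hc'
    have := hμ2 (μ + 1) hc'
    omega
  -- largest n with non-membership
  obtain ⟨N, hN⟩ := hconv (μ + 1)
  have hfin : ∃ n₀ : ℕ, ¬ Fil v B (μ + 1) (W.Fz n₀ x) ∧
      ∀ n : ℕ, ¬ Fil v B (μ + 1) (W.Fz n x) → n ≤ n₀ := by
    obtain ⟨n, hn⟩ := hμ3
    have h1 : ∀ n : ℕ, ¬ Fil v B (μ + 1) (W.Fz n x) → n ≤ N := by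
      intro n hn
      by_contra hlt
      exact hn (hN n (by omega))
    refine ⟨Nat.findGreatest (fun n : ℕ => ¬ Fil v B (μ + 1) (W.Fz n x)) N, ?_, ?_⟩
    · exact Nat.findGreatest_spec (P := fun n : ℕ => ¬ Fil v B (μ + 1) (W.Fz n x)) (h1 n hn) hn
    · intro k hk
      exact Nat.le_findGreatest (h1 k hk) hk
  obtain ⟨n₀, hn₀1, hn₀2⟩ := hfin
  have hμ0 : μ ≤ 0 := by
    by_contra hlt
    exact (hB0 (h - 1) (by omega)).2 ((hμ1 (h - 1)).mono (by omega))
  have hn₀h : h - 1 ≤ n₀ := by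
    rcases lt_or_eq_of_le hμ0 with hlt | heq
    · by_contra hlt'
      exact hn₀1 ((hB0 n₀ (by omega)).1.mono (by omega))
    · apply hn₀2
      rw [heq]
      exact (hB0 (h - 1) (by omega)).2
  -- the relation at `n = n₀ - i₀`
  have hreln := hrel ((n₀ : ℤ) - i₀)
  rw [← Finset.add_sum_erase _ _ hi₀r] at hreln
  have hrest : Fil v B (e + μ + 1) (∑ i ∈ (Finset.range (h + 1)).erase i₀,
      (W.σ ^ ((n₀ : ℤ) - i₀)) (c i) • W.Fz ((n₀ : ℤ) - i₀ + i) x) := by
    refine Fil.sum _ _ fun i hi => ?_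
    obtain ⟨hne, hir⟩ := Finset.mem_erase.1 hi
    have hcast : ((n₀ : ℤ) - i₀ + i) = ((n₀ - i₀ + i : ℕ) : ℤ) := by omega
    rw [hcast]
    rcases lt_or_gt_of_ne hne with hlt | hgt
    · have h1 : ((e + 1 : ℤ) : WithTop ℤ) ≤ v ((W.σ ^ ((n₀ : ℤ) - i₀)) (c i)) := by
        rw [W.v_σz]
        have h2 := he1 i hir
        have h3 := hi₀min i hlt hir
        by_cases ht : v (c i) = ⊤
        · simp [ht]
        · obtain ⟨m, hm⟩ := WithTop.ne_top_iff_exists.1 ht
          rw [← hm] at h2 h3 ⊢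
          have h4 : e ≤ m := by exact_mod_cast h2
          have h5 : m ≠ e := by exact_mod_cast h3
          exact_mod_cast (by omega : e + 1 ≤ m)
      exact (Fil.smul h1 (hμ1 _)).mono (by omega)
    · have h1 : ((e : ℤ) : WithTop ℤ) ≤ v ((W.σ ^ ((n₀ : ℤ) - i₀)) (c i)) := by
        rw [W.v_σz]; exact he1 i hir
      have h2 : Fil v B (μ + 1) (W.Fz ((n₀ - i₀ + i : ℕ) : ℤ) x) := by
        by_contra hc'
        have := hn₀2 _ hc'
        omega
      exact (Fil.smul h1 h2).mono (by omega)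
  have hmain : Fil v B (e + (μ + 1))
      ((W.σ ^ ((n₀ : ℤ) - i₀)) (c i₀) • W.Fz ((n₀ : ℤ) - i₀ + i₀) x) := by
    rw [eq_neg_of_add_eq_zero_left hreln, ← add_assoc]
    exact hrest.neg
  rw [Fil.smul_iff (by rw [W.v_σz, hi₀]), sub_add_cancel] at hmain
  exact hn₀1 hmain

end MPd27f8c
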