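import Pool.Agent.Lib.MP_d27f8c_ag.World

/-!
# Cyclic vectors: the determinant of `F`
-/

set_option linter.unusedSectionVars false

namespace MPd27f8c

open Module Matrix

variable {K V ι : Type*} [Field K] [AddCommGroup V] [Module K V] [Fintype ι]
variable {v : AddValuation K (WithTop ℤ)} {π : K}

/-- the determinant of a companion-like matrix -/
theorem det_companion (h : ℕ) (a : Fin (h + 1) → K) (C : Matrix (Fin (h + 1)) (Fin (h + 1)) K)
    (h1 : ∀ i (j : Fin h), C i j.castSucc = if i = j.succ then 1 else 0)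
    (h2 : ∀ i, C i (Fin.last h) = a i) : C.det = (-1) ^ h * a 0 := by
  rw [Matrix.det_succ_row_zero, Finset.sum_eq_single (Fin.last h)]
  · rw [h2]
    have : (C.submatrix Fin.succ (Fin.last h).succAbove) = 1 := by
      ext i j
      rw [Matrix.submatrix_apply, Fin.succAbove_last, h1, Matrix.one_apply]
      simp
    rw [this, Matrix.det_one]
    simp
  · intro j _ hj
    have : C 0 j = 0 := by
      rcases Fin.eq_castSucc_or_eq_last j with ⟨j', rfl⟩ | rfl
      · rw [h1]
        simp
        exact (Fin.succ_ne_zero _).symm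
      · exact absurd rfl hj
    rw [this]
    simp
  · simp

/-- The order of the determinant of `F` from a pairing with `ψ(Fx, Fy) = π σ(ψ(x, y))`. -/
theorem val_det_F (W : World K V ι v π) {h : ℕ} (x : V)
    (B : Basis (Fin (h + 1)) K V) (hB : ∀ j, B j = W.Fz (j : ℕ) x)
    (ψ : LinearMap.BilinForm K V) (hψ : ψ.Nondegenerate)
    (hψF : ∀ y z, ψ (W.F y) (W.F z) = π * W.σ (ψ y z)) (δ : ℤ)
    (hδ : v (B.repr (W.Fz ((h + 1 : ℕ) : ℤ) x) 0) = δ) : 2 * δ = h + 1 := by
  classical
  set C : Matrix (Fin (h + 1)) (Fin (h + 1)) K := fun i j => B.repr (W.F (B j)) i with hC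
  have hFB : ∀ j, W.F (B j) = ∑ i, C i j • B i := fun j => (B.sum_repr _).symm
  have hdet : C.det = (-1) ^ h * B.repr (W.Fz ((h + 1 : ℕ) : ℤ) x) 0 := by
    apply det_companion h (fun i => B.repr (W.Fz ((h + 1 : ℕ) : ℤ) x) i) C
    · intro i j
      have : W.F (B j.castSucc) = B j.succ := by
        rw [hB, hB, ← W.Fz_one, ← W.Fz_add]
        congr 2
        simp [add_comm]
      simp only [hC, this, Basis.repr_self, Finsupp.single_apply]
      by_cases h' : i = j.succ
      · simp [h']
      · have : ¬ j.succ = i := fun h'' => h' h''.symm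
        simp [h', this]
    · intro i
      have : W.F (B (Fin.last h)) = W.Fz ((h + 1 : ℕ) : ℤ) x := by
        rw [hB, ← W.Fz_one, ← W.Fz_add]
        congr 2
        simp [add_comm]
      simp only [hC, this]
  set G : Matrix (Fin (h + 1)) (Fin (h + 1)) K := LinearMap.BilinForm.toMatrix B ψ with hG
  have hGdet : G.det ≠ 0 := (LinearMap.BilinForm.nondegenerate_iff_det_ne_zero B).1 hψ
  have hmat : Cᵀ * G * C = π • (W.σ : K →+* K).mapMatrix G := by
    ext i j
    have h1 : (Cᵀ * G * C) i j = ψ (W.F (B i)) (W.F (B j)) := by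
      rw [hFB i, hFB j]
      simp only [map_sum, map_smul, LinearMap.sum_apply, LinearMap.smul_apply, smul_eq_mul,
        Matrix.mul_apply, Matrix.transpose_apply, hG, LinearMap.BilinForm.toMatrix_apply,
        Finset.sum_mul, Finset.mul_sum]
      refine Finset.sum_congr rfl fun a _ => Finset.sum_congr rfl fun b _ => ?_
      ring
    rw [h1, hψF]
    simp [hG, LinearMap.BilinForm.toMatrix_apply]
  have h3 := congrArg Matrix.det hmat
  rw [Matrix.det_mul, Matrix.det_mul, Matrix.det_transpose, Matrix.det_smul,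
    ← RingHom.map_det, Fintype.card_fin] at h3
  have h4 := congrArg v h3
  obtain ⟨γ, hγ⟩ := exists_val (v := v) hGdet
  have hCv : v C.det = δ := by
    rw [hdet, v.map_mul, hδ]
    have : v ((-1 : K) ^ h) = 0 := by
      rw [v.map_pow, v.map_neg, v.map_one]; simp
    rw [this, zero_add]
  have hσG : v ((W.σ : K →+* K) G.det) = γ := by
    have := W.vσ G.det
    rw [hγ] at this
    exact this
  have hπh : v (π ^ (h + 1)) = ((h + 1 : ℤ) : WithTop ℤ) := by
    have := W.v_π_zpow ((h : ℤ) + 1)
    exact_mod_cast this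
  rw [v.map_mul, v.map_mul, v.map_mul, hCv, hγ, hσG, hπh] at h4
  have h5 : δ + γ + δ = (h : ℤ) + 1 + γ := by exact_mod_cast h4
  omega

end MPd27f8c
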