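import Pool.Agent.Lib.MP_d27f8c_ag.CycA

/-!
# Cyclic vectors: the two-sided relation
-/

set_option linter.unusedSectionVars false

namespace MPd27f8c

open Module

variable {K V ι : Type*} [Field K] [AddCommGroup V] [Module K V] [Fintype ι]
variable {v : AddValuation K (WithTop ℤ)} {π : K}

theorem World.flip_flip_Fz (W : World K V ι v π) (n : ℤ) (x : V) :
    W.flip.flip.Fz n x = W.Fz n x := by
  rw [W.flip.flip_Fz, W.flip_Fz, smul_smul, ← zpow_add₀ W.π_ne]
  simp

theorem World.TopNil.flip_flip {W : World K V ι v π} (h : W.TopNil) : W.flip.flip.TopNil := by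
  intro y m
  obtain ⟨n₀, hn₀⟩ := h y m
  refine ⟨n₀, fun n hn => ?_⟩
  rw [W.flip_flip_Fz]
  exact hn₀ n hn

/-- the relation satisfied by a cyclic vector: `F^g x = ∑ ...` -/
structure Rel (W : World K V ι v π) (x : V) (g : ℕ) (θ : ℤ →₀ K) : Prop where
  rel : ∑ i ∈ θ.support, θ i • W.Fz i x = 0
  top : θ g = -1
  bot : v (θ (-g)) = ((g : ℤ) : WithTop ℤ)
  mid : ∀ i : ℤ, -(g : ℤ) < i → i < g → ((max 1 (1 - i) : ℤ) : WithTop ℤ) ≤ v (θ i)
  out : ∀ i : ℤ, (i < -(g : ℤ) ∨ (g : ℤ) < i) → θ i = 0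

theorem flipBasis (W : World K V ι v π) {h : ℕ} (x : V)
    (B : Basis (Fin h) K V) (hB : ∀ j, B j = W.Fz (j : ℕ) x) :
    ∃ B' : Basis (Fin h) K V, ∀ j, B' j = W.flip.Fz (j : ℕ) x := by
  classical
  have hli : LinearIndependent K (fun j : Fin h => W.flip.Fz (j : ℕ) x) := by
    rw [Fintype.linearIndependent_iff]
    intro c hc j
    have h1 := congrArg (W.Fz ((h : ℤ) - 1)) hc
    rw [map_sum, map_zero] at h1
    have h2 : ∀ i : Fin h, W.Fz ((h : ℤ) - 1) (c i • W.flip.Fz (i : ℕ) x)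
        = ((W.σ ^ ((h : ℤ) - 1)) (c i) * π ^ (i : ℤ)) • B (Fin.rev i) := by
      intro i
      rw [W.semi_z, W.flip_Fz, W.F_pi, hB, smul_smul, ← W.Fz_add]
      congr 3
      simp [Fin.val_rev]
      omega
    simp only [h2] at h1
    have h3 : LinearIndependent K (fun i : Fin h => B (Fin.rev i)) :=
      B.linearIndependent.comp _ Fin.rev_injective
    have h4 := Fintype.linearIndependent_iff.1 h3 _ h1 j
    rcases mul_eq_zero.1 h4 with h5 | h5
    · exact (map_eq_zero_iff _ (RingEquiv.injective _)).1 h5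
    · exact absurd h5 (zpow_ne_zero _ W.π_ne)
  rcases Nat.eq_zero_or_pos h with h0 | h0
  · subst h0
    exact ⟨B, fun j => j.elim0⟩
  · have : Nonempty (Fin h) := ⟨⟨0, h0⟩⟩
    have hcard : Fintype.card (Fin h) = finrank K V := by
      rw [finrank_eq_card_basis B]
    exact ⟨basisOfLinearIndependentOfCardEqFinrank hli hcard, fun j => by simp⟩

theorem coeffs (W : World K V ι v π) (hV : W.flip.TopNil) {g h : ℕ} (hh : h = 2 * g)
    (h0 : 0 < h) (x : V) (B : Basis (Fin h) K V) (hB : ∀ j, B j = W.Fz (j : ℕ) x)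
    (B' : Basis (Fin h) K V) (hB' : ∀ j, B' j = W.flip.Fz (j : ℕ) x)
    (hdet : v (B.repr (W.Fz (h : ℤ) x) ⟨0, h0⟩) = ((g : ℤ) : WithTop ℤ)) :
    v (B'.repr (W.flip.Fz (h : ℤ) x) ⟨0, h0⟩) = ((g : ℤ) : WithTop ℤ) ∧
    ∀ i : Fin h, 1 ≤ (i : ℕ) →
      (((g : ℤ) + 1 - (i : ℕ) : ℤ) : WithTop ℤ) ≤ v (B.repr (W.Fz (h : ℤ) x) i) := by
  classical
  set a : Fin h → K := fun i => B.repr (W.Fz (h : ℤ) x) i with ha
  set b : Fin h → K := fun i => B'.repr (W.flip.Fz (h : ℤ) x) i with hb
  have hrel : W.flip.Fz (h : ℤ) x = ∑ j, b j • W.flip.Fz (j : ℕ) x := by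
    conv_lhs => rw [← B'.sum_repr (W.flip.Fz (h : ℤ) x)]
    refine Finset.sum_congr rfl fun j _ => ?_
    rw [hB']
  have hrel2 : π ^ (h : ℤ) • x
      = ∑ j, ((W.σ ^ (h : ℤ)) (b j) * π ^ ((j : ℕ) : ℤ)) • W.Fz ((h : ℤ) - (j : ℕ)) x := by
    have h1 := congrArg (W.Fz (h : ℤ)) hrel
    rw [W.flip_Fz, W.F_pi, ← W.Fz_add, map_sum] at h1
    simp only [add_neg_cancel, W.Fz_zero] at h1
    rw [h1]
    refine Finset.sum_congr rfl fun j _ => ?_
    rw [W.semi_z, W.flip_Fz, W.F_pi, smul_smul, ← W.Fz_add, sub_eq_add_neg]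
  have hx0 : x = B ⟨0, by omega⟩ := by rw [hB]; simp
  have hcoord : ∀ i : Fin h, (if (i : ℕ) = 0 then π ^ (h : ℤ) else 0)
      = (W.σ ^ (h : ℤ)) (b ⟨0, by omega⟩) * a i
        + if hi : 1 ≤ (i : ℕ) then (W.σ ^ (h : ℤ)) (b ⟨h - i, by omega⟩) *
            π ^ ((h : ℤ) - (i : ℕ)) else 0 := by
    intro i
    have h1 := congrArg (fun y => B.repr y i) hrel2
    simp only [map_smul, map_sum, Finsupp.smul_apply, smul_eq_mul, Finsupp.coe_finsetSum,
      Finset.sum_apply] at h1
    rw [← Finset.add_sum_erase _ _ (Finset.mem_univ (⟨0, by omega⟩ : Fin h))] at h1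
    have hl : π ^ (h : ℤ) * B.repr x i = if (i : ℕ) = 0 then π ^ (h : ℤ) else 0 := by
      rw [hx0, Basis.repr_self, Finsupp.single_apply]
      by_cases hi : (i : ℕ) = 0
      · have : (⟨0, by omega⟩ : Fin h) = i := Fin.ext hi.symm
        simp [hi, this]
      · have : ¬ (⟨0, by omega⟩ : Fin h) = i := fun h' => hi (by rw [← h'])
        simp [hi, this]
    rw [hl] at h1
    rw [h1]
    congr 1
    · simp [ha]
    · by_cases hi : 1 ≤ (i : ℕ)
      · rw [dif_pos hi, Finset.sum_eq_single (⟨h - i, by omega⟩ : Fin h)]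
        · have hcast : (((⟨h - i, by omega⟩ : Fin h) : ℕ) : ℤ) = (h : ℤ) - (i : ℕ) := by
            simp
          have h2 : W.Fz ((h : ℤ) - (((⟨h - i, by omega⟩ : Fin h) : ℕ) : ℤ)) x = B i := by
            rw [hB, hcast, sub_sub_cancel]
          rw [h2, Basis.repr_self, Finsupp.single_eq_same, mul_one, hcast]
        · intro j hj hne
          have hj0 : (j : ℕ) ≠ 0 := by
            intro h0
            exact (Finset.mem_erase.1 hj).1 (Fin.ext h0)
          have h2 : W.Fz ((h : ℤ) - ((j : ℕ) : ℤ)) x = B ⟨h - j, by omega⟩ := by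
            rw [hB]; congr 1; simp
          rw [h2, Basis.repr_self, Finsupp.single_apply]
          have : ¬ (⟨h - j, by omega⟩ : Fin h) = i := by
            intro h'
            apply hne
            apply Fin.ext
            have := congrArg Fin.val h'
            simp at this
            simp
            omega
          rw [if_neg this, mul_zero]
        · intro hnot
          exact absurd (Finset.mem_erase.2 ⟨fun h' => by
            have := congrArg Fin.val h'
            simp at this; omega, Finset.mem_univ _⟩) hnot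
      · rw [dif_neg hi]
        refine Finset.sum_eq_zero fun j hj => ?_
        have hj0 : (j : ℕ) ≠ 0 := by
          intro h0
          exact (Finset.mem_erase.1 hj).1 (Fin.ext h0)
        have h2 : W.Fz ((h : ℤ) - ((j : ℕ) : ℤ)) x = B ⟨h - j, by omega⟩ := by
          rw [hB]; congr 1; simp
        rw [h2, Basis.repr_self, Finsupp.single_apply]
        have : ¬ (⟨h - j, by omega⟩ : Fin h) = i := by
          intro h'
          have := congrArg Fin.val h'
          simp at this
          omega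
        rw [if_neg this, mul_zero]
  have hb0 : v (b ⟨0, by omega⟩) = ((g : ℤ) : WithTop ℤ) := by
    have h1 := hcoord ⟨0, by omega⟩
    simp only [if_true] at h1
    rw [dif_neg (by simp), add_zero] at h1
    have h2 := congrArg v h1
    rw [W.v_π_zpow, v.map_mul, W.v_σz] at h2
    have hne : b ⟨0, by omega⟩ ≠ 0 := by
      intro h0
      rw [h0, v.map_zero] at h2
      simp at h2
    obtain ⟨m, hm⟩ := exists_val (v := v) hne
    rw [hm] at h2 ⊢
    have h3 : v (a ⟨0, by omega⟩) = ((g : ℤ) : WithTop ℤ) := hdet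
    rw [h3] at h2
    have h4 : (h : ℤ) = m + g := by exact_mod_cast h2
    have : m = g := by omega
    rw [this]
  refine ⟨hb0, fun i hi => ?_⟩
  have h1 := hcoord i
  rw [if_neg (by omega), dif_pos hi] at h1
  have h2 : (W.σ ^ (h : ℤ)) (b ⟨0, by omega⟩) * a i
      = - ((W.σ ^ (h : ℤ)) (b ⟨h - i, by omega⟩) * π ^ ((h : ℤ) - (i : ℕ))) :=
    eq_neg_of_add_eq_zero_left h1.symm
  have h3 := congrArg v h2
  rw [v.map_neg, v.map_mul, v.map_mul, W.v_σz, W.v_σz, W.v_π_zpow, hb0] at h3
  have h4 := relA W.flip hV x B' hB' ⟨h - i, by omega⟩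
  change (1 : WithTop ℤ) ≤ v (b ⟨h - i, by omega⟩) at h4
  change ((g : ℤ) + 1 - (i : ℕ) : ℤ) ≤ v (a i)
  by_cases ht : v (a i) = ⊤
  · simp [ht]
  · obtain ⟨m, hm⟩ := WithTop.ne_top_iff_exists.1 ht
    rw [← hm] at h3 ⊢
    have hne : v (b ⟨h - i, by omega⟩) ≠ ⊤ := by
      intro h0
      rw [h0] at h3
      simp at h3
    obtain ⟨m', hm'⟩ := WithTop.ne_top_iff_exists.1 hne
    rw [← hm'] at h3 h4
    have h5 : (g : ℤ) + m = m' + ((h : ℤ) - (i : ℕ)) := by exact_mod_cast h3
    have h6 : (1 : ℤ) ≤ m' := by exact_mod_cast h4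
    have : (g : ℤ) + 1 - (i : ℕ) ≤ m := by omega
    exact_mod_cast this

theorem exists_rel (W : World K V ι v π) (hF : W.TopNil) (hV : W.flip.TopNil) {g h : ℕ}
    (hh : h = 2 * g) (h0 : 0 < h) (x : V) (B : Basis (Fin h) K V)
    (hB : ∀ j, B j = W.Fz (j : ℕ) x)
    (hdet : v (B.repr (W.Fz (h : ℤ) x) ⟨0, h0⟩) = ((g : ℤ) : WithTop ℤ)) :
    ∃ θ : ℤ →₀ K, Rel W x g θ := by
  classical
  obtain ⟨B', hB'⟩ := flipBasis W x B hB
  obtain ⟨-, hco⟩ := coeffs W hV hh h0 x B hB B' hB' hdet
  have hA := relA W hF x B hB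
  set a : Fin h → K := fun i => B.repr (W.Fz (h : ℤ) x) i with ha
  set f : ℤ → K := fun i => if hi : -(g : ℤ) ≤ i ∧ i < g then
      (W.σ ^ (-(g : ℤ))) (a ⟨(i + g).toNat, by omega⟩) else if i = g then -1 else 0 with hf
  have hfin : ∀ i, f i ≠ 0 → i ∈ Finset.Icc (-(g : ℤ)) g := by
    intro i hi
    rw [Finset.mem_Icc]
    by_contra hc
    apply hi
    simp only [hf]
    rw [dif_neg (by omega), if_neg (by omega)]
  refine ⟨Finsupp.onFinset (Finset.Icc (-(g : ℤ)) g) f hfin, ⟨?_, ?_, ?_, ?_, ?_⟩⟩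
  · have h1 : ∑ i ∈ (Finsupp.onFinset (Finset.Icc (-(g : ℤ)) g) f hfin).support,
        (Finsupp.onFinset (Finset.Icc (-(g : ℤ)) g) f hfin) i • W.Fz i x
        = ∑ i ∈ Finset.Icc (-(g : ℤ)) g, f i • W.Fz i x := by
      apply Finset.sum_subset
      · exact Finsupp.support_onFinset_subset
      · intro i _ hi
        rw [Finsupp.notMem_support_iff] at hi
        rw [hi, zero_smul]
    rw [h1]
    have h2 : Finset.Icc (-(g : ℤ)) g = (Finset.univ.image (fun j : Fin h => (j : ℤ) - g))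
        ∪ {(g : ℤ)} := by
      ext i
      simp only [Finset.mem_Icc, Finset.mem_union, Finset.mem_image, Finset.mem_univ, true_and,
        Finset.mem_singleton]
      constructor
      · intro h
        by_cases hi : i = g
        · exact Or.inr hi
        · exact Or.inl ⟨⟨(i + g).toNat, by omega⟩, by simp; omega⟩
      · rintro (⟨j, hj⟩ | h)
        · have := j.2
          omega
        · omega
    rw [h2, Finset.sum_union, Finset.sum_singleton, Finset.sum_image]
    · have h3 : f g = -1 := by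
        simp only [hf]
        rw [dif_neg (by omega)]
        simp
      have h4 : ∀ j : Fin h, f ((j : ℤ) - g) • W.Fz ((j : ℤ) - g) x
          = W.Fz (-(g : ℤ)) (a j • B j) := by
        intro j
        have hj := j.2
        have h5 : f ((j : ℤ) - g) = (W.σ ^ (-(g : ℤ))) (a j) := by
          simp only [hf]
          rw [dif_pos (by omega)]
          congr 2
          apply Fin.ext
          simp
        rw [h5, W.semi_z, hB, ← W.Fz_add, neg_add_eq_sub]
      simp only [h4, h3]
      rw [← map_sum, B.sum_repr, ← W.Fz_add]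
      have h6 : -(g : ℤ) + (h : ℤ) = g := by omega
      rw [h6]
      simp
    · intro i _ j _ hij
      apply Fin.ext
      simp only at hij
      omega
    · rw [Finset.disjoint_left]
      intro i hi hi'
      simp only [Finset.mem_image, Finset.mem_univ, true_and, Finset.mem_singleton] at hi hi'
      obtain ⟨j, hj⟩ := hi
      have := j.2
      omega
  · simp only [Finsupp.onFinset_apply, hf]
    rw [dif_neg (by omega)]
    simp
  · simp only [Finsupp.onFinset_apply, hf]
    rw [dif_pos (by omega), W.v_σz]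
    convert hdet using 4
    simp
  · intro i h1 h2
    simp only [Finsupp.onFinset_apply, hf]
    rw [dif_pos (by omega), W.v_σz]
    have h3 := hA ⟨(i + g).toNat, by omega⟩
    have h4 := hco ⟨(i + g).toNat, by omega⟩ (by simp; omega)
    have h5 : (g : ℤ) + 1 - (((⟨(i + g).toNat, by omega⟩ : Fin h) : ℕ) : ℤ) = 1 - i := by
      simp; omega
    rw [h5] at h4
    change ((max 1 (1 - i) : ℤ) : WithTop ℤ) ≤ v (a ⟨(i + g).toNat, by omega⟩)
    rcases le_total 1 (1 - i) with h | h
    · rw [max_eq_right h]; exact h4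
    · rw [max_eq_left h]; exact h3
  · intro i hi
    simp only [Finsupp.onFinset_apply, hf]
    rw [dif_neg (by omega), if_neg (by omega)]

end MPd27f8c
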