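import Mathlib

/-!
# Existence of eigenvectors (Dieudonné–Manin, first half)
-/

set_option linter.unusedSectionVars false

namespace MPd27f8c

open Module

variable {K V : Type*} [Field K] [AddCommGroup V] [Module K V]

/-- `N` times an additive valuation -/
noncomputable def nval (v : AddValuation K (WithTop ℤ)) (N : ℕ) (hN : 0 < N) :
    AddValuation K (WithTop ℤ) :=
  AddValuation.of (fun a => N • v a) (by
      simp only [v.map_zero]
      obtain ⟨n, rfl⟩ : ∃ n, N = n + 1 := ⟨N - 1, by omega⟩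
      rw [succ_nsmul]
      simp)
    (by simp) (fun x y => by
      have h1 := v.map_add x y
      rcases min_le_iff.1 h1 with h2 | h2
      · exact (min_le_left _ _).trans (nsmul_le_nsmul_right h2 N)
      · exact (min_le_right _ _).trans (nsmul_le_nsmul_right h2 N))
    (fun x y => by simp only [v.map_mul, nsmul_add])

theorem nval_apply (v : AddValuation K (WithTop ℤ)) (N : ℕ) (hN : 0 < N) (a : K) :
    nval v N hN a = N • v a := rfl

/-- the weight condition -/
def WP (nv : AddValuation K (WithTop ℤ)) (F : V →+ V) (x : V) (h : ℕ) (r : ℤ) (j₀ : ℕ) (z : V)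
    (w : ℤ) : Prop :=
  ∃ c : ℕ → K, z = ∑ i ∈ Finset.range h, c i • (F^[i] x) ∧
    (∀ i < h, ((w - r * i : ℤ) : WithTop ℤ) ≤ nv (c i)) ∧
    (∀ i < j₀, ((w - r * i : ℤ) : WithTop ℤ) < nv (c i)) ∧
    (∃ i, j₀ ≤ i ∧ i < h ∧ nv (c i) = ((w - r * i : ℤ) : WithTop ℤ))

theorem WP.step {nv : AddValuation K (WithTop ℤ)} {σ : RingAut K} (hσ : ∀ a, nv (σ a) = nv a)
    (F : V →+ V) (hF : ∀ (a : K) (x : V), F (a • x) = σ a • F x) {x : V} {h : ℕ} {a : ℕ → K}
    (hrel : F^[h] x = ∑ i ∈ Finset.range h, a i • (F^[i] x)) {r : ℤ} {j₀ : ℕ} (hj₀ : j₀ < h)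
    (ha : ∀ i < h, ((r * (h - i) : ℤ) : WithTop ℤ) ≤ nv (a i))
    (ha' : ∀ i < j₀, ((r * (h - i) : ℤ) : WithTop ℤ) < nv (a i))
    (ha₀ : nv (a j₀) = ((r * (h - j₀) : ℤ) : WithTop ℤ)) {z : V} {w : ℤ}
    (hz : WP nv F x h r j₀ z w) : WP nv F x h r j₀ (F z) (w + r) := by
  obtain ⟨c, rfl, h1, h2, i₁, hi₁, hi₁h, h3⟩ := hz
  obtain ⟨h', rfl⟩ : ∃ h', h = h' + 1 := ⟨h - 1, by omega⟩
  set c' : ℕ → K := fun i => Nat.casesOn i (σ (c h') * a 0) (fun i => σ (c i) + σ (c h') * a (i + 1))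
    with hc'
  have hc0 : c' 0 = σ (c h') * a 0 := rfl
  have hc1 : ∀ i, c' (i + 1) = σ (c i) + σ (c h') * a (i + 1) := fun i => rfl
  have hsecond : ∀ i < h' + 1, ((w + r - r * i : ℤ) : WithTop ℤ) ≤ nv (σ (c h') * a i) := by
    intro i hi
    rw [nv.map_mul, hσ]
    have e1 := add_le_add (h1 h' (by omega)) (ha i hi)
    refine le_trans (le_of_eq ?_) e1
    rw [← WithTop.coe_add]
    congr 1
    push_cast
    ring
  have hsecond' : ∀ i < j₀, ((w + r - r * i : ℤ) : WithTop ℤ) < nv (σ (c h') * a i) := by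
    intro i hi
    rw [nv.map_mul, hσ]
    have e1 := WithTop.add_lt_add_of_le_of_lt (WithTop.coe_ne_top) (h1 h' (by omega)) (ha' i hi)
    refine lt_of_le_of_lt (le_of_eq ?_) e1
    rw [← WithTop.coe_add]
    congr 1
    push_cast
    ring
  have hfirst : ∀ i < h', ((w + r - r * ((i + 1 : ℕ) : ℤ) : ℤ) : WithTop ℤ) ≤ nv (σ (c i)) := by
    intro i hi
    rw [hσ]
    refine le_trans (le_of_eq ?_) (h1 i (by omega))
    congr 1
    push_cast
    ring
  have hfirst' : ∀ i < j₀, ((w + r - r * ((i + 1 : ℕ) : ℤ) : ℤ) : WithTop ℤ) < nv (σ (c i)) := by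
    intro i hi
    rw [hσ]
    refine lt_of_le_of_lt (le_of_eq ?_) (h2 i (by omega))
    congr 1
    push_cast
    ring
  refine ⟨c', ?_, ?_, ?_, ?_⟩
  · rw [map_sum, Finset.sum_congr rfl fun i _ => hF (c i) (F^[i] x), Finset.sum_range_succ]
    have e2 : F (F^[h'] x) = F^[h' + 1] x := (Function.iterate_succ_apply' F h' x).symm
    rw [e2, hrel, Finset.smul_sum, Finset.sum_range_succ' (fun i => σ (c h') • a i • F^[i] x),
      Finset.sum_range_succ' (fun i => c' i • F^[i] x), ← add_assoc, ← Finset.sum_add_distrib]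
    congr 1
    · refine Finset.sum_congr rfl fun i _ => ?_
      rw [hc1, add_smul, mul_smul, Function.iterate_succ_apply']
    · rw [hc0, mul_smul]
  · intro i hi
    rcases i with _ | i
    · rw [hc0]; exact hsecond 0 hi
    · rw [hc1]
      exact le_trans (le_min (hfirst i (by omega)) (hsecond (i + 1) hi)) (nv.map_add _ _)
  · intro i hi
    rcases i with _ | i
    · rw [hc0]; exact hsecond' 0 hi
    · rw [hc1]
      exact lt_of_lt_of_le (lt_min (hfirst' i (by omega)) (hsecond' (i + 1) hi)) (nv.map_add _ _)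
  · by_cases heq : nv (c h') = ((w - r * h' : ℤ) : WithTop ℤ)
    · refine ⟨j₀, le_rfl, hj₀, ?_⟩
      have e3 : nv (σ (c h') * a j₀) = ((w + r - r * j₀ : ℤ) : WithTop ℤ) := by
        rw [nv.map_mul, hσ, heq, ha₀, ← WithTop.coe_add]
        congr 1
        push_cast
        ring
      rcases j₀ with _ | j₀
      · rw [hc0]; exact e3
      · rw [hc1, add_comm, nv.map_add_eq_of_lt_left, e3]
        rw [e3]
        exact hfirst' j₀ (by omega)
    · have hi₁' : i₁ < h' := by
        rcases Nat.lt_or_ge i₁ h' with h4 | h4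
        · exact h4
        · have : i₁ = h' := by omega
          subst this
          exact absurd h3 heq
      refine ⟨i₁ + 1, by omega, by omega, ?_⟩
      have hlt : ((w - r * h' : ℤ) : WithTop ℤ) < nv (c h') :=
        lt_of_le_of_ne (h1 h' (by omega)) (Ne.symm heq)
      have e4 : nv (σ (c i₁)) = ((w + r - r * ((i₁ + 1 : ℕ) : ℤ) : ℤ) : WithTop ℤ) := by
        rw [hσ, h3]
        congr 1
        push_cast
        ring
      rw [hc1, nv.map_add_eq_of_lt_left, e4]
      rw [e4, nv.map_mul, hσ]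
      have e1 := WithTop.add_lt_add_of_lt_of_le (WithTop.coe_ne_top) hlt (ha (i₁ + 1) (by omega))
      refine lt_of_le_of_lt (le_of_eq ?_) e1
      rw [← WithTop.coe_add]
      congr 1
      push_cast
      ring

theorem WP.smul {nv : AddValuation K (WithTop ℤ)} {F : V →+ V} {x : V} {h : ℕ} {r : ℤ} {j₀ : ℕ}
    {z : V} {w : ℤ} (hz : WP nv F x h r j₀ z w) {b : K} {m : ℤ} (hb : nv b = m) :
    WP nv F x h r j₀ (b • z) (w + m) := by
  obtain ⟨c, rfl, h1, h2, i₁, hi₁, hi₁h, h3⟩ := hz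
  have key : ∀ i : ℕ, (((w + m) - r * i : ℤ) : WithTop ℤ)
      = (m : WithTop ℤ) + ((w - r * i : ℤ) : WithTop ℤ) := by
    intro i
    rw [← WithTop.coe_add]
    congr 1
    ring
  refine ⟨fun i => b * c i, ?_, ?_, ?_, i₁, hi₁, hi₁h, ?_⟩
  · rw [Finset.smul_sum]
    refine Finset.sum_congr rfl fun i _ => ?_
    rw [smul_smul]
  · intro i hi
    rw [nv.map_mul, hb, key]
    exact add_le_add le_rfl (h1 i hi)
  · intro i hi
    rw [nv.map_mul, hb, key]
    exact WithTop.add_lt_add_left WithTop.coe_ne_top (h2 i hi)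
  · rw [nv.map_mul, hb, key, h3]

end MPd27f8c
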