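import Pool.Agent.Lib.MP_d27f8c_ag.Solv
import Pool.Agent.Lib.MP_d27f8c_ag.DMa

/-!
# Existence of eigenvectors (Dieudonné–Manin, second half)
-/

set_option linter.unusedSectionVars false

namespace MPd27f8c

open Module

variable {K V : Type*} [Field K] [AddCommGroup V] [Module K V]
variable {v : AddValuation K (WithTop ℤ)}

theorem iter_semi {σ : RingAut K} (F : V →+ V) (hF : ∀ (a : K) (x : V), F (a • x) = σ a • F x)
    (n : ℕ) (a : K) (x : V) : F^[n] (a • x) = (σ ^ n) a • F^[n] x := by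
  induction n with
  | zero => simp
  | succ n ih =>
    rw [Function.iterate_succ_apply', ih, hF, Function.iterate_succ_apply', pow_succ',
      RingAut.mul_apply]

theorem iter_pi {σ : RingAut K} {π : K} (hσπ : σ π = π) (F : V →+ V)
    (hF : ∀ (a : K) (x : V), F (a • x) = σ a • F x)
    (n : ℕ) (m : ℤ) (x : V) : F^[n] (π ^ m • x) = π ^ m • F^[n] x := by
  rw [iter_semi F hF]
  congr 1
  induction n with
  | zero => simp
  | succ n ih => rw [pow_succ', RingAut.mul_apply, ih, map_zpow₀, hσπ]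

theorem nsmul_coe (N : ℕ) (m : ℤ) : N • ((m : ℤ) : WithTop ℤ) = ((N * m : ℤ) : WithTop ℤ) := by
  rw [← WithTop.coe_nsmul, nsmul_eq_mul]

/-- Existence of an eigenvector of a power of `F`. -/
theorem exists_eigenvector [Module.Finite K V] [Nontrivial V] {σ : RingAut K}
    (hσ : ∀ a, v (σ a) = v a) {π : K} (hπ : v π = 1) (hσπ : σ π = π)
    (hS : ∀ m : ℕ, 0 < m → Solv v (σ ^ m)) (F : V →+ V)
    (hF : ∀ (a : K) (x : V), F (a • x) = σ a • F x) (hinj : Function.Injective F) :
    ∃ y : V, y ≠ 0 ∧ ∃ N : ℕ, 0 < N ∧ ∃ r : ℤ, F^[N] y = π ^ r • y := by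
  classical
  have hπ0 : π ≠ 0 := by
    rintro rfl
    simp at hπ
  obtain ⟨x, hx⟩ := exists_ne (0 : V)
  obtain ⟨h, hli, hnli⟩ := exists_min_li (K := K) (fun i => F^[i] x)
  have hh : 0 < h := by
    rcases Nat.eq_zero_or_pos h with h0 | h0
    · exfalso
      subst h0
      apply hnli
      rw [Fintype.linearIndependent_iff]
      intro g hg i
      have hi : i = 0 := Fin.ext (by omega)
      subst hi
      rw [Fin.sum_univ_one] at hg
      exact (smul_eq_zero.1 hg).resolve_right (by simpa using hx)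
    · exact h0
  -- the relation
  obtain ⟨a, hrel⟩ : ∃ a : ℕ → K, F^[h] x = ∑ i ∈ Finset.range h, a i • (F^[i] x) := by
    have h1 : F^[h] x ∈ Submodule.span K (Set.range fun i : Fin h => F^[(i : ℕ)] x) := by
      by_contra hc
      apply hnli
      rw [linearIndependent_finSucc']
      exact ⟨hli, hc⟩
    obtain ⟨c, hc⟩ := (Submodule.mem_span_range_iff_exists_fun K).1 h1
    refine ⟨fun i => if hi : i < h then c ⟨i, hi⟩ else 0, ?_⟩
    rw [← hc, Finset.sum_range]
    refine Finset.sum_congr rfl fun i _ => ?_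
    simp only
    rw [dif_pos i.2]
  -- slope
  have hane : ∃ i < h, a i ≠ 0 := by
    by_contra hc
    push Not at hc
    have h1 : F^[h] x = 0 := by
      rw [hrel]
      refine Finset.sum_eq_zero fun i hi => ?_
      rw [hc i (Finset.mem_range.1 hi), zero_smul]
    have h2 : F^[h] (0 : V) = 0 := Function.iterate_fixed (map_zero F) h
    exact hx ((hinj.iterate h) (h1.trans h2.symm))
  have hval : ∀ i, ∃ m : ℤ, a i ≠ 0 → v (a i) = m := by
    intro i
    by_cases hi : a i = 0
    · exact ⟨0, fun h => absurd hi h⟩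
    · obtain ⟨m, hm⟩ := exists_val (v := v) hi
      exact ⟨m, fun _ => hm⟩
  choose b hb using hval
  obtain ⟨i₁, hi₁, hmin⟩ := Finset.exists_min_image ((Finset.range h).filter fun i => a i ≠ 0)
    (fun i => (b i : ℚ) / ((h : ℚ) - i)) (by
      obtain ⟨i, hi, hai⟩ := hane
      exact ⟨i, by simp [hi, hai]⟩)
  rw [Finset.mem_filter, Finset.mem_range] at hi₁
  obtain ⟨hi₁h, hai₁⟩ := hi₁
  obtain ⟨N, hN⟩ : ∃ N, h = i₁ + N := ⟨h - i₁, by omega⟩
  have hN0 : 0 < N := by omega
  set r := b i₁ with hr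
  set nv := nval v N hN0 with hnv
  have hnvσ : ∀ a, nv (σ a) = nv a := fun a => by rw [hnv, nval_apply, nval_apply, hσ]
  have ha : ∀ i < h, ((r * (h - i) : ℤ) : WithTop ℤ) ≤ nv (a i) := by
    intro i hi
    by_cases hai : a i = 0
    · rw [hai, nv.map_zero]; exact le_top
    · rw [hnv, nval_apply, hb i hai, nsmul_coe]
      have h1 := hmin i (by simp [hi, hai])
      have h2 : (0 : ℚ) < (h : ℚ) - i := by
        have : (i : ℚ) < h := by exact_mod_cast hi
        linarith
      have h3 : (0 : ℚ) < (h : ℚ) - i₁ := by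
        have : (i₁ : ℚ) < h := by exact_mod_cast hi₁h
        linarith
      rw [div_le_div_iff₀ h3 h2] at h1
      have h4 : r * ((h : ℤ) - i) ≤ b i * ((h : ℤ) - i₁) := by exact_mod_cast h1
      have h5 : (h : ℤ) - i₁ = N := by rw [hN]; push_cast; ring
      rw [h5] at h4
      rw [mul_comm (N : ℤ)]
      exact_mod_cast h4
  have hex : ∃ i, i < h ∧ nv (a i) = ((r * (h - i) : ℤ) : WithTop ℤ) := by
    refine ⟨i₁, hi₁h, ?_⟩
    rw [hnv, nval_apply, hb i₁ hai₁, nsmul_coe]
    congr 1
    have h5 : (h : ℤ) - i₁ = N := by rw [hN]; push_cast; ring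
    rw [h5, mul_comm]
  set j₀ := Nat.find hex with hj₀def
  obtain ⟨hj₀, ha₀⟩ := Nat.find_spec hex
  have ha' : ∀ i < j₀, ((r * (h - i) : ℤ) : WithTop ℤ) < nv (a i) := by
    intro i hi
    refine lt_of_le_of_ne (ha i (by omega)) fun hc => ?_
    exact Nat.find_min hex hi ⟨by omega, hc.symm⟩
  -- the operator G
  let G : V →+ V := AddMonoidHom.mk' (fun y => π ^ (-r) • F^[N] y) (fun y z => by
    rw [iterate_map_add, smul_add])
  have hGdef : ∀ y, G y = π ^ (-r) • F^[N] y := fun y => rfl
  have hGs : ∀ (c : K) (y : V), G (c • y) = (σ ^ N) c • G y := by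
    intro c y
    rw [hGdef, hGdef, iter_semi F hF, smul_comm]
  have hFN : ∀ (n : ℕ) z w, WP nv F x h r j₀ z w → WP nv F x h r j₀ (F^[n] z) (w + n * r) := by
    intro n
    induction n with
    | zero => intro z w hz; simpa using hz
    | succ n ih =>
      intro z w hz
      have h1 := (ih z w hz).step hnvσ F hF hrel hj₀ ha ha' ha₀
      rw [Function.iterate_succ_apply']
      have h2 : w + ((n + 1 : ℕ) : ℤ) * r = w + n * r + r := by push_cast; ring
      rw [h2]
      exact h1
  have hGW : ∀ z w, WP nv F x h r j₀ z w → WP nv F x h r j₀ (G z) w := by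
    intro z w hz
    have h1 := (hFN N z w hz).smul (b := π ^ (-r)) (m := N * (-r)) (by
      rw [hnv, nval_apply, v_pow_int hπ, nsmul_coe])
    have h2 : w + N * r + N * (-r) = w := by ring
    rw [h2] at h1
    exact h1
  set x' := F^[j₀] x with hx'
  have hx'W : WP nv F x h r j₀ x' (r * j₀) := by
    refine ⟨fun i => if i = j₀ then 1 else 0, ?_, ?_, ?_, j₀, le_rfl, hj₀, ?_⟩
    · rw [Finset.sum_eq_single j₀]
      · simp [hx']
      · intro i _ hi
        simp [hi]
      · intro h1
        exact absurd (Finset.mem_range.2 hj₀) h1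
    · intro i _
      simp only
      split_ifs with h1
      · subst h1; simp
      · simp
    · intro i hi
      simp only
      rw [if_neg hi.ne]
      simp only [AddValuation.map_zero]
      exact WithTop.coe_lt_top _
    · simp
  have hGn : ∀ n, WP nv F x h r j₀ (G^[n] x') (r * j₀) := by
    intro n
    induction n with
    | zero => exact hx'W
    | succ n ih => rw [Function.iterate_succ_apply']; exact hGW _ _ ih
  obtain ⟨m, hlim, hnlim⟩ := exists_min_li (K := K) (fun i => G^[i] x')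
  obtain ⟨c, hc, ⟨i₀, hi₀, hci₀⟩, hcrel⟩ := normal_rel (v := v) (fun i => G^[i] x') hnlim
  -- two units
  have htwo : ∃ i ≤ m, ∃ j ≤ m, i ≠ j ∧ v (c i) = 0 ∧ v (c j) = 0 := by
    by_contra hcon
    push Not at hcon
    have hpos : ∀ j ≤ m, j ≠ i₀ → 0 < nv (c j) := by
      intro j hj hne
      have h1 := hcon i₀ hi₀ j hj (Ne.symm hne) hci₀
      have h2 : 0 < v (c j) := lt_of_le_of_ne (hc j) (Ne.symm h1)
      rw [hnv, nval_apply]
      have h3 : v (c j) ≤ N • v (c j) := by
        have h4 := nsmul_le_nsmul_left h2.le (show 1 ≤ N by omega)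
        rwa [one_nsmul] at h4
      exact lt_of_lt_of_le h2 h3
    choose d hd1 hd2 hd3 hd4 using hGn
    obtain ⟨i₂, -, hi₂, hd⟩ := hd4 i₀
    have h1 : ∑ i : Fin h, (∑ j ∈ Finset.range (m + 1), c j * d j i) • F^[(i : ℕ)] x = 0 := by
      have h2 : ∑ j ∈ Finset.range (m + 1), c j • G^[j] x'
          = ∑ i : Fin h, (∑ j ∈ Finset.range (m + 1), c j * d j i) • F^[(i : ℕ)] x := by
        simp only [Finset.sum_smul]
        rw [Finset.sum_comm]
        refine Finset.sum_congr rfl fun j _ => ?_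
        rw [hd1 j, Finset.sum_range, Finset.smul_sum]
        refine Finset.sum_congr rfl fun i _ => ?_
        rw [smul_smul]
      rw [← h2, hcrel]
    have h2 := Fintype.linearIndependent_iff.1 hli _ h1 ⟨i₂, hi₂⟩
    simp only at h2
    rw [← Finset.add_sum_erase _ _ (Finset.mem_range.2 (show i₀ < m + 1 by omega))] at h2
    have h3 : nv (c i₀ * d i₀ i₂) = ((r * j₀ - r * i₂ : ℤ) : WithTop ℤ) := by
      rw [nv.map_mul, hd, hnv, nval_apply, hci₀, nsmul_zero, zero_add]
    have h4 : ((r * j₀ - r * i₂ : ℤ) : WithTop ℤ) <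
        nv (∑ j ∈ (Finset.range (m + 1)).erase i₀, c j * d j i₂) := by
      apply nv.map_lt_sum WithTop.coe_ne_top
      intro j hj
      rw [Finset.mem_erase, Finset.mem_range] at hj
      rw [nv.map_mul]
      have h5 := WithTop.add_lt_add_of_lt_of_le (w := (0 : WithTop ℤ)) WithTop.coe_ne_top
        (hpos j (by omega) hj.1) (hd2 j i₂ hi₂)
      · rwa [zero_add] at h5
    rw [add_eq_zero_iff_eq_neg] at h2
    rw [h2, nv.map_neg] at h3
    rw [h3] at h4
    exact lt_irrefl _ h4
  obtain ⟨w, hw, hwsum⟩ := (hS N hN0).two m (fun j => ((σ ^ N) ^ j) (c (m - j)))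
    (fun j => by rw [v_pow_aut (v_pow_aut hσ N)]; exact hc _) (by
      obtain ⟨i, hi, j, hj, hij, hi0, hj0⟩ := htwo
      refine ⟨m - i, Nat.sub_le _ _, m - j, Nat.sub_le _ _, by omega, ?_, ?_⟩
      · rw [v_pow_aut (v_pow_aut hσ N), Nat.sub_sub_self hi, hi0]
      · rw [v_pow_aut (v_pow_aut hσ N), Nat.sub_sub_self hj, hj0])
  obtain ⟨u, hu0, hu, hum, hsol⟩ := cyc_solve (σ ^ N) G hGs x' m c hcrel 0 (map_zero _) w
    (by rw [hwsum, neg_zero])
  rw [zero_smul, sub_eq_zero] at hsol
  set y := ∑ i ∈ Finset.range m, u i • (G^[i] x') with hy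
  refine ⟨y, ?_, N, hN0, r, ?_⟩
  · intro hy0
    have h1 : ∀ i < m, u i = 0 := by
      intro i hi
      have h2 : ∑ i : Fin m, u i • (G^[(i : ℕ)] x') = 0 := by
        rw [← hy0, hy, Finset.sum_range]
      exact Fintype.linearIndependent_iff.1 hlim _ h2 ⟨i, hi⟩
    have h2 : ∀ i ≤ m, u i = 0 := by
      intro i hi
      rcases Nat.lt_or_ge i m with h3 | h3
      · exact h1 i h3
      · have : i = m := by omega
        rw [this, hum]
    have hw0 : w ≠ 0 := by
      rintro rfl
      simp at hw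
    have h3 : ∀ i ≤ m, c i = 0 := by
      intro i hi
      rcases i with _ | i
      · have h4 := h2 0 (by omega)
        rw [hu0, zero_add, neg_eq_zero] at h4
        exact (mul_eq_zero.1 h4).resolve_left hw0
      · have h4 := hu i
        rw [h2 (i + 1) hi, h2 i (by omega), map_zero, zero_sub, eq_comm, neg_eq_zero] at h4
        exact (mul_eq_zero.1 h4).resolve_left hw0
    rw [h3 i₀ hi₀] at hci₀
    simp at hci₀
  · have h1 : G y = y := hsol
    rw [hGdef] at h1
    have h2 : F^[N] y = π ^ r • (π ^ (-r) • F^[N] y) := by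
      rw [smul_smul, ← zpow_add₀ hπ0]
      simp
    rw [h2, h1]

end MPd27f8c
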