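import Pool.Agent.Lib.MP_d27f8c_ag.DMb

/-!
# The theorem of Dieudonné and Manin: existence of an eigenbasis
-/

set_option linter.unusedSectionVars false

namespace MPd27f8c

open Module

variable {K V : Type*} [Field K] [AddCommGroup V] [Module K V]
variable {v : AddValuation K (WithTop ℤ)}

theorem aut_zpow_pi {σ : RingAut K} {π : K} (hσπ : σ π = π) (n : ℕ) (m : ℤ) :
    (σ ^ n) (π ^ m) = π ^ m := by
  induction n with
  | zero => simp
  | succ n ih => rw [pow_succ', RingAut.mul_apply, ih, map_zpow₀, hσπ]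

/-- solving `π^R' σ^M(c) - π^R c = ε` in `K` -/
theorem solve_line {σ : RingAut K} {π : K} (hπ : v π = 1) (hσπ : σ π = π) {M : ℕ}
    (hS : Solv v (σ ^ M)) (R R' : ℤ) (ε : K) :
    ∃ c : K, π ^ R' * (σ ^ M) c - π ^ R * c = ε := by
  classical
  have hπ0 : π ≠ 0 := by
    rintro rfl
    simp at hπ
  set m := min R R' with hm
  obtain ⟨t, ht⟩ := exists_le_val (v := v) (ε * π ^ (-m))
  set T := |t| with hT
  set e : ℕ → K := fun j => if j = 0 then -π ^ (R - m) else if j = 1 then π ^ (R' - m) else 0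
    with he
  have hnn : ∀ n : ℤ, 0 ≤ n → 0 ≤ v (π ^ n) := by
    intro n hn
    rw [v_pow_int hπ]
    exact_mod_cast hn
  obtain ⟨w, hw, hsum⟩ := hS.one 1 e (by
      intro j
      simp only [he]
      split_ifs
      · rw [v.map_neg]; exact hnn _ (by omega)
      · exact hnn _ (by omega)
      · simp) (by
      rcases le_total R R' with h | h
      · refine ⟨0, by omega, ?_⟩
        have h1 : R - m = 0 := by omega
        simp [he, h1]
      · refine ⟨1, le_rfl, ?_⟩
        have h1 : R' - m = 0 := by omega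
        simp [he, h1]) (ε * π ^ (-m) * π ^ T) (by
      rw [v.map_mul, v_pow_int hπ]
      have h1 : ((0 : ℤ) : WithTop ℤ) ≤ ((t + T : ℤ) : WithTop ℤ) := by
        have := neg_abs_le t
        exact_mod_cast (by omega : 0 ≤ t + T)
      have h2 := add_le_add ht (le_refl ((T : ℤ) : WithTop ℤ))
      exact le_trans h1 (by push_cast at h2 ⊢; exact h2))
  rw [Finset.sum_range_succ, Finset.sum_range_one] at hsum
  have he0 : e 0 = -π ^ (R - m) := by simp [he]
  have he1 : e 1 = π ^ (R' - m) := by simp [he]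
  rw [he0, he1, pow_zero, pow_one, RingAut.one_apply] at hsum
  refine ⟨π ^ (-T) * w, ?_⟩
  rw [map_mul, aut_zpow_pi hσπ]
  have h1 : π ^ R' = π ^ m * π ^ (R' - m) := by
    rw [← zpow_add₀ hπ0]; congr 1; ring
  have h2 : π ^ R = π ^ m * π ^ (R - m) := by
    rw [← zpow_add₀ hπ0]; congr 1; ring
  have h3 : π ^ m * π ^ (-m) = 1 := by
    rw [← zpow_add₀ hπ0]; simp
  have h4 : π ^ T * π ^ (-T) = 1 := by
    rw [← zpow_add₀ hπ0]; simp
  calc π ^ R' * (π ^ (-T) * (σ ^ M) w) - π ^ R * (π ^ (-T) * w)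
      = π ^ m * π ^ (-T) * (-π ^ (R - m) * w + π ^ (R' - m) * (σ ^ M) w) := by
        rw [h1, h2]; ring
    _ = ε * (π ^ m * π ^ (-m)) * (π ^ T * π ^ (-T)) := by rw [hsum]; ring
    _ = ε := by rw [h3, h4]; ring

/-- eigenvectors of powers of `F` -/
def IsEig (F : V →+ V) (π : K) (y : V) : Prop := ∃ N : ℕ, 0 < N ∧ ∃ r : ℤ, F^[N] y = π ^ r • y

theorem eig_iter {σ : RingAut K} {π : K} (hπ0 : π ≠ 0) (hσπ : σ π = π) (F : V →+ V)
    (hF : ∀ (a : K) (x : V), F (a • x) = σ a • F x) {y : V} {N : ℕ} {r : ℤ}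
    (h : F^[N] y = π ^ r • y) (M : ℕ) : F^[N * M] y = π ^ (r * M) • y := by
  induction M with
  | zero => simp
  | succ M ih =>
    rw [Nat.mul_succ, Function.iterate_add_apply, h, iter_pi hσπ F hF, ih, smul_smul,
      ← zpow_add₀ hπ0]
    congr 2
    push_cast
    ring

section

variable [Module.Finite K V] {σ : RingAut K} {π : K}

theorem span_eig_eq_top (hσ : ∀ a, v (σ a) = v a) (hπ : v π = 1) (hσπ : σ π = π)
    (hS : ∀ m : ℕ, 0 < m → Solv v (σ ^ m)) (F : V ≃+ V)
    (hF : ∀ (a : K) (x : V), F (a • x) = σ a • F x) :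
    Submodule.span K {y | IsEig (F : V →+ V) π y} = ⊤ := by
  classical
  have hπ0 : π ≠ 0 := by
    rintro rfl
    simp at hπ
  set S := {y | IsEig (F : V →+ V) π y} with hSdef
  set E := Submodule.span K S with hE
  have hFsymm : ∀ (a : K) (x : V), F.symm (a • x) = σ.symm a • F.symm x := by
    intro a x
    apply F.injective
    rw [F.apply_symm_apply, hF, RingEquiv.apply_symm_apply, F.apply_symm_apply]
  have hSF : ∀ y ∈ S, F y ∈ S := by
    rintro y ⟨N, hN, r, h⟩
    refine ⟨N, hN, r, ?_⟩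
    have h1 : (F : V →+ V)^[N] (F y) = F ((F : V →+ V)^[N] y) :=
      (Function.iterate_succ_apply _ _ _).symm.trans (Function.iterate_succ_apply' _ _ _)
    rw [h1, h]
    have := iter_pi hσπ (F : V →+ V) hF 1 r y
    simpa using this
  have hSF' : ∀ y ∈ S, F.symm y ∈ S := by
    rintro y ⟨N, hN, r, h⟩
    refine ⟨N, hN, r, F.injective ?_⟩
    have h1 : F ((F : V →+ V)^[N] (F.symm y)) = (F : V →+ V)^[N] (F (F.symm y)) :=
      ((Function.iterate_succ_apply _ _ _).symm.trans (Function.iterate_succ_apply' _ _ _)).symm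
    rw [h1, F.apply_symm_apply, h]
    have := iter_pi hσπ (F : V →+ V) hF 1 r (F.symm y)
    simp only [Function.iterate_one, AddMonoidHom.coe_coe, F.apply_symm_apply] at this
    exact this.symm
  have hEF : ∀ y ∈ E, F y ∈ E := by
    intro y hy
    induction hy using Submodule.span_induction with
    | mem y hy => exact Submodule.subset_span (hSF y hy)
    | zero => rw [map_zero]; exact E.zero_mem
    | add x y _ _ hx hy => rw [map_add]; exact E.add_mem hx hy
    | smul a x _ hx => rw [hF]; exact E.smul_mem _ hx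
  have hEF' : ∀ y ∈ E, F.symm y ∈ E := by
    intro y hy
    induction hy using Submodule.span_induction with
    | mem y hy => exact Submodule.subset_span (hSF' y hy)
    | zero => rw [map_zero]; exact E.zero_mem
    | add x y _ _ hx hy => rw [map_add]; exact E.add_mem hx hy
    | smul a x _ hx => rw [hFsymm]; exact E.smul_mem _ hx
  have hEFn : ∀ n : ℕ, ∀ y ∈ E, (F : V →+ V)^[n] y ∈ E := by
    intro n
    induction n with
    | zero => intro y hy; exact hy
    | succ n ih => intro y hy; rw [Function.iterate_succ_apply']; exact hEF _ (ih y hy)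
  by_contra htop
  have hnt : Nontrivial (V ⧸ E) := Submodule.Quotient.nontrivial_iff.2 htop
  let Fs : V →ₛₗ[(σ : K →+* K)] V :=
    { toFun := F, map_add' := map_add F, map_smul' := hF }
  have hcomap : E ≤ E.comap Fs := fun y hy => hEF y hy
  let Fq : (V ⧸ E) →ₛₗ[(σ : K →+* K)] (V ⧸ E) := E.mapQ E Fs hcomap
  have hFq : ∀ y : V, Fq (E.mkQ y) = E.mkQ (F y) := fun y => rfl
  have hFqinj : Function.Injective (Fq : (V ⧸ E) →+ (V ⧸ E)) := by
    intro a b hab
    obtain ⟨a, rfl⟩ := E.mkQ_surjective a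
    obtain ⟨b, rfl⟩ := E.mkQ_surjective b
    have h1 : E.mkQ (F a) = E.mkQ (F b) := hab
    rw [Submodule.mkQ_apply, Submodule.mkQ_apply, Submodule.Quotient.eq, ← map_sub] at h1
    have h2 := hEF' _ h1
    rw [F.symm_apply_apply] at h2
    rw [Submodule.mkQ_apply, Submodule.mkQ_apply, Submodule.Quotient.eq]
    exact h2
  obtain ⟨y', hy'0, N, hN, r, hy'⟩ := exists_eigenvector (v := v) hσ hπ hσπ hS
    (Fq : (V ⧸ E) →+ (V ⧸ E)) (fun a x => Fq.map_smulₛₗ a x) hFqinj
  obtain ⟨y, rfl⟩ := E.mkQ_surjective y'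
  have hFqn : ∀ n : ℕ, (Fq : (V ⧸ E) →+ (V ⧸ E))^[n] (E.mkQ y) = E.mkQ ((F : V →+ V)^[n] y) := by
    intro n
    induction n with
    | zero => rfl
    | succ n ih => rw [Function.iterate_succ_apply', ih, Function.iterate_succ_apply']; rfl
  rw [hFqn, ← map_smul, Submodule.mkQ_apply, Submodule.mkQ_apply, Submodule.Quotient.eq] at hy'
  -- the operator A
  let A : V →+ V := AddMonoidHom.mk' (fun z => (F : V →+ V)^[N] z - π ^ r • z) (fun a b => by
    rw [iterate_map_add, smul_add]; abel)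
  have hA : ∀ z, A z = (F : V →+ V)^[N] z - π ^ r • z := fun z => rfl
  have hApow : ∀ M : ℕ, ∀ z ∈ E, ∃ z' ∈ E, A z' = (F : V →+ V)^[N * M] z - π ^ (r * M) • z := by
    intro M
    induction M with
    | zero => intro z _; exact ⟨0, E.zero_mem, by simp⟩
    | succ M ih =>
      intro z hz
      obtain ⟨z₁, hz₁, h1⟩ := ih z hz
      refine ⟨(F : V →+ V)^[N * M] z + π ^ r • z₁, E.add_mem (hEFn _ _ hz) (E.smul_mem _ hz₁), ?_⟩
      have h2 : A (π ^ r • z₁) = π ^ r • A z₁ := by
        rw [hA, hA, iter_pi hσπ (F : V →+ V) hF, smul_sub]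
      rw [map_add, h2, h1, hA, ← Function.iterate_add_apply, smul_sub, smul_smul,
        ← zpow_add₀ hπ0]
      have h3 : N + N * M = N * (M + 1) := by ring
      have h4 : r + r * (M : ℤ) = r * ((M + 1 : ℕ) : ℤ) := by push_cast; ring
      rw [h3, h4]
      abel
  have hAsurj : ∀ e ∈ E, ∀ ε : K, ∃ e' ∈ E, A e' = ε • e := by
    intro e he
    induction he using Submodule.span_induction with
    | mem s hs =>
      intro ε
      obtain ⟨N', hN', r', hs'⟩ := hs
      have hpos : 0 < N * N' := Nat.mul_pos hN hN'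
      obtain ⟨c, hc⟩ := solve_line hπ hσπ (hS (N * N') hpos) (r * N') (r' * N) ε
      obtain ⟨z', hz', h1⟩ := hApow N' (c • s) (E.smul_mem _ (Submodule.subset_span ⟨N', hN', r', hs'⟩))
      refine ⟨z', hz', ?_⟩
      rw [h1, iter_semi (F : V →+ V) hF]
      have h2 := eig_iter hπ0 hσπ (F : V →+ V) hF hs' N
      rw [mul_comm N' N] at h2
      rw [h2, smul_smul, smul_smul, ← sub_smul, ← hc]
      congr 1
      ring
    | zero => intro ε; exact ⟨0, E.zero_mem, by simp⟩
    | add x y _ _ hx hy =>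
      intro ε
      obtain ⟨a, ha, h1⟩ := hx ε
      obtain ⟨b, hb, h2⟩ := hy ε
      exact ⟨a + b, E.add_mem ha hb, by rw [map_add, h1, h2, smul_add]⟩
    | smul a x _ hx =>
      intro ε
      obtain ⟨b, hb, h1⟩ := hx (ε * a)
      exact ⟨b, hb, by rw [h1, mul_smul]⟩
  obtain ⟨e', he', hAe'⟩ := hAsurj _ hy' 1
  rw [one_smul] at hAe'
  have h1 : A (y - e') = 0 := by
    rw [map_sub, hAe', hA]
    abel
  have h2 : y - e' ∈ E := by
    apply Submodule.subset_span
    refine ⟨N, hN, r, ?_⟩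
    rw [hA, sub_eq_zero] at h1
    exact h1
  have h3 : y ∈ E := by
    have := E.add_mem h2 he'
    rwa [sub_add_cancel] at this
  apply hy'0
  rw [Submodule.mkQ_apply, Submodule.Quotient.mk_eq_zero]
  exact h3

/-- Dieudonné–Manin: there is an eigenbasis of some even power of `F`. -/
theorem exists_eigenbasis (hσ : ∀ a, v (σ a) = v a) (hπ : v π = 1) (hσπ : σ π = π)
    (hS : ∀ m : ℕ, 0 < m → Solv v (σ ^ m)) (F : V ≃+ V)
    (hF : ∀ (a : K) (x : V), F (a • x) = σ a • F x) :
    ∃ s' : ℕ, 0 < s' ∧ ∃ (b : Basis (Fin (finrank K V)) K V) (r : Fin (finrank K V) → ℤ),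
      ∀ i, (F : V →+ V)^[2 * s'] (b i) = π ^ (r i) • b i := by
  classical
  have hπ0 : π ≠ 0 := by
    rintro rfl
    simp at hπ
  have hspan := span_eig_eq_top hσ hπ hσπ hS F hF
  let B := Basis.ofSpan hspan.ge
  have hB : ∀ i, IsEig (F : V →+ V) π (B i) := by
    intro i
    have := Basis.ofSpan_subset hspan.ge
    exact this ⟨i, rfl⟩
  have hfin : Finite _ := Module.Finite.finite_basis B
  have := Fintype.ofFinite ↑((linearIndepOn_empty K id).extend
    (Set.empty_subset {y : V | IsEig (F : V →+ V) π y}))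
  let b := B.reindex (Fintype.equivFinOfCardEq (finrank_eq_card_basis B).symm)
  have hb : ∀ i, IsEig (F : V →+ V) π (b i) := by
    intro i
    rw [Basis.reindex_apply]
    exact hB _
  choose N hN r hr using hb
  have hdvd : ∀ i, N i ∣ ∏ j, N j := fun i => Finset.dvd_prod_of_mem _ (Finset.mem_univ i)
  choose c hc using hdvd
  refine ⟨∏ j, N j, Finset.prod_pos fun i _ => hN i, b, fun i => r i * ((2 * c i : ℕ) : ℤ),
    fun i => ?_⟩
  have h1 := eig_iter hπ0 hσπ (F : V →+ V) hF (hr i) (2 * c i)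
  rw [← h1]
  congr 1
  rw [hc i]
  ring_nf

end

end MPd27f8c
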