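import Pool.Agent.Lib.MP_d27f8c_ag.Lat

/-!
# Extension of scalars of semilinear maps, exterior squares of semilinear maps
-/

set_option linter.unusedSectionVars false

open scoped TensorProduct

namespace MPd27f8c

open Module

section ext

variable {R K M : Type*} [CommRing R] [IsDomain R] [Field K] [Algebra R K] [IsFractionRing R K]
  [AddCommGroup M] [Module R M]

/-- scalar extension of a semilinear map -/
noncomputable def extS {τ : R →+* R} {τK : K →+* K}
    (h : ∀ a, τK (algebraMap R K a) = algebraMap R K (τ a)) (f : M →ₛₗ[τ] M) :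
    K ⊗[R] M →+ K ⊗[R] M :=
  TensorProduct.liftAddHom
    { toFun := fun c =>
        { toFun := fun m => τK c ⊗ₜ[R] f m
          map_zero' := by rw [map_zero, TensorProduct.tmul_zero]
          map_add' := fun a b => by rw [map_add, TensorProduct.tmul_add] }
      map_zero' := by
        ext m
        simp
      map_add' := fun a b => by
        ext m
        simp [TensorProduct.add_tmul] }
    (fun r c m => by
      simp only [AddMonoidHom.coe_mk, ZeroHom.coe_mk]
      rw [Algebra.smul_def, map_mul, h, ← Algebra.smul_def, LinearMap.map_smulₛₗ,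
        TensorProduct.smul_tmul])

variable {τ : R →+* R} {τK : K →+* K} (h : ∀ a, τK (algebraMap R K a) = algebraMap R K (τ a))

theorem extS_tmul (f : M →ₛₗ[τ] M) (c : K) (m : M) : extS h f (c ⊗ₜ[R] m) = τK c ⊗ₜ[R] f m := rfl

theorem extS_smul (f : M →ₛₗ[τ] M) (a : K) (z : K ⊗[R] M) :
    extS h f (a • z) = τK a • extS h f z := by
  induction z using TensorProduct.induction_on with
  | zero => simp
  | tmul c m =>
    rw [TensorProduct.smul_tmul', extS_tmul, extS_tmul, TensorProduct.smul_tmul', smul_eq_mul,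
      smul_eq_mul, map_mul]
  | add x y hx hy => rw [smul_add, map_add, hx, hy, map_add, smul_add]

end ext

section fil

variable {R K M ι : Type*} [CommRing R] [IsDomain R] [IsPrincipalIdealRing R] [Field K]
  [Algebra R K] [IsFractionRing R K] [AddCommGroup M] [Module R M] [Fintype ι]
variable {v : AddValuation K (WithTop ℤ)}

theorem one_tmul_injective (e : Basis ι R M) {m m' : M}
    (h : (1 : K) ⊗ₜ[R] m = (1 : K) ⊗ₜ[R] m') : m = m' := by
  apply e.repr.injective
  ext i
  have h1 := congrArg (fun z => (e.baseChange K).repr z i) h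
  simp only [Basis.baseChange_repr_tmul] at h1
  rw [Algebra.smul_def, Algebra.smul_def, mul_one, mul_one] at h1
  exact IsFractionRing.injective R K h1

theorem fil_tensor (hv : ∀ a : K, 0 ≤ v a ↔ ∃ r, algebraMap R K r = a) (e : Basis ι R M)
    (x : K ⊗[R] M) : Fil v (e.baseChange K) 0 x ↔ ∃ m : M, x = 1 ⊗ₜ[R] m := by
  rw [fil_zero_iff hv]
  constructor
  · rintro ⟨f, rfl⟩
    refine ⟨∑ i, f i • e i, ?_⟩
    rw [vec_apply, TensorProduct.tmul_sum]
    refine Finset.sum_congr rfl fun i _ => ?_
    rw [Basis.baseChange_apply, TensorProduct.smul_tmul', ← TensorProduct.smul_tmul,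
      smul_eq_mul, Algebra.smul_def]
  · rintro ⟨m, rfl⟩
    refine ⟨fun i => e.repr m i, ?_⟩
    rw [vec_apply]
    conv_rhs => rw [← e.sum_repr m, TensorProduct.tmul_sum]
    refine Finset.sum_congr rfl fun i _ => ?_
    rw [Basis.baseChange_apply, TensorProduct.smul_tmul', ← TensorProduct.smul_tmul,
      smul_eq_mul, Algebra.smul_def]

theorem exists_scale (hv : ∀ a : K, 0 ≤ v a ↔ ∃ r, algebraMap R K r = a) {π : K} (hπ : v π = 1)
    (e : Basis ι R M) (x : K ⊗[R] M) : ∃ (T : ℤ) (m : M), x = π ^ T • ((1 : K) ⊗ₜ[R] m) := by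
  have hπ0 : π ≠ 0 := by
    rintro rfl
    simp at hπ
  obtain ⟨T, hT⟩ := Fil.exists (v := v) (e.baseChange K) x
  obtain ⟨m, hm⟩ := (fil_tensor hv e _).1 ((fil_iff_zero hπ _ T x).1 hT)
  refine ⟨T, m, ?_⟩
  rw [← hm, smul_smul, ← zpow_add₀ hπ0]
  simp

end fil

end MPd27f8c
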