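import Mathlib

/-!
# Filtrations of a vector space over a discretely valued field by multiples of a lattice
-/

namespace MPd27f8c

open Module

variable {K V ι : Type*} [Field K] [AddCommGroup V] [Module K V]
variable {v : AddValuation K (WithTop ℤ)}

/-- `Fil v e m x`: all coordinates of `x` in the basis `e` have valuation `≥ m`, that is
`x ∈ π ^ m M` where `M` is the lattice with basis `e`. -/
def Fil (v : AddValuation K (WithTop ℤ)) (e : Basis ι K V) (m : ℤ) (x : V) : Prop :=
  ∀ i, (m : WithTop ℤ) ≤ v (e.repr x i)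

variable {e : Basis ι K V}

theorem Fil.mono {m n : ℤ} (h : m ≤ n) {x : V} (hx : Fil v e n x) : Fil v e m x := fun i =>
  le_trans (by exact_mod_cast h) (hx i)

theorem Fil.zero (m : ℤ) : Fil v e m (0 : V) := fun i => by simp

theorem Fil.add {m : ℤ} {x y : V} (hx : Fil v e m x) (hy : Fil v e m y) :
    Fil v e m (x + y) := fun i => by
  have := v.map_add (e.repr x i) (e.repr y i)
  simpa using le_trans (le_min (hx i) (hy i)) this

theorem Fil.neg {m : ℤ} {x : V} (hx : Fil v e m x) : Fil v e m (-x) := fun i => by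
  simpa [v.map_neg] using hx i

theorem Fil.sub {m : ℤ} {x y : V} (hx : Fil v e m x) (hy : Fil v e m y) :
    Fil v e m (x - y) := by
  rw [sub_eq_add_neg]; exact hx.add hy.neg

theorem Fil.neg_iff {m : ℤ} {x : V} : Fil v e m (-x) ↔ Fil v e m x :=
  ⟨fun h => by simpa using h.neg, fun h => h.neg⟩

theorem Fil.sum {α : Type*} {m : ℤ} (s : Finset α) (f : α → V)
    (h : ∀ a ∈ s, Fil v e m (f a)) : Fil v e m (∑ a ∈ s, f a) := by
  classical
  induction s using Finset.induction_on with
  | empty => simpa using Fil.zero m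
  | insert a s ha ih =>
    rw [Finset.sum_insert ha]
    exact (h a (Finset.mem_insert_self _ _)).add
      (ih fun b hb => h b (Finset.mem_insert_of_mem hb))

theorem Fil.smul {a m : ℤ} {c : K} {x : V} (hc : (a : WithTop ℤ) ≤ v c) (hx : Fil v e m x) :
    Fil v e (a + m) (c • x) := fun i => by
  rw [map_smul, Finsupp.smul_apply, smul_eq_mul, v.map_mul]
  push_cast
  exact add_le_add hc (hx i)

theorem Fil.smul_iff {a m : ℤ} {c : K} {x : V} (hc : v c = a) :
    Fil v e (a + m) (c • x) ↔ Fil v e m x := by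
  constructor
  · intro h i
    have := h i
    rw [map_smul, Finsupp.smul_apply, smul_eq_mul, v.map_mul, hc] at this
    push_cast at this
    exact (WithTop.add_le_add_iff_left (by simp)).1 this
  · exact fun h => h.smul hc.ge

theorem Fil.smul_int {m : ℤ} {c : K} {x : V} (hc : 0 ≤ v c) (hx : Fil v e m x) :
    Fil v e m (c • x) := by
  have := Fil.smul (a := 0) (by simpa using hc) hx
  simpa using this

theorem Fil.eq_zero {x : V} (h : ∀ m, Fil v e m x) : x = 0 := by
  apply e.repr.injective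
  ext i
  simp only [map_zero, Finsupp.coe_zero, Pi.zero_apply]
  have : v (e.repr x i) = ⊤ := by
    by_contra hne
    obtain ⟨n, hn⟩ := WithTop.ne_top_iff_exists.1 hne
    have := h (n + 1) i
    rw [← hn] at this
    have : (n + 1 : ℤ) ≤ n := by exact_mod_cast this
    omega
  exact v.top_iff.1 this

theorem exists_le_val (c : K) : ∃ m : ℤ, (m : WithTop ℤ) ≤ v c := by
  by_cases h : v c = ⊤
  · exact ⟨0, by simp [h]⟩
  · obtain ⟨n, hn⟩ := WithTop.ne_top_iff_exists.1 h
    exact ⟨n, hn.le⟩

theorem exists_val {c : K} (hc : c ≠ 0) : ∃ m : ℤ, v c = m := by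
  have : v c ≠ ⊤ := fun h => hc (v.top_iff.1 h)
  obtain ⟨n, hn⟩ := WithTop.ne_top_iff_exists.1 this
  exact ⟨n, hn.symm⟩

theorem Fil.exists [Fintype ι] (e : Basis ι K V) (x : V) : ∃ m : ℤ, Fil v e m x := by
  classical
  choose f hf using fun i => exists_le_val (v := v) (e.repr x i)
  refine ⟨-∑ i, |f i|, fun i => le_trans ?_ (hf i)⟩
  have h1 : |f i| ≤ ∑ i, |f i| := Finset.single_le_sum (fun j _ => abs_nonneg (f j))
    (Finset.mem_univ i)
  have h2 := neg_abs_le (f i)
  exact_mod_cast (by omega : -∑ i, |f i| ≤ f i)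

theorem Fil.exists_forall [Fintype ι] {α : Type*} [Finite α] (e : Basis ι K V) (x : α → V) :
    ∃ m : ℤ, ∀ a, Fil v e m (x a) := by
  classical
  have := Fintype.ofFinite α
  choose f hf using fun a => Fil.exists (v := v) e (x a)
  refine ⟨-∑ i, |f i|, fun i => (hf i).mono ?_⟩
  have h1 : |f i| ≤ ∑ i, |f i| := Finset.single_le_sum (fun j _ => abs_nonneg (f j))
    (Finset.mem_univ i)
  have h2 := neg_abs_le (f i)
  omega

/-- Two lattices are commensurable. -/
theorem Fil.compare {ι' : Type*} [Fintype ι] [Fintype ι'] (e : Basis ι K V)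
    (e' : Basis ι' K V) : ∃ T : ℤ, 0 ≤ T ∧ ∀ m x, Fil v e' m x → Fil v e (m - T) x := by
  obtain ⟨m₀, hm₀⟩ := Fil.exists_forall (v := v) e e'
  refine ⟨|m₀|, abs_nonneg _, fun m x hx => ?_⟩
  rw [← e'.sum_repr x]
  refine Fil.sum _ _ fun i _ => ?_
  have := Fil.smul (hx i) (hm₀ i)
  refine this.mono ?_
  have := neg_abs_le m₀
  omega

theorem v_pow_int {π : K} (hπ : v π = 1) (n : ℤ) : v (π ^ n) = n := by
  have h0 : π ≠ 0 := by
    rintro rfl
    simp at hπ
  have hnat : ∀ n : ℕ, v (π ^ n) = ((n : ℤ) : WithTop ℤ) := by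
    intro n
    induction n with
    | zero => simp
    | succ n ih => rw [pow_succ, v.map_mul, ih, hπ]; push_cast; rfl
  rcases n with n | n
  · simpa using hnat n
  · have h1 : v (π ^ (Int.negSucc n) * π ^ ((n : ℤ) + 1)) = 0 := by
      rw [← zpow_add₀ h0]
      simp [Int.negSucc_eq]
    rw [v.map_mul] at h1
    have h2 : v (π ^ ((n : ℤ) + 1)) = (((n : ℤ) + 1 : ℤ) : WithTop ℤ) := by
      have := hnat (n + 1)
      exact_mod_cast this
    rw [h2] at h1
    obtain ⟨m, hm⟩ := exists_val (v := v) (zpow_ne_zero (Int.negSucc n) h0)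
    rw [hm] at h1 ⊢
    have : m + ((n : ℤ) + 1) = 0 := by exact_mod_cast h1
    have : m = Int.negSucc n := by
      rw [Int.negSucc_eq]; omega
    rw [this]

end MPd27f8c
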