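import Pool.Agent.Lib.MP_d27f8c_ag.Fil

/-!
# The key recurrence lemma
-/

namespace MPd27f8c

open Module

variable {K V ι : Type*} [Field K] [AddCommGroup V] [Module K V]
variable {v : AddValuation K (WithTop ℤ)} {e : Basis ι K V}

/-- `Gr v e s ℓ C n y`: the order of `y` along the lattice is at least `(ℓ * n - C) / s`. -/
def Gr (v : AddValuation K (WithTop ℤ)) (e : Basis ι K V) (s ℓ C n : ℤ) (y : V) : Prop :=
  ∀ m : ℤ, s * m < ℓ * n - C + s → Fil v e m y

theorem Gr.mono {s ℓ C C' n : ℤ} {y : V} (h : Gr v e s ℓ C n y) (hC : C ≤ C') :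
    Gr v e s ℓ C' n y := fun m hm => h m (by linarith)

theorem Gr.neg {s ℓ C n : ℤ} {y : V} (h : Gr v e s ℓ C n y) : Gr v e s ℓ C n (-y) :=
  fun m hm => (h m hm).neg

theorem Gr.add {s ℓ C n : ℤ} {x y : V} (hx : Gr v e s ℓ C n x) (hy : Gr v e s ℓ C n y) :
    Gr v e s ℓ C n (x + y) := fun m hm => (hx m hm).add (hy m hm)

theorem Gr.sub {s ℓ C n : ℤ} {x y : V} (hx : Gr v e s ℓ C n x) (hy : Gr v e s ℓ C n y) :
    Gr v e s ℓ C n (x - y) := fun m hm => (hx m hm).sub (hy m hm)

theorem Gr.zero {s ℓ C n : ℤ} : Gr v e s ℓ C n (0 : V) := fun _ _ => Fil.zero _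

theorem v_zpow_aut {σ : RingAut K} (hσ : ∀ a, v (σ a) = v a) (n : ℤ) (a : K) :
    v ((σ ^ n) a) = v a := by
  have hinv : ∀ a, v (σ⁻¹ a) = v a := by
    intro a
    have h1 : σ (σ⁻¹ a) = a := RingEquiv.apply_symm_apply σ a
    rw [← hσ (σ⁻¹ a), h1]
  have hn : ∀ (τ : RingAut K), (∀ a, v (τ a) = v a) → ∀ n : ℕ, ∀ a, v ((τ ^ n) a) = v a := by
    intro τ hτ n
    induction n with
    | zero => intro a; simp
    | succ n ih =>
      intro a
      rw [pow_succ, RingAut.mul_apply, ih, hτ]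
  rcases n with n | n
  · simpa using hn σ hσ n a
  · have := hn σ⁻¹ hinv (n + 1) a
    rw [inv_pow] at this
    simpa using this

theorem key_recurrence (σ : RingAut K) (hσ : ∀ a, v (σ a) = v a)
    (s ℓ : ℤ) (Y : ℤ → V) (θ : ℤ →₀ K)
    (hC0 : ∃ C₀, ∀ n, Gr v e s ℓ C₀ n (Y n))
    (hneg : ∀ C, ∃ n₀, ∀ n ≤ n₀, Gr v e s ℓ C n (Y n))
    (N : ℤ) (hN : ∀ i, ∀ a : ℤ, v (θ i) = a → N ≤ s * a + i * ℓ)
    (hN' : ∃ i, ∃ a : ℤ, v (θ i) = a ∧ s * a + i * ℓ = N)
    (C₁ : ℤ)
    (hR : ∀ C > C₁, ∀ n m : ℤ, s * m = N + ℓ * n - C →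
      Fil v e (m + 1) (∑ i ∈ θ.support, (σ ^ n) (θ i) • Y (n + i))) :
    ∀ n, Gr v e s ℓ C₁ n (Y n) := by
  classical
  -- the descent step
  have step : ∀ C > C₁, (∀ n, Gr v e s ℓ C n (Y n)) → ∀ n, Gr v e s ℓ (C - 1) n (Y n) := by
    intro C hC hP
    by_contra hcon
    push Not at hcon
    obtain ⟨n₀, hn₀, hmin⟩ := Int.exists_least_of_bdd
      (P := fun n => ¬ Gr v e s ℓ (C - 1) n (Y n))
      (by
        obtain ⟨b, hb⟩ := hneg (C - 1)
        refine ⟨b, fun z hz => ?_⟩
        by_contra hlt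
        push Not at hlt
        exact hz (hb z hlt.le)) hcon
    -- exact order at n₀
    have h1 : ∃ μ : ℤ, s * μ = ℓ * n₀ - C ∧ ¬ Fil v e (μ + 1) (Y n₀) := by
      unfold Gr at hn₀
      push Not at hn₀
      obtain ⟨m, hm, hm'⟩ := hn₀
      have h2 : ¬ (s * m < ℓ * n₀ - C + s) := fun h => hm' (hP n₀ m h)
      refine ⟨m - 1, ?_, by simpa using hm'⟩
      have : s * m = ℓ * n₀ - C + s := by omega
      linarith
    obtain ⟨μ, hμ, hnot⟩ := h1
    -- largest extremal index
    have h2 : ∃ i₀, (∃ a : ℤ, v (θ i₀) = a ∧ s * a + i₀ * ℓ = N) ∧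
        ∀ i, (∃ a : ℤ, v (θ i) = a ∧ s * a + i * ℓ = N) → i ≤ i₀ := by
      obtain ⟨i, hi⟩ := hN'
      obtain ⟨ub, hub1, hub2⟩ := Int.exists_greatest_of_bdd
        (P := fun i => ∃ a : ℤ, v (θ i) = a ∧ s * a + i * ℓ = N)
        (by
          refine ⟨∑ j ∈ θ.support, |j|, fun z hz => ?_⟩
          obtain ⟨a, ha, _⟩ := hz
          have hz' : z ∈ θ.support := by
            rw [Finsupp.mem_support_iff]
            intro h0
            rw [h0, v.map_zero] at ha
            exact absurd ha (by simp)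
          exact le_trans (le_abs_self z)
            (Finset.single_le_sum (f := fun j : ℤ => |j|) (fun j _ => abs_nonneg j) hz')) ⟨i, hi⟩
      exact ⟨ub, hub1, hub2⟩
    obtain ⟨i₀, ⟨a₀, ha₀, haN⟩, hmax⟩ := h2
    have hi₀ : i₀ ∈ θ.support := by
      rw [Finsupp.mem_support_iff]
      intro h0
      rw [h0, v.map_zero] at ha₀
      exact absurd ha₀ (by simp)
    set n := n₀ - i₀ with hn
    have hm : s * (a₀ + μ) = N + ℓ * n - C := by
      rw [hn]; linear_combination haN + hμ
    have hRn := hR C hC n (a₀ + μ) hm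
    rw [← Finset.add_sum_erase _ _ hi₀] at hRn
    have hrest : Fil v e (a₀ + μ + 1)
        (∑ i ∈ θ.support.erase i₀, (σ ^ n) (θ i) • Y (n + i)) := by
      refine Fil.sum _ _ fun i hi => ?_
      obtain ⟨hne, hisupp⟩ := Finset.mem_erase.1 hi
      obtain ⟨a, ha⟩ := exists_val (v := v) (Finsupp.mem_support_iff.1 hisupp)
      have hva : v ((σ ^ n) (θ i)) = a := by rw [v_zpow_aut hσ, ha]
      have hNi := hN i a ha
      have : Fil v e (a₀ + μ + 1 - a) (Y (n + i)) := by
        rcases lt_or_gt_of_ne hne with hlt | hgt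
        · have hP' : Gr v e s ℓ (C - 1) (n + i) (Y (n + i)) := by
            by_contra hc
            have := hmin _ hc
            omega
          apply hP'
          have h3 : s * (a₀ + μ + 1 - a) = N + ℓ * n - C + s - s * a := by
            linear_combination hm
          rw [h3]
          have : ℓ * (n + i) = ℓ * n + i * ℓ := by ring
          rw [this]
          linarith
        · have hlt : N < s * a + i * ℓ := by
            rcases lt_or_eq_of_le hNi with h | h
            · exact h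
            · exact absurd (hmax i ⟨a, ha, h.symm⟩) (by omega)
          apply hP (n + i)
          have h3 : s * (a₀ + μ + 1 - a) = N + ℓ * n - C + s - s * a := by
            linear_combination hm
          rw [h3]
          have : ℓ * (n + i) = ℓ * n + i * ℓ := by ring
          rw [this]
          linarith
      have h4 := Fil.smul hva.ge this
      have h5 : a + (a₀ + μ + 1 - a) = a₀ + μ + 1 := by ring
      rwa [h5] at h4
    have hmain : Fil v e (a₀ + (μ + 1)) ((σ ^ n) (θ i₀) • Y (n + i₀)) := by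
      have := hRn.sub hrest
      rw [add_sub_cancel_right] at this
      rwa [← add_assoc]
    rw [Fil.smul_iff (by rw [v_zpow_aut hσ, ha₀])] at hmain
    have : n + i₀ = n₀ := by omega
    rw [this] at hmain
    exact hnot hmain
  obtain ⟨C₀, hC₀⟩ := hC0
  rcases le_or_gt C₀ C₁ with h | h
  · exact fun n => (hC₀ n).mono h
  · have : ∀ j : ℕ, (j : ℤ) ≤ C₀ - C₁ → ∀ n, Gr v e s ℓ (C₀ - j) n (Y n) := by
      intro j
      induction j with
      | zero => intro _; simpa using hC₀
      | succ j ih =>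
        intro hj
        have := step (C₀ - j) (by push_cast at hj; omega) (ih (by push_cast at hj; omega))
        intro n
        have h6 := this n
        have h7 : C₀ - ((j + 1 : ℕ) : ℤ) = C₀ - j - 1 := by push_cast; ring
        rwa [h7]
    have h8 := this (C₀ - C₁).toNat (by omega)
    intro n
    have h9 := h8 n
    have h10 : C₀ - ((C₀ - C₁).toNat : ℤ) = C₁ := by omega
    rwa [h10] at h9

end MPd27f8c
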