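import Pool.Agent.Lib.MP_d27f8c_ag.Fil

/-!
# Solving Frobenius equations in cyclic modules
-/

set_option linter.unusedSectionVars false

namespace MPd27f8c

open Module

variable {K V : Type*} [Field K] [AddCommGroup V] [Module K V]

/-- Solvability of Frobenius polynomial equations -/
structure Solv (v : AddValuation K (WithTop ℤ)) (τ : RingAut K) : Prop where
  one : ∀ (h : ℕ) (e : ℕ → K), (∀ j, 0 ≤ v (e j)) → (∃ j ≤ h, v (e j) = 0) → ∀ a, 0 ≤ v a →
    ∃ w, 0 ≤ v w ∧ ∑ j ∈ Finset.range (h + 1), e j * (τ ^ j) w = a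
  two : ∀ (h : ℕ) (e : ℕ → K), (∀ j, 0 ≤ v (e j)) →
    (∃ i ≤ h, ∃ j ≤ h, i ≠ j ∧ v (e i) = 0 ∧ v (e j) = 0) →
    ∃ w, v w = 0 ∧ ∑ j ∈ Finset.range (h + 1), e j * (τ ^ j) w = 0

variable {v : AddValuation K (WithTop ℤ)}

theorem v_pow_aut {σ : RingAut K} (hσ : ∀ a, v (σ a) = v a) (n : ℕ) (a : K) :
    v ((σ ^ n) a) = v a := by
  induction n generalizing a with
  | zero => simp
  | succ n ih => rw [pow_succ, RingAut.mul_apply, ih, hσ]

/-- the first equation for the inverse automorphism -/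
theorem Solv.inv_one {τ : RingAut K} (hS : Solv v τ) (hτ : ∀ a, v (τ a) = v a)
    (h : ℕ) (e : ℕ → K) (he : ∀ j, 0 ≤ v (e j)) (hu : ∃ j ≤ h, v (e j) = 0) (a : K)
    (ha : 0 ≤ v a) :
    ∃ w, 0 ≤ v w ∧ ∑ j ∈ Finset.range (h + 1), e j * (τ⁻¹ ^ j) w = a := by
  obtain ⟨w, hw, hsum⟩ := hS.one h (fun j => (τ ^ h) (e (h - j)))
    (fun j => by rw [v_pow_aut hτ]; exact he _)
    (by
      obtain ⟨j, hj, hj0⟩ := hu
      refine ⟨h - j, Nat.sub_le _ _, ?_⟩
      rw [v_pow_aut hτ, Nat.sub_sub_self hj, hj0]) ((τ ^ h) a)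
    (by rw [v_pow_aut hτ]; exact ha)
  refine ⟨w, hw, (τ ^ h).injective ?_⟩
  rw [← hsum, map_sum, ← Finset.sum_range_reflect]
  refine Finset.sum_congr rfl fun j hj => ?_
  rw [Finset.mem_range] at hj
  have h1 : h + 1 - 1 - j = h - j := by omega
  rw [h1, map_mul]
  congr 1
  rw [← RingAut.mul_apply]
  congr 1
  rw [inv_pow, ← div_eq_mul_inv, div_eq_iff_eq_mul, ← pow_add]
  congr 1
  omega

/-- The basic recursion solving `G y - y = ε z` in a cyclic module. -/
theorem cyc_solve (τ : RingAut K) (G : V →+ V) (hG : ∀ (a : K) (x : V), G (a • x) = τ a • G x)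
    (z : V) (h : ℕ) (c : ℕ → K)
    (hrel : ∑ i ∈ Finset.range (h + 1), c i • (G^[i] z) = 0) (ε : K) (hε : τ ε = ε) (w : K)
    (hw : ∑ j ∈ Finset.range (h + 1), (τ ^ j) (c (h - j)) * (τ ^ j) w = -ε) :
    ∃ u : ℕ → K, u 0 = -(ε + w * c 0) ∧ (∀ i, u (i + 1) = τ (u i) - w * c (i + 1)) ∧ u h = 0 ∧
      G (∑ i ∈ Finset.range h, u i • (G^[i] z)) - ∑ i ∈ Finset.range h, u i • (G^[i] z)
        = ε • z := by
  let u : ℕ → K := fun n => Nat.rec (-(ε + w * c 0)) (fun i x => τ x - w * c (i + 1)) n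
  have hu0 : u 0 = -(ε + w * c 0) := rfl
  have hu : ∀ i, u (i + 1) = τ (u i) - w * c (i + 1) := fun i => rfl
  have hcl : ∀ i, u i = -ε - ∑ j ∈ Finset.range (i + 1), (τ ^ j) (c (i - j)) * (τ ^ j) w := by
    intro i
    induction i with
    | zero =>
      rw [hu0]
      simp
      ring
    | succ i ih =>
      rw [hu, ih, Finset.sum_range_succ' _ (i + 1), map_sub, map_neg, hε, map_sum]
      have h1 : ∀ j, τ ((τ ^ j) (c (i - j)) * (τ ^ j) w)
          = (τ ^ (j + 1)) (c (i + 1 - (j + 1))) * (τ ^ (j + 1)) w := by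
        intro j
        rw [map_mul, pow_succ', RingAut.mul_apply, RingAut.mul_apply,
          Nat.add_sub_add_right]
      rw [Finset.sum_congr rfl fun j _ => h1 j]
      simp only [pow_zero, RingAut.one_apply, Nat.sub_zero]
      ring
  have huh : u h = 0 := by
    rw [hcl, hw]
    ring
  refine ⟨u, hu0, hu, huh, ?_⟩
  have h1 : G (∑ i ∈ Finset.range h, u i • (G^[i] z))
      = ∑ i ∈ Finset.range h, (u (i + 1) + w * c (i + 1)) • (G^[i + 1] z) := by
    rw [map_sum]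
    refine Finset.sum_congr rfl fun i _ => ?_
    rw [hG, Function.iterate_succ_apply', hu]
    congr 1
    ring
  have h2 : ∑ i ∈ Finset.range h, (w * c (i + 1)) • (G^[i + 1] z) = -((w * c 0) • z) := by
    rw [Finset.sum_range_succ'] at hrel
    have h3 : ∑ i ∈ Finset.range h, (w * c (i + 1)) • (G^[i + 1] z)
        = w • ∑ i ∈ Finset.range h, c (i + 1) • (G^[i + 1] z) := by
      rw [Finset.smul_sum]
      refine Finset.sum_congr rfl fun i _ => ?_
      rw [smul_smul]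
    rw [h3, eq_neg_of_add_eq_zero_left hrel, Function.iterate_zero, id_eq, smul_neg, smul_smul]
  have h3 : ∑ i ∈ Finset.range h, u (i + 1) • (G^[i + 1] z)
      = ∑ i ∈ Finset.range h, u i • (G^[i] z) - u 0 • z := by
    have h4 := Finset.sum_range_succ' (fun i => u i • (G^[i] z)) h
    rw [Finset.sum_range_succ, huh, zero_smul, add_zero] at h4
    rw [h4]
    simp
  rw [h1]
  simp only [add_smul]
  rw [Finset.sum_add_distrib, h2, h3, hu0, neg_smul, add_smul]
  abel

/-- a normalised relation -/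
theorem normal_rel (f : ℕ → V) {h : ℕ}
    (h1 : ¬ LinearIndependent K (fun i : Fin (h + 1) => f i)) :
    ∃ c : ℕ → K, (∀ i, 0 ≤ v (c i)) ∧ (∃ i ≤ h, v (c i) = 0) ∧
      ∑ i ∈ Finset.range (h + 1), c i • f i = 0 := by
  classical
  rw [Fintype.not_linearIndependent_iff] at h1
  obtain ⟨g, hg, i₀, hi₀⟩ := h1
  obtain ⟨i₁, hi₁, hmin⟩ := Finset.exists_min_image Finset.univ (fun i => v (g i))
    ⟨i₀, Finset.mem_univ _⟩
  have hne : g i₁ ≠ 0 := by
    intro h2
    have h3 := hmin i₀ (Finset.mem_univ _)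
    rw [h2, v.map_zero, top_le_iff, v.top_iff] at h3
    exact hi₀ h3
  refine ⟨fun n => if hn : n < h + 1 then (g i₁)⁻¹ * g ⟨n, hn⟩ else 0, ?_, ?_, ?_⟩
  · intro n
    simp only
    split_ifs with hn
    · have h2 := hmin ⟨n, hn⟩ (Finset.mem_univ _)
      obtain ⟨m, hm⟩ := exists_val (v := v) hne
      have h3 : v ((g i₁)⁻¹ * g i₁) = 0 := by rw [inv_mul_cancel₀ hne, v.map_one]
      rw [v.map_mul] at h3 ⊢
      rw [← h3]
      gcongr
    · simp
  · refine ⟨i₁, by omega, ?_⟩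
    simp only
    rw [dif_pos i₁.2, Fin.eta, inv_mul_cancel₀ hne, v.map_one]
  · rw [Finset.sum_range]
    have h2 : ∀ i : Fin (h + 1), (if hn : (i : ℕ) < h + 1 then (g i₁)⁻¹ * g ⟨i, hn⟩ else 0) • f i
        = (g i₁)⁻¹ • (g i • f i) := by
      intro i
      rw [dif_pos i.2, Fin.eta, mul_smul]
    rw [Finset.sum_congr rfl fun i _ => h2 i, ← Finset.smul_sum, hg, smul_zero]

theorem not_li_of_le [Module.Finite K V] (f : ℕ → V) {h : ℕ} (hh : finrank K V ≤ h) :
    ¬ LinearIndependent K (fun i : Fin (h + 1) => f i) := by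
  intro h2
  have := h2.fintype_card_le_finrank
  rw [Fintype.card_fin] at this
  omega

/-- existence of a normalised relation -/
theorem exists_normal_rel [Module.Finite K V] (f : ℕ → V) {h : ℕ} (hh : finrank K V ≤ h) :
    ∃ c : ℕ → K, (∀ i, 0 ≤ v (c i)) ∧ (∃ i ≤ h, v (c i) = 0) ∧
      ∑ i ∈ Finset.range (h + 1), c i • f i = 0 := normal_rel f (not_li_of_le f hh)

/-- the length of the longest independent initial segment -/
theorem exists_min_li [Module.Finite K V] (f : ℕ → V) :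
    ∃ m, LinearIndependent K (fun i : Fin m => f i) ∧
      ¬ LinearIndependent K (fun i : Fin (m + 1) => f i) := by
  classical
  have hex : ∃ m, ¬ LinearIndependent K (fun i : Fin (m + 1) => f i) :=
    ⟨finrank K V, not_li_of_le f le_rfl⟩
  refine ⟨Nat.find hex, ?_, Nat.find_spec hex⟩
  rcases hm : Nat.find hex with _ | m
  · exact linearIndependent_empty_type
  · have := Nat.find_min hex (m := m) (by omega)
    exact not_not.1 this

/-- Lang's theorem for a vector with arbitrary orbit: the solution is an integral combination of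
the orbit. -/
theorem lang {τ : RingAut K} (hτ : ∀ a, v (τ a) = v a)
    (hone : ∀ (h : ℕ) (e : ℕ → K), (∀ j, 0 ≤ v (e j)) → (∃ j ≤ h, v (e j) = 0) → ∀ a, 0 ≤ v a →
      ∃ w, 0 ≤ v w ∧ ∑ j ∈ Finset.range (h + 1), e j * (τ ^ j) w = a)
    [Module.Finite K V] (G : V →+ V)
    (hG : ∀ (a : K) (x : V), G (a • x) = τ a • G x) (z : V) :
    ∃ (h : ℕ) (u : ℕ → K), (∀ i, 0 ≤ v (u i)) ∧
      G (∑ i ∈ Finset.range h, u i • (G^[i] z)) - ∑ i ∈ Finset.range h, u i • (G^[i] z) = z := by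
  obtain ⟨c, hc, ⟨i₀, hi₀, hci₀⟩, hrel⟩ := exists_normal_rel (v := v) (fun i => G^[i] z)
    (le_refl (finrank K V))
  set h := finrank K V
  obtain ⟨w, hw, hsum⟩ := hone h (fun j => (τ ^ j) (c (h - j)))
    (fun j => by rw [v_pow_aut hτ]; exact hc _)
    ⟨h - i₀, Nat.sub_le _ _, by rw [v_pow_aut hτ, Nat.sub_sub_self hi₀, hci₀]⟩ (-1)
    (by rw [v.map_neg, v.map_one])
  obtain ⟨u, hu0, hu, -, hsol⟩ := cyc_solve τ G hG z h c hrel 1 (map_one _) w hsum
  refine ⟨h, u, ?_, by rw [hsol, one_smul]⟩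
  have hvw : ∀ i, 0 ≤ v (w * c i) := by
    intro i
    rw [v.map_mul]
    exact add_nonneg hw (hc i)
  intro i
  induction i with
  | zero =>
    rw [hu0, v.map_neg]
    exact le_trans (le_min (by rw [v.map_one]) (hvw 0)) (v.map_add _ _)
  | succ i ih =>
    rw [hu, sub_eq_add_neg]
    exact le_trans (le_min (by rw [hτ]; exact ih) (by rw [v.map_neg]; exact hvw _)) (v.map_add _ _)

end MPd27f8c
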