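import Pool.Agent.Lib.MP_d27f8c_ag.Main
import Pool.Agent.Lib.MP_d27f8c_ag.Solv

/-!
# The main theorem, abstract form with Lang's theorem
-/

set_option linter.unusedSectionVars false

namespace MPd27f8c

open Module

variable {R K V ι κ : Type*} [CommRing R] [IsDomain R] [IsPrincipalIdealRing R] [Field K]
  [Algebra R K] [IsFractionRing R K] [AddCommGroup V] [Module K V] [Fintype ι] [Fintype κ]
variable {v : AddValuation K (WithTop ℤ)} {π : K}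
variable {L μ : Type*} [AddCommGroup L] [Module K L] [Fintype μ]

/-- multiplication by a power of `π` commutes with iterates -/
theorem iter_smul_comm {τ : RingAut K} (hτπ : τ π = π) (hπ0 : π ≠ 0) (Φ : L →+ L)
    (hΦs : ∀ (a : K) (z : L), Φ (a • z) = τ a • Φ z) (G : L →+ L) (hG : ∀ z, G z = π⁻¹ • Φ z)
    (n : ℕ) (m : ℤ) (z : L) : G^[n] (π ^ m • z) = π ^ (m - n) • Φ^[n] z := by
  induction n with
  | zero => simp
  | succ n ih =>
    rw [Function.iterate_succ_apply', ih, hG, hΦs, map_zpow₀, hτπ, Function.iterate_succ_apply',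
      smul_smul]
    congr 1
    rw [← zpow_neg_one, ← zpow_add₀ hπ0]
    congr 1
    push_cast
    ring

theorem lang_Plus {τ : RingAut K} (hτ : ∀ a, v (τ a) = v a) (hτπ : τ π = π) (hπ : v π = 1)
    (hone : ∀ (h : ℕ) (e : ℕ → K), (∀ j, 0 ≤ v (e j)) → (∃ j ≤ h, v (e j) = 0) → ∀ a, 0 ≤ v a →
      ∃ w, 0 ≤ v w ∧ ∑ j ∈ Finset.range (h + 1), e j * (τ ^ j) w = a)
    (eL : Basis μ K L) (Φ : L →+ L) (hΦs : ∀ (a : K) (z : L), Φ (a • z) = τ a • Φ z)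
    {N : ℤ} {z : L} (hz : z ∈ Plus v eL Φ N) :
    ∃ y, Fil v eL 0 y ∧ Fil v eL 0 (π⁻¹ • Φ y) ∧ π⁻¹ • Φ y - y = π ^ (N - 1) • z := by
  have hπ0 : π ≠ 0 := by
    rintro rfl
    simp at hπ
  have hfin : Module.Finite K L := Module.Finite.of_basis eL
  let G : L →+ L := AddMonoidHom.mk' (fun z => π⁻¹ • Φ z) (fun x y => by
    rw [map_add, smul_add])
  have hG : ∀ z, G z = π⁻¹ • Φ z := fun z => rfl
  have hGs : ∀ (a : K) (z : L), G (a • z) = τ a • G z := by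
    intro a z
    rw [hG, hG, hΦs, smul_comm]
  obtain ⟨h, u, hu, hsol⟩ := lang hτ hone G hGs (π ^ (N - 1) • z)
  have hGn : ∀ n : ℕ, Fil v eL 0 (G^[n] (π ^ (N - 1) • z)) := by
    intro n
    rw [iter_smul_comm hτπ hπ0 Φ hΦs G hG]
    have h1 := Fil.smul (v_pow_int hπ (N - 1 - n)).ge (hz n)
    refine h1.mono ?_
    omega
  set y := ∑ i ∈ Finset.range h, u i • G^[i] (π ^ (N - 1) • z) with hy
  have hy0 : Fil v eL 0 y := Fil.sum _ _ fun i _ => Fil.smul_int (hu i) (hGn i)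
  refine ⟨y, hy0, ?_, hsol⟩
  have h1 : π⁻¹ • Φ y = y + π ^ (N - 1) • z := by
    rw [← hsol, ← hG]
    abel
  rw [h1]
  exact hy0.add (hGn 0)

theorem last [CharZero K] (hv : ∀ a : K, 0 ≤ v a ↔ ∃ r, algebraMap R K r = a)
    {W : World K V ι v π} (E : Eig W κ) {s' : ℤ} (hs' : E.s = 2 * s')
    (hσ : ∃ t : K, ∀ n m : ℕ, n ≠ m → (W.σ ^ (n : ℤ)) t ≠ (W.σ ^ (m : ℤ)) t)
    (hS : Solv v W.σ)
    (ψ : LinearMap.BilinForm K V) (hψ : ψ.Nondegenerate) (halt : ∀ x, ψ x x = 0)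
    (hψF : ∀ y z, ψ (W.F y) (W.F z) = π * W.σ (ψ y z))
    {g : ℕ} (hg : 2 ≤ g) (hdim : finrank K V = 2 * g) (hns : ∃ j, 2 * E.r j ≠ E.s)
    (eL : Basis μ K L) (β : V →ₗ[K] V →ₗ[K] L) (hβalt : ∀ x, β x x = 0)
    (hβ : ∀ x y, Fil v W.e 0 x → Fil v W.e 0 y → Fil v eL 0 (β x y)) (Φ : L ≃+ L)
    (hΦs : ∀ (a : K) (z : L), Φ (a • z) = W.σ a • Φ z)
    (hΦ : ∀ x y, Φ (β x y) = β (W.F x) (W.F y))
    (x y : V) (hx : Fil v W.e 0 x) (hy : Fil v W.e 0 y) :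
    ∃ w, Fil v eL 0 w ∧ Fil v eL 0 (π⁻¹ • Φ w) ∧
      π⁻¹ • Φ w - w = π ^ ((g : ℤ) - 2) • β x y := by
  have hπ := W.vπ
  have hπ0 : π ≠ 0 := W.π_ne
  have hσπ' : W.σ⁻¹ π = π := by
    apply W.σ.injective
    rw [W.σ_inv_apply, W.σπ]
  have hΦsymm : ∀ (a : K) (z : L), Φ.symm (a • z) = W.σ⁻¹ a • Φ.symm z := by
    intro a z
    apply Φ.injective
    rw [Φ.apply_symm_apply, hΦs, W.σ_inv_apply, Φ.apply_symm_apply]
  let Φ' : L →+ L := AddMonoidHom.mk' (fun z => (π * π) • Φ.symm z) (fun x y => by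
    rw [map_add, smul_add])
  have hΦ'def : ∀ z, Φ' z = (π * π) • Φ.symm z := fun z => rfl
  have hΦ's : ∀ (a : K) (z : L), Φ' (a • z) = W.σ⁻¹ a • Φ' z := by
    intro a z
    rw [hΦ'def, hΦ'def, hΦsymm, smul_comm]
  have hΦ' : ∀ x y, Φ' (β x y) = β (W.flip.F x) (W.flip.F y) := by
    intro x y
    rw [hΦ'def, W.flip_F, W.flip_F, map_smul, map_smul, LinearMap.smul_apply, smul_smul]
    congr 1
    apply Φ.injective
    rw [Φ.apply_symm_apply, hΦ, AddEquiv.apply_symm_apply, AddEquiv.apply_symm_apply]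
  have hmain := mainThm hv E hs' hσ ψ hψ halt hψF hg hdim hns eL β hβalt hβ (Φ : L →+ L) Φ' hΦ hΦ'
    x y hx hy
  -- the subgroup of solvable elements
  let P : AddSubgroup L :=
    { carrier := {z | ∃ w, Fil v eL 0 w ∧ Fil v eL 0 (π⁻¹ • Φ w) ∧
        π⁻¹ • Φ w - w = π ^ ((g : ℤ) - 2) • z}
      add_mem' := by
        rintro a b ⟨w, h1, h2, h3⟩ ⟨w', h1', h2', h3'⟩
        refine ⟨w + w', h1.add h1', ?_, ?_⟩
        · rw [map_add, smul_add]; exact h2.add h2'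
        · rw [map_add, smul_add, smul_add, ← h3, ← h3']; abel
      zero_mem' := ⟨0, Fil.zero _, by rw [map_zero, smul_zero]; exact Fil.zero _, by simp⟩
      neg_mem' := by
        rintro a ⟨w, h1, h2, h3⟩
        refine ⟨-w, h1.neg, ?_, ?_⟩
        · rw [map_neg, smul_neg]; exact h2.neg
        · rw [map_neg, smul_neg, smul_neg, ← h3]; abel }
  have h12 : (g : ℤ) - 1 - 1 = g - 2 := by ring
  have hP1 : Plus v eL (Φ : L →+ L) ((g : ℤ) - 1) ≤ P := by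
    intro z hz
    obtain ⟨w, h1, h2, h3⟩ := lang_Plus W.vσ W.σπ hπ hS.one eL (Φ : L →+ L) hΦs hz
    rw [h12] at h3
    exact ⟨w, h1, h2, h3⟩
  have hP2 : Plus v eL Φ' ((g : ℤ) - 1) ≤ P := by
    intro z hz
    obtain ⟨w, h1, h2, h3⟩ := lang_Plus (τ := W.σ⁻¹) W.flip.vσ hσπ' hπ
      (fun h e he hu a ha => hS.inv_one W.vσ h e he hu a ha) eL Φ' hΦ's hz
    rw [h12] at h3
    have h4 : π⁻¹ • Φ (π⁻¹ • Φ' w) = w := by
      rw [hΦ'def, hΦs, hΦs, Φ.apply_symm_apply, smul_smul, smul_smul, map_mul, map_inv₀, W.σπ]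
      have : π⁻¹ * π⁻¹ * (π * π) = 1 := by field_simp
      rw [← mul_assoc] at this ⊢
      rw [this, one_smul]
    refine ⟨-(π⁻¹ • Φ' w), h2.neg, ?_, ?_⟩
    · rw [map_neg, smul_neg, h4]; exact h1.neg
    · rw [map_neg, smul_neg, h4, ← h3]; abel
  exact (sup_le hP1 hP2) hmain

end MPd27f8c
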