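import Pool.Agent.Lib.MP_d27f8c_ag.Solv

/-!
# Lattices over a principal ideal domain
-/

set_option linter.unusedSectionVars false

namespace MPd27f8c

open Module

variable {R K V ι : Type*} [CommRing R] [IsDomain R] [IsPrincipalIdealRing R] [Field K]
  [Algebra R K] [IsFractionRing R K] [AddCommGroup V] [Module K V] [Fintype ι]
variable {v : AddValuation K (WithTop ℤ)}

/-- the vector with given integral coordinates -/
noncomputable def vec (R : Type*) {K V ι : Type*} [CommRing R] [Field K] [Algebra R K]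
    [AddCommGroup V] [Module K V] [Fintype ι] (e : Basis ι K V) : (ι → R) →+ V where
  toFun f := ∑ i, algebraMap R K (f i) • e i
  map_zero' := by simp
  map_add' f g := by
    rw [← Finset.sum_add_distrib]
    refine Finset.sum_congr rfl fun i _ => ?_
    rw [Pi.add_apply, map_add, add_smul]

theorem vec_apply (e : Basis ι K V) (f : ι → R) : vec R e f = ∑ i, algebraMap R K (f i) • e i := rfl

theorem vec_smul (e : Basis ι K V) (r : R) (f : ι → R) :
    vec R e (r • f) = algebraMap R K r • vec R e f := by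
  rw [vec_apply, vec_apply, Finset.smul_sum]
  refine Finset.sum_congr rfl fun i _ => ?_
  rw [Pi.smul_apply, smul_eq_mul, map_mul, mul_smul]

theorem repr_vec (e : Basis ι K V) (f : ι → R) (i : ι) :
    e.repr (vec R e f) i = algebraMap R K (f i) := by
  rw [vec_apply, e.repr_sum_self]

theorem vec_injective (e : Basis ι K V) : Function.Injective (vec R e) := by
  intro f g h
  ext i
  have h1 := repr_vec e f i
  rw [h, repr_vec] at h1
  exact (IsFractionRing.injective R K h1).symm

theorem fil_zero_iff (hv : ∀ a : K, 0 ≤ v a ↔ ∃ r, algebraMap R K r = a) (e : Basis ι K V) (x : V) :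
    Fil v e 0 x ↔ ∃ f, vec R e f = x := by
  constructor
  · intro h
    have h1 : ∀ i, ∃ r, algebraMap R K r = e.repr x i := fun i => (hv _).1 (by simpa using h i)
    choose f hf using h1
    refine ⟨f, ?_⟩
    rw [vec_apply]
    conv_rhs => rw [← e.sum_repr x]
    exact Finset.sum_congr rfl fun i _ => by rw [hf]
  · rintro ⟨f, rfl⟩ i
    rw [repr_vec]
    have := (hv (algebraMap R K (f i))).2 ⟨_, rfl⟩
    simpa using this

theorem fil_iff_zero {π : K} (hπ : v π = 1) (e : Basis ι K V) (m : ℤ) (x : V) :
    Fil v e m x ↔ Fil v e 0 (π ^ (-m) • x) := by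
  have := Fil.smul_iff (e := e) (m := m) (x := x) (v_pow_int hπ (-m))
  rw [← this]
  simp

/-- A subspace has a basis adapted to the lattice. -/
theorem exists_lat_basis (hv : ∀ a : K, 0 ≤ v a ↔ ∃ r, algebraMap R K r = a)
    {π : K} (hπ : v π = 1) (e : Basis ι K V) (U : Submodule K V) :
    ∃ (n : ℕ) (eU : Basis (Fin n) K U), ∀ m (x : U), Fil v eU m x ↔ Fil v e m (x : V) := by
  classical
  have hπ0 : π ≠ 0 := by
    rintro rfl
    simp at hπ
  let N : Submodule R (ι → R) :=
    { carrier := {f | vec R e f ∈ U}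
      add_mem' := fun {f g} hf hg => by
        simp only [Set.mem_ofPred_eq, map_add] at *
        exact U.add_mem hf hg
      zero_mem' := by simp only [Set.mem_ofPred_eq, map_zero]; exact U.zero_mem
      smul_mem' := fun r f hf => by
        simp only [Set.mem_ofPred_eq] at *
        rw [vec_smul]
        exact U.smul_mem _ hf }
  obtain ⟨n, bN⟩ := Submodule.basisOfPid (Pi.basisFun R ι) N
  let w : Fin n → U := fun i => ⟨vec R e (bN i : ι → R), (bN i).2⟩
  have hwsum : ∀ r : Fin n → R, ((∑ i, algebraMap R K (r i) • w i : U) : V)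
      = vec R e ((∑ i, r i • bN i : N) : ι → R) := by
    intro r
    rw [Submodule.coe_sum, Submodule.coe_sum, map_sum]
    refine Finset.sum_congr rfl fun i _ => ?_
    rw [Submodule.coe_smul, Submodule.coe_smul, vec_smul]
  -- common denominators
  have hden : ∀ c : Fin n → K, ∃ T : ℤ, ∀ i, 0 ≤ v (π ^ T * c i) := by
    intro c
    choose t ht using fun i => exists_le_val (v := v) (c i)
    refine ⟨∑ i, |t i|, fun i => ?_⟩
    have h1 : |t i| ≤ ∑ i, |t i| := Finset.single_le_sum (fun j _ => abs_nonneg (t j))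
      (Finset.mem_univ i)
    have h2 := neg_abs_le (t i)
    rw [v.map_mul, v_pow_int hπ]
    have h3 := add_le_add (le_refl (((∑ i, |t i| : ℤ)) : WithTop ℤ)) (ht i)
    have h4 : ((0 : ℤ) : WithTop ℤ) ≤ (((∑ i, |t i|) + t i : ℤ) : WithTop ℤ) := by
      exact_mod_cast (by omega : 0 ≤ (∑ i, |t i|) + t i)
    refine le_trans ?_ (le_trans h4 ?_)
    · simp
    · rw [WithTop.coe_add]; exact h3
  have hli : LinearIndependent K w := by
    rw [Fintype.linearIndependent_iff]
    intro c hc
    obtain ⟨T, hT⟩ := hden c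
    choose r hr using fun i => (hv _).1 (hT i)
    have h1 : vec R e ((∑ i, r i • bN i : N) : ι → R) = 0 := by
      rw [← hwsum]
      have h2 : (∑ i, algebraMap R K (r i) • w i) = π ^ T • ∑ i, c i • w i := by
        rw [Finset.smul_sum]
        refine Finset.sum_congr rfl fun i _ => ?_
        rw [hr, mul_smul]
      rw [h2, hc, smul_zero]
      rfl
    have h2 : (∑ i, r i • bN i : N) = 0 := by
      apply Subtype.ext
      apply vec_injective (K := K) e
      rw [h1]
      simp
    have h3 := Fintype.linearIndependent_iff.1 bN.linearIndependent r h2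
    intro i
    have h4 := hr i
    rw [h3 i, map_zero] at h4
    exact (mul_eq_zero.1 h4.symm).resolve_left (zpow_ne_zero _ hπ0)
  have hint : ∀ x : U, Fil v e 0 (x : V) → ∃ r : Fin n → R, ∑ i, algebraMap R K (r i) • w i = x := by
    intro x hx
    obtain ⟨f, hf⟩ := (fil_zero_iff hv e _).1 hx
    have hfN : f ∈ N := by
      change vec R e f ∈ U
      rw [hf]; exact x.2
    refine ⟨fun i => bN.repr ⟨f, hfN⟩ i, Subtype.ext ?_⟩
    rw [hwsum, bN.sum_repr]
    exact hf
  have hspan : ⊤ ≤ Submodule.span K (Set.range w) := by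
    intro x _
    obtain ⟨m, hm⟩ := Fil.exists (v := v) e (x : V)
    have h1 := (fil_iff_zero hπ e m (x : V)).1 hm
    obtain ⟨r, hr⟩ := hint (π ^ (-m) • x) (by rw [Submodule.coe_smul]; exact h1)
    have h2 : x = π ^ m • ∑ i, algebraMap R K (r i) • w i := by
      rw [hr, smul_smul, ← zpow_add₀ hπ0]
      simp
    rw [h2]
    refine Submodule.smul_mem _ _ (Submodule.sum_mem _ fun i _ => Submodule.smul_mem _ _ ?_)
    exact Submodule.subset_span ⟨i, rfl⟩
  let eU : Basis (Fin n) K U := Basis.mk hli hspan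
  have heU : ∀ i, eU i = w i := fun i => by rw [Basis.mk_apply]
  have h0 : ∀ x : U, Fil v eU 0 x ↔ Fil v e 0 (x : V) := by
    intro x
    constructor
    · intro h
      rw [fil_zero_iff hv] at h
      obtain ⟨f, rfl⟩ := h
      rw [fil_zero_iff hv]
      rw [vec_apply]
      have h1 : ∑ i, algebraMap R K (f i) • eU i = ∑ i, algebraMap R K (f i) • w i := by
        refine Finset.sum_congr rfl fun i _ => ?_
        rw [heU]
      rw [h1, hwsum]
      exact ⟨_, rfl⟩
    · intro h
      obtain ⟨r, hr⟩ := hint x h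
      rw [fil_zero_iff hv]
      refine ⟨r, ?_⟩
      rw [vec_apply, ← hr]
      refine Finset.sum_congr rfl fun i _ => ?_
      rw [heU]
  refine ⟨n, eU, fun m x => ?_⟩
  rw [fil_iff_zero hπ eU, fil_iff_zero hπ e, h0, Submodule.coe_smul]

/-- Noetherian argument: a semilinear map which is bounded in both directions on a subspace is
bijective on the lattice. -/
theorem chain (hv : ∀ a : K, 0 ≤ v a ↔ ∃ r, algebraMap R K r = a)
    {π : K} (hπ : v π = 1) (e : Basis ι K V) (U : Submodule K V) (G : V ≃+ V) (τ : RingAut K)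
    (hτ : ∀ a, v (τ a) = v a) (hG : ∀ (a : K) (x : V), G (a • x) = τ a • G x)
    (hU : ∀ x ∈ U, G x ∈ U) (hU' : ∀ x ∈ U, G.symm x ∈ U)
    (hint : ∀ x ∈ U, Fil v e 0 x → Fil v e 0 (G x)) (C : ℤ)
    (hC : ∀ x ∈ U, Fil v e 0 x → ∀ n : ℕ, Fil v e (-C) (G.symm^[n] x)) (x : V) (hx : x ∈ U)
    (hGx : Fil v e 0 (G x)) : Fil v e 0 x := by
  classical
  have hπ0 : π ≠ 0 := by
    rintro rfl
    simp at hπ
  have hGn : ∀ (n : ℕ) (a : K) (x : V), G^[n] (a • x) = (τ ^ n) a • G^[n] x := by
    intro n
    induction n with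
    | zero => intro a x; simp
    | succ n ih =>
      intro a x
      rw [Function.iterate_succ_apply', ih, hG, Function.iterate_succ_apply', pow_succ',
        RingAut.mul_apply]
  have hGU : ∀ (n : ℕ), ∀ x ∈ U, G^[n] x ∈ U := by
    intro n
    induction n with
    | zero => intro x hx; exact hx
    | succ n ih => intro x hx; rw [Function.iterate_succ_apply']; exact hU _ (ih x hx)
  have hGU' : ∀ (n : ℕ), ∀ x ∈ U, G.symm^[n] x ∈ U := by
    intro n
    induction n with
    | zero => intro x hx; exact hx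
    | succ n ih => intro x hx; rw [Function.iterate_succ_apply']; exact hU' _ (ih x hx)
  have hcancel : ∀ (n : ℕ) (x : V), G^[n] (G.symm^[n] x) = x := by
    intro n
    exact Function.LeftInverse.iterate (fun x => G.apply_symm_apply x) n
  let N : ℕ → Submodule R (ι → R) := fun n =>
    { carrier := {f | vec R e f ∈ U ∧ Fil v e 0 (G^[n] (π ^ (-C) • vec R e f))}
      add_mem' := fun {f g} hf hg => by
        simp only [Set.mem_ofPred_eq] at *
        refine ⟨by rw [map_add]; exact U.add_mem hf.1 hg.1, ?_⟩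
        rw [map_add, smul_add, iterate_map_add]
        exact hf.2.add hg.2
      zero_mem' := by
        simp only [Set.mem_ofPred_eq, map_zero, smul_zero]
        refine ⟨U.zero_mem, ?_⟩
        rw [Function.iterate_fixed (map_zero G)]
        exact Fil.zero _
      smul_mem' := fun r f hf => by
        simp only [Set.mem_ofPred_eq] at *
        rw [vec_smul]
        refine ⟨U.smul_mem _ hf.1, ?_⟩
        rw [smul_comm, hGn]
        refine Fil.smul_int ?_ hf.2
        rw [v_pow_aut hτ]
        exact (hv _).2 ⟨r, rfl⟩ }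
  have hmono : Monotone N := by
    refine monotone_nat_of_le_succ fun n f hf => ?_
    refine ⟨hf.1, ?_⟩
    rw [Function.iterate_succ_apply']
    exact hint _ (hGU n _ (U.smul_mem _ hf.1)) hf.2
  obtain ⟨n, hn⟩ := monotone_stabilizes_iff_noetherian.2
    (inferInstance : IsNoetherian R (ι → R)) ⟨N, hmono⟩
  have hn1 : N n = N (n + 1) := hn (n + 1) (Nat.le_succ n)
  set y := G.symm^[n] x with hy
  have hyU : y ∈ U := hGU' n x hx
  have hyC : Fil v e (-C) y := by
    have h1 := hC (G x) (hU x hx) hGx (n + 1)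
    rw [Function.iterate_succ_apply, G.symm_apply_apply] at h1
    exact h1
  have h2 : Fil v e 0 (π ^ C • y) := by
    have := (fil_iff_zero hπ e (-C) y).1 hyC
    rwa [neg_neg] at this
  obtain ⟨f, hf⟩ := (fil_zero_iff hv e _).1 h2
  have h3 : π ^ (-C) • vec R e f = y := by
    rw [hf, smul_smul, ← zpow_add₀ hπ0]
    simp
  have h4 : f ∈ N (n + 1) := by
    refine ⟨by rw [hf]; exact U.smul_mem _ hyU, ?_⟩
    rw [h3, Function.iterate_succ_apply', hy, hcancel]
    exact hGx
  rw [← hn1] at h4
  have h5 := h4.2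
  rw [h3, hy, hcancel] at h5
  exact h5

end MPd27f8c
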