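import Pool.Agent.Lib.MP_d27f8c_ag.Mid
import Pool.Agent.Lib.MP_d27f8c_ag.Core

/-!
# The main theorem in abstract form
-/

set_option linter.unusedSectionVars false

namespace MPd27f8c

open Module

variable {R K V ι κ : Type*} [CommRing R] [IsDomain R] [IsPrincipalIdealRing R] [Field K]
  [Algebra R K] [IsFractionRing R K] [AddCommGroup V] [Module K V] [Fintype ι] [Fintype κ]
variable {v : AddValuation K (WithTop ℤ)} {π : K}
variable {L μ : Type*} [AddCommGroup L] [Module K L] [Fintype μ]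

/-- elements whose iterates grow -/
def Plus (v : AddValuation K (WithTop ℤ)) (eL : Basis μ K L) (Φ : L →+ L) (N : ℤ) :
    AddSubgroup L where
  carrier := {z | ∀ n : ℕ, Fil v eL (n - N + 1) (Φ^[n] z)}
  add_mem' hx hy n := by
    rw [iterate_map_add]
    exact (hx n).add (hy n)
  zero_mem' n := by
    rw [Function.iterate_fixed (map_zero Φ)]
    exact Fil.zero _
  neg_mem' hx n := by
    rw [iterate_map_neg]
    exact (hx n).neg

theorem mem_Plus {eL : Basis μ K L} {Φ : L →+ L} {N : ℤ} {z : L} :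
    z ∈ Plus v eL Φ N ↔ ∀ n : ℕ, Fil v eL (n - N + 1) (Φ^[n] z) := Iff.rfl

theorem Plus_mono {eL : Basis μ K L} {Φ : L →+ L} {N N' : ℤ} (h : N ≤ N') :
    Plus v eL Φ N ≤ Plus v eL Φ N' := fun z hz n => (hz n).mono (by omega)

theorem beta_fil {W : World K V ι v π} (eL : Basis μ K L) (β : V →ₗ[K] V →ₗ[K] L)
    (hβ : ∀ x y, Fil v W.e 0 x → Fil v W.e 0 y → Fil v eL 0 (β x y)) {m₁ m₂ : ℤ} {x y : V}
    (hx : Fil v W.e m₁ x) (hy : Fil v W.e m₂ y) : Fil v eL (m₁ + m₂) (β x y) := by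
  have h1 := hβ _ _ ((fil_iff_zero W.vπ W.e m₁ x).1 hx) ((fil_iff_zero W.vπ W.e m₂ y).1 hy)
  rw [fil_iff_zero W.vπ]
  rw [map_smul, map_smul, LinearMap.smul_apply, smul_smul, ← zpow_add₀ W.π_ne] at h1
  have h2 : -m₁ + -m₂ = -(m₁ + m₂) ∨ -m₂ + -m₁ = -(m₁ + m₂) := Or.inl (by ring)
  convert h1 using 2
  congr 1
  ring

theorem phi_iterate {W : World K V ι v π} (β : V →ₗ[K] V →ₗ[K] L) (Φ : L →+ L)
    (hΦ : ∀ x y, Φ (β x y) = β (W.F x) (W.F y)) (n : ℕ) (x y : V) :
    Φ^[n] (β x y) = β (W.Fz n x) (W.Fz n y) := by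
  induction n with
  | zero => simp
  | succ n ih =>
    rw [Function.iterate_succ_apply', ih, hΦ]
    have : ∀ x, W.Fz ((n + 1 : ℕ) : ℤ) x = W.F (W.Fz n x) := by
      intro x
      rw [← W.Fz_one, ← W.Fz_add]
      congr 2
      push_cast
      ring
    rw [this, this]

theorem Gd_le_Plus {W : World K V ι v π} (eL : Basis μ K L) (β : V →ₗ[K] V →ₗ[K] L)
    (hβ : ∀ x y, Fil v W.e 0 x → Fil v W.e 0 y → Fil v eL 0 (β x y)) (Φ : L →+ L)
    (hΦ : ∀ x y, Φ (β x y) = β (W.F x) (W.F y)) (N : ℤ) : Gd β W N ≤ Plus v eL Φ N := by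
  rw [Gd, AddSubgroup.closure_le]
  rintro z ⟨u, u', hgood, rfl⟩ n
  obtain ⟨m₁, m₂, h1, h2, h3⟩ := hgood n (Int.natCast_nonneg n)
  rw [phi_iterate β Φ hΦ]
  exact (beta_fil eL β hβ h1 h2).mono (by omega)

namespace Eig

variable {W : World K V ι v π} (E : Eig W κ)

theorem Fz_neg_fil_slope_zero (hv : ∀ a : K, 0 ≤ v a ↔ ∃ r, algebraMap R K r = a) {x : V}
    (hx : x ∈ E.sub (fun a => a = 0)) (hx0 : Fil v W.e 0 x) (n : ℕ) :
    Fil v W.e 0 (W.Fz (-(n : ℤ)) x) := by
  have h1 : ∀ q : ℕ, Fil v W.e 0 (W.Fz (-(E.s * q)) x) := by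
    intro q
    induction q with
    | zero => simpa using hx0
    | succ q ih =>
      apply E.fil_of_Fz_fil_slope_zero hv (E.Fz_mem_sub hx _)
      rw [← W.Fz_add]
      have : E.s + -(E.s * ((q + 1 : ℕ) : ℤ)) = -(E.s * q) := by push_cast; ring
      rw [this]
      exact ih
  have h2 := h1 n
  have h3 : (n : ℤ) ≤ E.s * n := by
    have := E.hs
    nlinarith [Int.natCast_nonneg n]
  have h4 := W.Fz_fil_of_nonneg (n := E.s * n - n) (by omega) h2
  rw [← W.Fz_add] at h4
  have : E.s * (n : ℤ) - n + -(E.s * n) = -(n : ℤ) := by ring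
  rwa [this] at h4

theorem slope_zero_mem (hv : ∀ a : K, 0 ≤ v a ↔ ∃ r, algebraMap R K r = a)
    (eL : Basis μ K L) (β : V →ₗ[K] V →ₗ[K] L)
    (hβ : ∀ x y, Fil v W.e 0 x → Fil v W.e 0 y → Fil v eL 0 (β x y)) (Φ' : L →+ L)
    (hΦ' : ∀ x y, Φ' (β x y) = β (W.flip.F x) (W.flip.F y)) {x y : V}
    (hx : x ∈ E.sub (fun a => a = 0)) (hx0 : Fil v W.e 0 x) (hy0 : Fil v W.e 0 y) :
    β x y ∈ Plus v eL Φ' 1 ∧ β y x ∈ Plus v eL Φ' 1 := by
  have h1 : ∀ n : ℕ, Fil v W.e n (W.flip.Fz n x) := by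
    intro n
    rw [W.flip_Fz]
    have := Fil.smul (W.v_π_zpow n).ge (E.Fz_neg_fil_slope_zero hv hx hx0 n)
    simpa using this
  have h2 : ∀ n : ℕ, Fil v W.e 0 (W.flip.Fz n y) := fun n =>
    W.flip.Fz_fil_of_nonneg (Int.natCast_nonneg n) hy0
  constructor
  · intro n
    rw [phi_iterate (W := W.flip) β Φ' hΦ']
    exact (beta_fil (W := W) eL β hβ (h1 n) (h2 n)).mono (by omega)
  · intro n
    rw [phi_iterate (W := W.flip) β Φ' hΦ']
    exact (beta_fil (W := W) eL β hβ (h2 n) (h1 n)).mono (by omega)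

theorem sym_ne (ψ : LinearMap.BilinForm K V)
    (hψF : ∀ y z, ψ (W.F y) (W.F z) = π * W.σ (ψ y z)) {j j' : κ} (hj' : ψ (E.b j) (E.b j') ≠ 0) :
    E.r j + E.r j' = E.s := by
  have hpow : ∀ n : ℕ, ∀ y z, ψ (W.Fz n y) (W.Fz n z) = π ^ (n : ℤ) * (W.σ ^ (n : ℤ)) (ψ y z) := by
    intro n
    induction n with
    | zero => intro y z; simp
    | succ n ih =>
      intro y z
      push_cast
      rw [add_comm, W.Fz_add, W.Fz_add, W.Fz_one, W.Fz_one, hψF, ih, map_mul]
      have h1 : W.σ (π ^ (n : ℤ)) = π ^ (n : ℤ) := by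
        have := W.σ_zpow_π 1 n
        simpa using this
      rw [h1, zpow_add₀ W.π_ne, zpow_one, mul_assoc, zpow_add, zpow_one, RingAut.mul_apply]
  have h1 := hpow E.s.toNat (E.b j) (E.b j')
  rw [Int.toNat_of_nonneg E.hs.le, E.heig, E.heig] at h1
  simp only [map_smul, LinearMap.smul_apply, smul_eq_mul] at h1
  have h2 := congrArg v h1
  rw [v.map_mul, v.map_mul, v.map_mul, W.v_σz, W.v_π_zpow, W.v_π_zpow, W.v_π_zpow] at h2
  obtain ⟨m, hm⟩ := exists_val (v := v) hj'
  rw [hm] at h2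
  have h3 : E.r j' + (E.r j + m) = E.s + m := by exact_mod_cast h2
  omega

/-- the restriction of the form to the part of intermediate slopes is nondegenerate -/
theorem nondeg_mid (ψ : LinearMap.BilinForm K V) (hψ : ψ.Nondegenerate) (halt : ∀ x, ψ x x = 0)
    (hψF : ∀ y z, ψ (W.F y) (W.F z) = π * W.σ (ψ y z)) :
    LinearMap.BilinForm.Nondegenerate
      (ψ.compl₁₂ (E.sub E.Mid).subtype (E.sub E.Mid).subtype) := by
  classical
  have hskew : ∀ x y, ψ x y = -ψ y x := by
    intro x y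
    have h := halt (x + y)
    simp only [map_add, LinearMap.add_apply, halt, zero_add, add_zero] at h
    exact eq_neg_of_add_eq_zero_right h
  have hleft : ∀ x : E.sub E.Mid, (∀ y : E.sub E.Mid, ψ (x : V) (y : V) = 0) → x = 0 := by
    intro x hx
    apply Subtype.ext
    apply hψ.1
    intro y
    have hb : ∀ j, ψ (x : V) (E.b j) = 0 := by
      intro j
      by_cases hj : E.Mid (E.r j)
      · have hmem : E.b j ∈ E.sub E.Mid := by
          intro i hi
          rw [Basis.repr_self, Finsupp.single_eq_of_ne]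
          rintro rfl
          exact hi hj
        exact hx ⟨E.b j, hmem⟩
      · rw [← E.b.sum_repr (x : V), map_sum, LinearMap.sum_apply]
        refine Finset.sum_eq_zero fun i _ => ?_
        rw [map_smul, LinearMap.smul_apply]
        by_cases hi : E.Mid (E.r i)
        · have : ψ (E.b i) (E.b j) = 0 := by
            by_contra hne
            have h1 := E.sym_ne ψ hψF hne
            apply hj
            obtain ⟨h2, h3⟩ := hi
            exact ⟨by omega, by omega⟩
          rw [this, smul_zero]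
        · rw [x.2 i hi, zero_smul]
    rw [← E.b.sum_repr y, map_sum]
    refine Finset.sum_eq_zero fun j _ => ?_
    rw [map_smul, hb, smul_zero]
  refine ⟨fun x hx => hleft x fun y => hx y, fun y hy => hleft y fun x => ?_⟩
  rw [hskew]
  have : ψ (x : V) (y : V) = 0 := hy x
  rw [this, neg_zero]

end Eig

theorem mainThm [CharZero K] (hv : ∀ a : K, 0 ≤ v a ↔ ∃ r, algebraMap R K r = a)
    {W : World K V ι v π} (E : Eig W κ) {s' : ℤ} (hs' : E.s = 2 * s')
    (hσ : ∃ t : K, ∀ n m : ℕ, n ≠ m → (W.σ ^ (n : ℤ)) t ≠ (W.σ ^ (m : ℤ)) t)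
    (ψ : LinearMap.BilinForm K V) (hψ : ψ.Nondegenerate) (halt : ∀ x, ψ x x = 0)
    (hψF : ∀ y z, ψ (W.F y) (W.F z) = π * W.σ (ψ y z))
    {g : ℕ} (hg : 2 ≤ g) (hdim : finrank K V = 2 * g) (hns : ∃ j, 2 * E.r j ≠ E.s)
    (eL : Basis μ K L) (β : V →ₗ[K] V →ₗ[K] L) (hβalt : ∀ x, β x x = 0)
    (hβ : ∀ x y, Fil v W.e 0 x → Fil v W.e 0 y → Fil v eL 0 (β x y)) (Φ Φ' : L →+ L)
    (hΦ : ∀ x y, Φ (β x y) = β (W.F x) (W.F y))
    (hΦ' : ∀ x y, Φ' (β x y) = β (W.flip.F x) (W.flip.F y))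
    (x y : V) (hx : Fil v W.e 0 x) (hy : Fil v W.e 0 y) :
    β x y ∈ Plus v eL Φ ((g : ℤ) - 1) ⊔ Plus v eL Φ' ((g : ℤ) - 1) := by
  classical
  set G := Plus v eL Φ ((g : ℤ) - 1) ⊔ Plus v eL Φ' ((g : ℤ) - 1) with hG
  have hG1 : ∀ {N : ℤ}, N ≤ (g : ℤ) - 1 → Plus v eL Φ N ≤ G := fun hN =>
    (Plus_mono hN).trans le_sup_left
  have hG2 : ∀ {N : ℤ}, N ≤ (g : ℤ) - 1 → Plus v eL Φ' N ≤ G := fun hN =>
    (Plus_mono hN).trans le_sup_right
  have hs := E.hs
  -- slope zero and slope one parts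
  have hzero : ∀ {x y : V}, x ∈ E.sub (fun a => a = 0) → Fil v W.e 0 x → Fil v W.e 0 y →
      β x y ∈ G ∧ β y x ∈ G := by
    intro x y hxs hx hy
    obtain ⟨h1, h2⟩ := E.slope_zero_mem hv eL β hβ Φ' hΦ' hxs hx hy
    exact ⟨hG2 (by omega) h1, hG2 (by omega) h2⟩
  have hone : ∀ {x y : V}, x ∈ E.sub (fun a => a = E.s) → Fil v W.e 0 x → Fil v W.e 0 y →
      β x y ∈ G ∧ β y x ∈ G := by
    intro x y hxs hx hy
    have hxs' : x ∈ E.flip.sub (fun a => a = 0) := by
      intro j hj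
      apply hxs j
      rw [E.flip_r] at hj
      omega
    have hΦ2 : ∀ x y, Φ (β x y) = β (W.flip.flip.F x) (W.flip.flip.F y) := by
      intro x y
      rw [hΦ]
      have : ∀ x, W.flip.flip.F x = W.F x := by
        intro x
        rw [← World.Fz_one, W.flip_flip_Fz, W.Fz_one]
      rw [this, this]
    obtain ⟨h1, h2⟩ := E.flip.slope_zero_mem hv eL β hβ Φ hΦ2 hxs' hx hy
    exact ⟨hG1 (by omega) h1, hG1 (by omega) h2⟩
  -- intermediate part
  have hmid : ∀ {x y : V}, x ∈ E.sub E.Mid → y ∈ E.sub E.Mid → Fil v W.e 0 x → Fil v W.e 0 y →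
      β x y ∈ G := by
    set U := E.sub E.Mid with hU
    obtain ⟨n, eU, heU⟩ := exists_lat_basis (R := R) hv W.vπ W.e U
    have hUF : ∀ x ∈ U, W.F x ∈ U := fun x hx => E.sub_F x hx
    have hUF' : ∀ x ∈ U, W.F.symm x ∈ U := fun x hx => E.sub_F_symm x hx
    let W' := W.restrict U hUF hUF' eU heU
    obtain ⟨bU, hbU⟩ := E.exists_sub_basis E.Mid
    let E' : Eig W' {j // E.Mid (E.r j)} :=
      { s := E.s
        hs := E.hs
        b := bU
        r := fun j => E.r j
        heig := fun j => by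
          apply Subtype.ext
          rw [W.restrict_Fz_coe U hUF hUF' eU heU, hbU, E.heig, Submodule.coe_smul, hbU] }
    set ψ' := ψ.compl₁₂ U.subtype U.subtype with hψ'
    have hψ'nd := E.nondeg_mid ψ hψ halt hψF
    have hψ'alt : ∀ x, ψ' x x = 0 := fun x => halt _
    obtain ⟨g', hg'⟩ := even_of_alt ψ' hψ'nd hψ'alt eU
    rw [Fintype.card_fin] at hg'
    have hdimU : finrank K U = 2 * g' := by
      rw [finrank_eq_card_basis eU, Fintype.card_fin, hg']; ring
    have hcardU : finrank K U = Fintype.card {j // E.Mid (E.r j)} := finrank_eq_card_basis bU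
    have hcardV : finrank K V = Fintype.card κ := finrank_eq_card_basis E.b
    have hN : (∃ N : ℤ, NCond E' g' N ∧ N ≤ (g : ℤ) - 1 ∧ (g' ≠ 0 → 1 ≤ N)) := by
      by_cases hall : ∀ j, E.Mid (E.r j)
      · refine ⟨(g : ℤ) - 1, Or.inr ⟨?_, ?_⟩, le_rfl, fun _ => by omega⟩
        · have h1 : Fintype.card {j // E.Mid (E.r j)} = Fintype.card κ :=
            Fintype.card_congr (Equiv.subtypeUnivEquiv hall)
          have : g' = g := by omega
          rw [this]
        · obtain ⟨j, hj⟩ := hns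
          exact ⟨⟨j, hall j⟩, hj⟩
      · push Not at hall
        obtain ⟨j₀, hj₀⟩ := hall
        obtain ⟨j₁, hj₁⟩ := E.sym ψ hψ hψF j₀
        have h0 := E.r_nonneg j₀
        have h0' := E.r_le j₀
        have hnm : E.r j₀ = 0 ∨ E.r j₀ = E.s := by
          unfold Eig.Mid at hj₀
          by_contra hc
          push Not at hc
          exact hj₀ ⟨lt_of_le_of_ne h0 (Ne.symm hc.1), lt_of_le_of_ne h0' hc.2⟩
        have hne : j₀ ≠ j₁ := by
          rintro rfl
          rcases hnm with h1 | h1 <;> omega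
        have hj₁' : ¬ E.Mid (E.r j₁) := by
          rintro ⟨h1, h2⟩
          rcases hnm with h3 | h3 <;> omega
        have hcard : Fintype.card {j // E.Mid (E.r j)} + 2 ≤ Fintype.card κ := by
          rw [Fintype.card_subtype]
          have h1 : Disjoint (Finset.univ.filter fun j => E.Mid (E.r j)) {j₀, j₁} := by
            rw [Finset.disjoint_left]
            intro j hj hj'
            rw [Finset.mem_filter] at hj
            rw [Finset.mem_insert, Finset.mem_singleton] at hj'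
            rcases hj' with rfl | rfl
            · exact hj₀ hj.2
            · exact hj₁' hj.2
          have h2 := Finset.card_union_of_disjoint h1
          rw [Finset.card_pair hne] at h2
          rw [← h2]
          exact Finset.card_le_univ _
        refine ⟨g', Or.inl rfl, by omega, fun h => by omega⟩
    obtain ⟨N, hNC, hNle, hN1⟩ := hN
    intro x y hxU hyU hx hy
    by_cases hg'0 : g' = 0
    · have h1 : finrank K U = 0 := by rw [hdimU, hg'0]
      have hfinU : Module.Finite K U := Module.Finite.of_basis eU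
      have h2 : Subsingleton U := finrank_zero_iff.1 h1
      have h3 : (⟨x, hxU⟩ : U) = 0 := Subsingleton.elim _ _
      have h4 : x = 0 := congrArg Subtype.val h3
      rw [h4, map_zero, LinearMap.zero_apply]
      exact G.zero_mem
    · have hcore := core (β.compl₁₂ U.subtype U.subtype) (fun x => hβalt _) (W := W') E'
        (fun j => j.2.1) (fun j => j.2.2) hs' hσ ψ' hψ'nd (fun y z => hψF y z)
        (g := g') (by omega) hdimU hNC (hN1 hg'0) ⟨x, hxU⟩ ⟨y, hyU⟩ ((heU 0 _).2 hx)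
        ((heU 0 _).2 hy)
      have hβ' : ∀ x y : U, Fil v W'.e 0 x → Fil v W'.e 0 y →
          Fil v eL 0 (β.compl₁₂ U.subtype U.subtype x y) := fun x y hx hy =>
        hβ _ _ ((heU 0 x).1 hx) ((heU 0 y).1 hy)
      have h1 := Gd_le_Plus eL (β.compl₁₂ U.subtype U.subtype) hβ' Φ
        (fun x y => hΦ (x : V) (y : V)) N
      have h2 := Gd_le_Plus (W := W'.flip) eL (β.compl₁₂ U.subtype U.subtype) hβ' Φ'
        (fun x y => hΦ' (x : V) (y : V)) N
      exact (sup_le (h1.trans (hG1 hNle)) (h2.trans (hG2 hNle))) hcore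
  -- assembling
  have hx0 := E.pr_zero_fil hv hx
  have hxm := E.pr_mid_fil hv hx
  have hxs := E.pr_s_fil hv hx
  have hy0 := E.pr_zero_fil hv hy
  have hym := E.pr_mid_fil hv hy
  have hys := E.pr_s_fil hv hy
  have hxe := E.split x
  have hye := E.split y
  set x0 := E.pr (fun a => a = 0) x with hx0d
  set xm := E.pr E.Mid x with hxmd
  set xs := E.pr (fun a => a = E.s) x with hxsd
  set y0 := E.pr (fun a => a = 0) y with hy0d
  set ym := E.pr E.Mid y with hymd
  set ys := E.pr (fun a => a = E.s) y with hysd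
  have e1 : β x y = β x0 y + β xs y + β xm y0 + β xm ys + β xm ym := by
    have e2 : β x y = β x0 y + β xm y + β xs y := by
      rw [← LinearMap.add_apply, ← LinearMap.add_apply, ← map_add, ← map_add, ← hxe]
    have e3 : β xm y = β xm y0 + β xm ym + β xm ys := by
      rw [← map_add, ← map_add, ← hye]
    rw [e2, e3]
    abel
  rw [e1]
  refine G.add_mem (G.add_mem (G.add_mem (G.add_mem ?_ ?_) ?_) ?_) ?_
  · exact (hzero (E.pr_mem _ _) hx0 hy).1
  · exact (hone (E.pr_mem _ _) hxs hy).1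
  · exact (hzero (E.pr_mem _ _) hy0 hxm).2
  · exact (hone (E.pr_mem _ _) hys hxm).2
  · exact hmid (E.pr_mem _ _) (E.pr_mem _ _) hxm hym

end MPd27f8c
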