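import Pool.Agent.Lib.MP_d27f8c_ag.Split

/-!
# The part of intermediate slopes
-/

set_option linter.unusedSectionVars false

namespace MPd27f8c

open Module

variable {R K V ι κ : Type*} [CommRing R] [IsDomain R] [IsPrincipalIdealRing R] [Field K]
  [Algebra R K] [IsFractionRing R K] [AddCommGroup V] [Module K V] [Fintype ι] [Fintype κ]
variable {v : AddValuation K (WithTop ℤ)} {π : K}

/-- restriction of a world to a stable subspace -/
def World.restrict (W : World K V ι v π) (U : Submodule K V) (hU : ∀ x ∈ U, W.F x ∈ U)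
    (hU' : ∀ x ∈ U, W.F.symm x ∈ U) {n : ℕ} (eU : Basis (Fin n) K U)
    (he : ∀ m (x : U), Fil v eU m x ↔ Fil v W.e m (x : V)) : World K U (Fin n) v π where
  σ := W.σ
  F :=
    { toFun := fun x => ⟨W.F (x : V), hU x x.2⟩
      invFun := fun x => ⟨W.F.symm (x : V), hU' x x.2⟩
      left_inv := fun x => Subtype.ext (W.F.symm_apply_apply (x : V))
      right_inv := fun x => Subtype.ext (W.F.apply_symm_apply (x : V))
      map_add' := fun x y => Subtype.ext (map_add W.F (x : V) (y : V)) }
  e := eU
  vπ := W.vπ
  vσ := W.vσ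
  σπ := W.σπ
  semi := fun a x => Subtype.ext (W.semi a x)
  F_int := fun x hx => by
    rw [he] at hx ⊢
    exact W.F_int _ hx
  V_int := fun x hx => by
    rw [he] at hx ⊢
    exact W.V_int _ hx

section

variable (W : World K V ι v π) (U : Submodule K V) (hU : ∀ x ∈ U, W.F x ∈ U)
    (hU' : ∀ x ∈ U, W.F.symm x ∈ U) {n : ℕ} (eU : Basis (Fin n) K U)
    (he : ∀ m (x : U), Fil v eU m x ↔ Fil v W.e m (x : V))

theorem World.restrict_F_coe (x : U) : (((W.restrict U hU hU' eU he).F x : U) : V) = W.F x := rfl

theorem World.restrict_F_symm_coe (x : U) :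
    (((W.restrict U hU hU' eU he).F.symm x : U) : V) = W.F.symm x := rfl

theorem World.restrict_Fz_coe (n : ℤ) (x : U) :
    (((W.restrict U hU hU' eU he).Fz n x : U) : V) = W.Fz n x := by
  induction n using Int.induction_on generalizing x with
  | zero => simp
  | succ n ih =>
    rw [World.Fz_add, ih, W.Fz_add, World.Fz_one, World.restrict_F_coe, W.Fz_one]
  | pred n ih =>
    rw [sub_eq_add_neg, World.Fz_add, ih, W.Fz_add, World.Fz_neg_one, World.restrict_F_symm_coe,
      W.Fz_neg_one]

theorem World.restrict_flip_Fz_coe (n : ℤ) (x : U) :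
    (((W.restrict U hU hU' eU he).flip.Fz n x : U) : V) = W.flip.Fz n x := by
  rw [World.flip_Fz, World.flip_Fz, Submodule.coe_smul, World.restrict_Fz_coe]

end

namespace Eig

variable {W : World K V ι v π} (E : Eig W κ)

/-- eigenbasis of the subspace of prescribed slopes -/
theorem exists_sub_basis (P : ℤ → Prop) :
    ∃ b : Basis {j // P (E.r j)} K (E.sub P), ∀ j, ((b j : E.sub P) : V) = E.b j := by
  classical
  have hmem : ∀ j : {j // P (E.r j)}, E.b j ∈ E.sub P := by
    intro j i hi
    rw [Basis.repr_self, Finsupp.single_eq_of_ne]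
    rintro rfl
    exact hi j.2
  let w : {j // P (E.r j)} → E.sub P := fun j => ⟨E.b j, hmem j⟩
  have hli : LinearIndependent K w := by
    apply LinearIndependent.of_comp (E.sub P).subtype
    exact E.b.linearIndependent.comp (fun j : {j // P (E.r j)} => (j : κ)) Subtype.val_injective
  have hspan : ⊤ ≤ Submodule.span K (Set.range w) := by
    intro x _
    have h1 : x = ∑ j : {j // P (E.r j)}, (E.b.repr (x : V) j) • w j := by
      apply Subtype.ext
      rw [Submodule.coe_sum]
      simp only [Submodule.coe_smul]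
      conv_lhs => rw [← E.b.sum_repr (x : V)]
      symm
      have h2 := Finset.sum_subtype (F := inferInstance)
        (s := Finset.univ.filter fun j => P (E.r j))
        (p := fun j => P (E.r j)) (by simp) (fun j => (E.b.repr (x : V) j) • E.b j)
      rw [← h2]
      apply Finset.sum_subset (Finset.filter_subset _ _)
      intro j _ hj
      rw [x.2 j (by simpa using hj), zero_smul]
    rw [h1]
    exact Submodule.sum_mem _ fun j _ => Submodule.smul_mem _ _ (Submodule.subset_span ⟨j, rfl⟩)
  refine ⟨Basis.mk hli hspan, fun j => ?_⟩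
  rw [Basis.mk_apply]

theorem sub_F {P : ℤ → Prop} (x : V) (hx : x ∈ E.sub P) : W.F x ∈ E.sub P := by
  have := E.Fz_mem_sub hx 1
  rwa [W.Fz_one] at this

theorem sub_F_symm {P : ℤ → Prop} (x : V) (hx : x ∈ E.sub P) : W.F.symm x ∈ E.sub P := by
  have := E.Fz_mem_sub hx (-1)
  rwa [W.Fz_neg_one] at this

end Eig

/-- an alternating nondegenerate form lives on an even dimensional space -/
theorem even_of_alt [CharZero K] (ψ : LinearMap.BilinForm K V) (hψ : ψ.Nondegenerate)
    (halt : ∀ x, ψ x x = 0) (e : Basis ι K V) : Even (Fintype.card ι) := by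
  classical
  have hdet := (LinearMap.BilinForm.nondegenerate_iff_det_ne_zero e).1 hψ
  set M := LinearMap.BilinForm.toMatrix e ψ with hM
  have hskew : ∀ x y, ψ x y = -ψ y x := by
    intro x y
    have h := halt (x + y)
    simp only [map_add, LinearMap.add_apply, halt, zero_add, add_zero] at h
    exact eq_neg_of_add_eq_zero_right h
  have hT : M.transpose = -M := by
    ext i j
    rw [Matrix.transpose_apply, Matrix.neg_apply, hM, LinearMap.BilinForm.toMatrix_apply,
      LinearMap.BilinForm.toMatrix_apply]
    exact hskew _ _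
  have h1 : M.det = (-1) ^ Fintype.card ι * M.det := by
    rw [← Matrix.det_neg, ← hT, Matrix.det_transpose]
  by_contra hodd
  rw [Nat.not_even_iff_odd] at hodd
  rw [hodd.neg_one_pow] at h1
  have h2 : (2 : K) * M.det = 0 := by linear_combination h1
  rcases mul_eq_zero.1 h2 with h3 | h3
  · exact two_ne_zero h3
  · exact hdet h3

end MPd27f8c
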