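import Pool.Agent.Lib.MP_d27f8c_ag.SemiB
import Pool.Agent.Lib.MP_d27f8c_ag.Last
import Pool.Agent.Lib.MP_d27f8c_ag.DMc

/-!
# The theorem for semilinear maps in the sense of Mathlib
-/

set_option linter.unusedSectionVars false

universe u v

open Module

open scoped TensorProduct

namespace MPd27f8c

section Proof

variable {p : ℕ} [hp : Fact p.Prime] {k : Type u} [Field k] [IsAlgClosed k] [CharP k p]
variable {M : Type v} [AddCommGroup M] [Module (WittVector p k) M]

/-- The `p`-exponent of `U_A` is at most `g - 2` for a non-supersingular abelian variety `A` of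
dimension `g ≥ 2`, in terms of the Dieudonné module of `A`. -/
theorem semi_result (p : ℕ) [Fact p.Prime] (k : Type u) [Field k] [IsAlgClosed k] [CharP k p]
    (g : ℕ) (hg : 2 ≤ g) (M : Type v) [AddCommGroup M] [Module (WittVector p k) M]
    (F : M →ₛₗ[frob p k] M) (V : M →ₛₗ[frobInv p k] M)
    (ψ : M →ₗ[WittVector p k] M →ₗ[WittVector p k] WittVector p k)
    (hM : IsPolarisedDieudonneModule g F V ψ) (hns : ¬ IsSupersingular F) :
    KillsUPointsSq p F (g - 2) := by
  classical
  have hfree := hM.free
  have hfinite := hM.finite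
  let e := Module.finBasis (WittVector p k) M
  have hFV : ∀ x, F (V x) = (p : WittVector p k) ^ 1 • x := fun x => by rw [pow_one, hM.isFVPair.F_V]
  have hVF : ∀ x, V (F x) = (p : WittVector p k) ^ 1 • x := fun x => by rw [pow_one, hM.isFVPair.V_F]
  let W := world e hFV hVF
  have hKfin : Module.Finite (KK p k) (KK p k ⊗[WittVector p k] M) := inferInstance
  have hdim : finrank (KK p k) (KK p k ⊗[WittVector p k] M) = 2 * g := by
    rw [Module.finrank_baseChange, hM.finrank_eq]
  -- eigenbasis
  obtain ⟨s', hs', b, r, hb⟩ := exists_eigenbasis (v := vv p k) W.vσ W.vπ W.σπ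
    (fun m hm => solv_sig p k m hm) W.F W.semi
  have hWn : ∀ (n : ℕ) (x : KK p k ⊗[WittVector p k] M), W.Fz n x = (extF F)^[n] x := by
    intro n x
    have h1 := W.Fz_iterate 1 n x
    rw [one_mul] at h1
    rw [← h1]
    have h2 : (W.Fz 1 : _ → _) = extF F := by
      funext y
      rw [W.Fz_one]; rfl
    rw [h2]
  let E : Eig W (Fin (finrank (KK p k) (KK p k ⊗[WittVector p k] M))) :=
    { s := 2 * (s' : ℤ)
      hs := by omega
      b := b
      r := r
      heig := fun i => by
        have h1 := hWn (2 * s') (b i)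
        have h2 := hb i
        push_cast at h1
        rw [h1]
        exact h2 }
  have hns' : ∃ j, 2 * E.r j ≠ E.s := by
    by_contra hcon
    push Not at hcon
    apply hns
    intro r₀ s₀ ⟨hs₀, x, hx, hFx⟩
    have hx1 : (1 : KK p k) ⊗ₜ[WittVector p k] x ≠ 0 := by
      intro h0
      apply hx
      apply one_tmul_injective (K := KK p k) e
      rw [h0, TensorProduct.tmul_zero]
    have h1 : W.Fz s₀ ((1 : KK p k) ⊗ₜ[WittVector p k] x)
        = (p : KK p k) ^ (r₀ : ℤ) • ((1 : KK p k) ⊗ₜ[WittVector p k] x) := by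
      rw [hWn, F_iterate_tmul, hFx, ← TensorProduct.smul_tmul, TensorProduct.smul_tmul',
        Algebra.smul_def, smul_eq_mul, map_pow, map_natCast, zpow_natCast]
    have h2 := Eig.Fz_eig h1 E.s
    obtain ⟨j, hj⟩ : ∃ j, E.b.repr ((1 : KK p k) ⊗ₜ[WittVector p k] x) j ≠ 0 := by
      by_contra hc
      push Not at hc
      apply hx1
      apply E.b.repr.injective
      ext j
      rw [hc j]; simp
    have h3 := E.repr_Fz s₀ ((1 : KK p k) ⊗ₜ[WittVector p k] x) j
    rw [mul_comm E.s, h2, map_smul, Finsupp.smul_apply, smul_eq_mul] at h3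
    have h4 := congrArg (vv p k) h3
    rw [(vv p k).map_mul, (vv p k).map_mul, W.v_σz, W.v_π_zpow, W.v_π_zpow] at h4
    obtain ⟨m, hm⟩ := exists_val (v := vv p k) hj
    rw [hm] at h4
    have h5 : (r₀ : ℤ) * E.s + m = m + E.r j * s₀ := by exact_mod_cast h4
    have h6 := hcon j
    have h7 : (2 * (r₀ : ℤ) - s₀) * E.r j = 0 := by
      rw [← h6] at h5
      linarith
    have h8 : E.r j ≠ 0 := by
      have := E.hs
      omega
    have h9 := (mul_eq_zero.1 h7).resolve_right h8
    omega
  -- the form
  have hscale := fun x => exists_scale (vv_int p k) (vv_p p k) e x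
  let ψK : LinearMap.BilinForm (KK p k) (KK p k ⊗[WittVector p k] M) :=
    LinearMap.BilinForm.baseChange (KK p k) ψ
  have hψK : ∀ (a c : KK p k) (m n : M), ψK (a ⊗ₜ m) (c ⊗ₜ n) =
      algebraMap (WittVector p k) (KK p k) (ψ m n) * (a * c) := by
    intro a c m n
    rw [← Algebra.smul_def]
    exact LinearMap.BilinForm.baseChange_tmul ψ a m c n
  have hψskew : ∀ m n : M, ψ m n = -ψ n m := by
    intro m n
    have h := hM.isAltForm.self_eq_zero (m + n)
    simp only [map_add, LinearMap.add_apply, hM.isAltForm.self_eq_zero, zero_add, add_zero] at h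
    exact eq_neg_of_add_eq_zero_right h
  have halt : ∀ x, ψK x x = 0 := by
    intro x
    obtain ⟨T, m, rfl⟩ := hscale x
    rw [map_smul, map_smul, LinearMap.smul_apply, hψK, hM.isAltForm.self_eq_zero]
    simp
  have hskew : ∀ x y, ψK x y = -ψK y x := by
    intro x y
    have h := halt (x + y)
    simp only [map_add, LinearMap.add_apply, halt, zero_add, add_zero] at h
    exact eq_neg_of_add_eq_zero_right h
  have hleft : ∀ x, (∀ y, ψK x y = 0) → x = 0 := by
    intro x hx
    obtain ⟨T, m, rfl⟩ := hscale x
    have h1 : m = 0 := by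
      apply hM.isAltForm.nondegenerate
      intro n
      have h2 := hx (1 ⊗ₜ n)
      rw [map_smul, LinearMap.smul_apply, hψK, smul_eq_mul] at h2
      have h3 := (mul_eq_zero.1 h2).resolve_left (zpow_ne_zero _ pK_ne)
      rw [one_mul, mul_one] at h3
      exact (FaithfulSMul.algebraMap_eq_zero_iff _ _).1 h3
    rw [h1, TensorProduct.tmul_zero, smul_zero]
  have hnd : ψK.Nondegenerate := by
    refine ⟨hleft, fun y hy => hleft y fun x => ?_⟩
    rw [hskew, hy x, neg_zero]
  have hFF : ∀ m n : M, ψ (F m) (F n) = p * frob p k (ψ m n) := by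
    intro m n
    rw [hM.isAdjoint, hM.isFVPair.V_F, map_smul, smul_eq_mul, map_mul, map_natCast]
  have hψF : ∀ y z, ψK (W.F y) (W.F z) = (p : KK p k) * W.σ (ψK y z) := by
    intro y z
    change ψK (extF F y) (extF F z) = (p : KK p k) * sig p k (ψK y z)
    induction y using TensorProduct.induction_on with
    | zero => simp
    | add a c ha hc =>
      rw [map_add, map_add, LinearMap.add_apply, ha, hc, map_add, LinearMap.add_apply, map_add,
        mul_add]
    | tmul a m =>
      induction z using TensorProduct.induction_on with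
      | zero => simp
      | add c d hc hd => rw [map_add, map_add, hc, hd, map_add, map_add, mul_add]
      | tmul c n =>
        rw [extF_tmul, extF_tmul, hψK, hψK, hFF, map_mul, map_mul, map_mul, map_natCast,
          sig_algebraMap]
        ring
  -- the exterior square
  let eL := Module.finBasis (WittVector p k) (ExtSq (WittVector p k) M)
  have hLFV : ∀ z, wedgeSq F (wedgeSq V z) = (p : WittVector p k) ^ 2 • z := by
    intro z
    induction z using wedge_induction with
    | h0 => simp
    | hadd x y hx hy => rw [map_add, map_add, hx, hy, smul_add]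
    | hw x y =>
      rw [wedgeSq_wedge, wedgeSq_wedge, hM.isFVPair.F_V, hM.isFVPair.F_V, map_smul, map_smul, LinearMap.smul_apply,
        smul_smul, pow_two]
  have hLVF : ∀ z, wedgeSq V (wedgeSq F z) = (p : WittVector p k) ^ 2 • z := by
    intro z
    induction z using wedge_induction with
    | h0 => simp
    | hadd x y hx hy => rw [map_add, map_add, hx, hy, smul_add]
    | hw x y =>
      rw [wedgeSq_wedge, wedgeSq_wedge, hM.isFVPair.V_F, hM.isFVPair.V_F, map_smul, map_smul, LinearMap.smul_apply,
        smul_smul, pow_two]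
  let Φ := extE hLFV hLVF
  have hΦa : ∀ z, Φ z = extF (wedgeSq F) z := fun z => rfl
  let β : (KK p k ⊗[WittVector p k] M) →ₗ[KK p k] (KK p k ⊗[WittVector p k] M) →ₗ[KK p k]
      (KK p k ⊗[WittVector p k] (ExtSq (WittVector p k) M)) :=
    LinearMap.BilinMap.baseChange (KK p k) (wedge (WittVector p k) M)
  have hβ : ∀ (a c : KK p k) (m n : M), β (a ⊗ₜ m) (c ⊗ₜ n) =
      (a * c) ⊗ₜ (wedge (WittVector p k) M m n) := fun a c m n =>
    LinearMap.BilinMap.baseChange_tmul (wedge (WittVector p k) M) a m c n
  have hβalt : ∀ x, β x x = 0 := by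
    intro x
    obtain ⟨T, m, rfl⟩ := hscale x
    rw [map_smul, map_smul, LinearMap.smul_apply, hβ, wedge_self, TensorProduct.tmul_zero,
      smul_zero, smul_zero]
  have hβint : ∀ x y, Fil (vv p k) W.e 0 x → Fil (vv p k) W.e 0 y →
      Fil (vv p k) (eL.baseChange (KK p k)) 0 (β x y) := by
    intro x y hx hy
    obtain ⟨m, rfl⟩ := (fil_tensor (vv_int p k) e x).1 hx
    obtain ⟨n, rfl⟩ := (fil_tensor (vv_int p k) e y).1 hy
    rw [fil_tensor (vv_int p k), hβ, mul_one]
    exact ⟨_, rfl⟩
  have hΦ : ∀ x y, Φ (β x y) = β (W.F x) (W.F y) := by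
    intro y z
    change extF (wedgeSq F) (β y z) = β (extF F y) (extF F z)
    induction y using TensorProduct.induction_on with
    | zero => simp
    | add a c ha hc =>
      rw [map_add, map_add, LinearMap.add_apply, map_add, ha, hc, map_add, LinearMap.add_apply]
    | tmul a m =>
      induction z using TensorProduct.induction_on with
      | zero => simp
      | add c d hc hd => rw [map_add, map_add, hc, hd, map_add, map_add]
      | tmul c n =>
        rw [extF_tmul, extF_tmul, hβ, hβ, extF_tmul, wedgeSq_wedge, map_mul]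
  have hchar : CharZero (KK p k) := charZero_KK p k
  have hS : Solv (vv p k) W.σ := by
    have := solv_sig p k 1 one_pos
    rwa [pow_one] at this
  -- conclusion on generators
  have hgen : ∀ x y : M, (p : WittVector p k) ^ (g - 2) • wedge (WittVector p k) M x y ∈
      nygaardImage p (wedgeSq F) := by
    intro x y
    obtain ⟨w, hw0, hw1, hw⟩ := last (vv_int p k) E (s' := s') rfl (exists_generic p k) hS ψK hnd
      halt hψF hg hdim hns' (eL.baseChange (KK p k)) β hβalt hβint Φ (extF_smul (wedgeSq F)) hΦ
      ((1 : KK p k) ⊗ₜ x) ((1 : KK p k) ⊗ₜ y) ((fil_tensor (vv_int p k) e _).2 ⟨x, rfl⟩)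
      ((fil_tensor (vv_int p k) e _).2 ⟨y, rfl⟩)
    obtain ⟨a, rfl⟩ := (fil_tensor (vv_int p k) eL _).1 hw0
    obtain ⟨c, hc⟩ := (fil_tensor (vv_int p k) eL _).1 hw1
    refine ⟨a, c, ?_, ?_⟩
    · apply one_tmul_injective (K := KK p k) eL
      rw [p_smul_tmul, ← hc, smul_smul, mul_inv_cancel₀ pK_ne, one_smul, hΦa, extF_tmul,
        map_one]
    · apply one_tmul_injective (K := KK p k) eL
      rw [TensorProduct.tmul_sub, ← hc, hw, hβ, mul_one, ← TensorProduct.smul_tmul,
        TensorProduct.smul_tmul', Algebra.smul_def, smul_eq_mul, map_pow, map_natCast]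
      congr 2
      rw [← zpow_natCast]
      congr 1
      omega
  have hall : ∀ z : ExtSq (WittVector p k) M, (p : WittVector p k) ^ (g - 2) • z ∈
      nygaardImage p (wedgeSq F) := by
    intro z
    induction z using wedge_induction with
    | h0 => rw [smul_zero]; exact AddSubgroup.zero_mem _
    | hadd x y hx hy => rw [smul_add]; exact AddSubgroup.add_mem _ hx hy
    | hw x y => exact hgen x y
  exact upoints_killed hall

end Proof

end MPd27f8c
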