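import Mathlib

/-!
# Exterior squares and Dieudonné modules: the definitions
-/

set_option linter.unusedSectionVars false

universe u v

open Module

open scoped TensorProduct

namespace MPd27f8c

/-! ## Exterior squares of semilinear maps -/

section Wedge

variable (R M : Type*) [CommRing R] [AddCommGroup M] [Module R M]

/-- The exterior square of the `R`-module `M` (Mathlib's `⋀[R]^2 M`). -/
def ExtSq : Type _ := ⋀[R]^2 M

noncomputable instance : AddCommGroup (ExtSq R M) := (⋀[R]^2 M).addCommGroup

noncomputable instance : Module R (ExtSq R M) := (⋀[R]^2 M).module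

variable {R M}

/-- `x ∧ y` in the exterior square. -/
noncomputable def wdg (x y : M) : ExtSq R M := exteriorPower.ιMulti R 2 ![x, y]

/-- The abelian group `N` with the scalar multiplication `a • z := τ(a) z`. -/
def Twist (_ : R →+* R) (N : Type*) : Type _ := N

instance (τ : R →+* R) (N : Type*) [AddCommGroup N] : AddCommGroup (Twist τ N) :=
  inferInstanceAs (AddCommGroup N)

instance (τ : R →+* R) (N : Type*) [AddCommGroup N] [Module R N] : Module R (Twist τ N) :=
  Module.compHom N τ

variable {τ : R →+* R}

/-- `(x, y) ↦ f x ∧ f y` as an alternating map to the twisted exterior square. -/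
noncomputable def wedgeAlt (f : M →ₛₗ[τ] M) : M [⋀^Fin 2]→ₗ[R] Twist τ (⋀[R]^2 M) where
  toFun m := exteriorPower.ιMulti R 2 (fun i => f (m i))
  map_update_add' m i x y := by
    have h : ∀ z : M, (fun j => f (Function.update m i z j)) =
        Function.update (fun j => f (m j)) i (f z) := by
      intro z
      funext j
      by_cases hj : j = i
      · subst hj; simp
      · simp [hj]
    rw [h, h, h, map_add, AlternatingMap.map_update_add]
    rfl
  map_update_smul' m i c x := by
    have h : ∀ z : M, (fun j => f (Function.update m i z j)) =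
        Function.update (fun j => f (m j)) i (f z) := by
      intro z
      funext j
      by_cases hj : j = i
      · subst hj; simp
      · simp [hj]
    rw [h, h, LinearMap.map_smulₛₗ, AlternatingMap.map_update_smul]
    rfl
  map_eq_zero_of_eq' m i j hij hne := by
    apply (exteriorPower.ιMulti R 2).map_eq_zero_of_eq _ _ hne
    simp only [hij]

/-- A `τ`-semilinear endomorphism `f` of `M` induces a (clearly unique) `τ`-semilinear
endomorphism of the exterior square with `x ∧ y ↦ f x ∧ f y`. -/
theorem exists_wedgeSq (f : M →ₛₗ[τ] M) :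
    ∃ g : ExtSq R M →ₛₗ[τ] ExtSq R M, ∀ x y : M, g (wdg x y) = wdg (f x) (f y) := by
  refine ⟨
    { toFun := fun z => exteriorPower.alternatingMapLinearEquiv (wedgeAlt f) z
      map_add' := fun x y => map_add (exteriorPower.alternatingMapLinearEquiv (wedgeAlt f)) x y
      map_smul' := fun a x =>
        map_smul (exteriorPower.alternatingMapLinearEquiv (wedgeAlt f)) a x }, fun x y => ?_⟩
  have h := exteriorPower.alternatingMapLinearEquiv_apply_ιMulti (wedgeAlt f) ![x, y]
  have h2 : wedgeAlt f ![x, y] = exteriorPower.ιMulti R 2 ![f x, f y] := by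
    change exteriorPower.ιMulti R 2 (fun i => f (![x, y] i)) = _
    congr 1
    funext j
    fin_cases j <;> simp
  exact h.trans h2

/-- The exterior square `⋀² f` of a `τ`-semilinear endomorphism `f`: the `τ`-semilinear
endomorphism with `x ∧ y ↦ f x ∧ f y`. -/
noncomputable def wedgeSq (f : M →ₛₗ[τ] M) : ExtSq R M →ₛₗ[τ] ExtSq R M :=
  (exists_wedgeSq f).choose

/-- The defining property of `wedgeSq`. -/
theorem wedgeSq_wdg (f : M →ₛₗ[τ] M) (x y : M) : wedgeSq f (wdg x y) = wdg (f x) (f y) :=
  (exists_wedgeSq f).choose_spec x y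

/-- the bilinear map `(x, y) ↦ x ∧ y` -/
noncomputable def wedge (R M : Type*) [CommRing R] [AddCommGroup M] [Module R M] :
    M →ₗ[R] M →ₗ[R] ExtSq R M :=
  LinearMap.mk₂ R (fun x y => wdg x y)
    (fun x x' y => AlternatingMap.map_vecCons_add (exteriorPower.ιMulti R 2) _ _ _)
    (fun c x y => AlternatingMap.map_vecCons_smul (exteriorPower.ιMulti R 2) _ _ _)
    (fun x y y' => by
      have h := (exteriorPower.ιMulti R 2 (M := M)).map_update_add ![x, y] 1 y y'
      have e : ∀ z : M, Function.update ![x, y] 1 z = ![x, z] := by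
        intro z
        funext j
        fin_cases j <;> simp
      rwa [e, e, e] at h)
    (fun c x y => by
      have h := (exteriorPower.ιMulti R 2 (M := M)).map_update_smul ![x, y] 1 c y
      have e : ∀ z : M, Function.update ![x, y] 1 z = ![x, z] := by
        intro z
        funext j
        fin_cases j <;> simp
      rwa [e, e] at h)

theorem wedge_apply (x y : M) : wedge R M x y = wdg x y := rfl

theorem wedge_self (x : M) : wedge R M x x = 0 :=
  (exteriorPower.ιMulti R 2).map_eq_zero_of_eq _ (i := 0) (j := 1) (by simp) (by decide)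

theorem wedgeSq_wedge (f : M →ₛₗ[τ] M) (x y : M) :
    wedgeSq f (wedge R M x y) = wedge R M (f x) (f y) := wedgeSq_wdg f x y

theorem span_wdg :
    Submodule.span R (Set.range (fun m : Fin 2 → M => (wdg (m 0) (m 1) : ExtSq R M))) = ⊤ := by
  have h : (fun m : Fin 2 → M => (wdg (m 0) (m 1) : ExtSq R M)) =
      (exteriorPower.ιMulti R 2 : (Fin 2 → M) → _) := by
    funext m
    unfold wdg
    congr 1
    funext j
    fin_cases j <;> rfl
  rw [h]
  exact exteriorPower.ιMulti_span R 2 M

/-- induction on the exterior square -/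
theorem wedge_induction {P : ExtSq R M → Prop} (h0 : P 0) (hadd : ∀ x y, P x → P y → P (x + y))
    (hw : ∀ x y, P (wedge R M x y)) (z : ExtSq R M) : P z := by
  have key : ∀ r : R, P (r • z) := by
    have hz : z ∈ Submodule.span R
        (Set.range (fun m : Fin 2 → M => (wdg (m 0) (m 1) : ExtSq R M))) := by
      rw [span_wdg]; trivial
    induction hz using Submodule.span_induction with
    | mem z hz =>
      obtain ⟨m, rfl⟩ := hz
      intro r
      have h1 : r • (wdg (m 0) (m 1) : ExtSq R M) = wedge R M (r • m 0) (m 1) := by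
        rw [map_smul, LinearMap.smul_apply, wedge_apply]
      simp only
      rw [h1]
      exact hw _ _
    | zero => intro r; rw [smul_zero]; exact h0
    | add x y _ _ hx hy => intro r; rw [smul_add]; exact hadd _ _ (hx r) (hy r)
    | smul a x _ hx => intro r; rw [smul_smul]; exact hx _
  have := key 1
  rwa [one_smul] at this

instance instFiniteExtSq [Module.Finite R M] : Module.Finite R (ExtSq R M) :=
  exteriorPower.instFinite

instance instFreeExtSq [Module.Free R M] : Module.Free R (ExtSq R M) :=
  exteriorPower.instFree R 2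

end Wedge

/-! ## Semilinear algebra -/

section Generic

variable {R : Type*} [CommRing R] {τ τ' : R →+* R} {M : Type*} [AddCommGroup M] [Module R M]

/-- `F V = V F = c`. -/
structure IsFVPair (c : R) (F : M →ₛₗ[τ] M) (V : M →ₛₗ[τ'] M) : Prop where
  F_V : ∀ x, F (V x) = c • x
  V_F : ∀ x, V (F x) = c • x

/-- `ψ` is an alternating bilinear form with trivial kernel. -/
structure IsAltForm (ψ : M →ₗ[R] M →ₗ[R] R) : Prop where
  self_eq_zero : ∀ x, ψ x x = 0
  nondegenerate : ∀ x, (∀ y, ψ x y = 0) → x = 0

/-- `ψ(F x, y) = τ(ψ(x, V y))`. -/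
def IsAdjoint (F : M →ₛₗ[τ] M) (V : M →ₛₗ[τ'] M) (ψ : M →ₗ[R] M →ₗ[R] R) : Prop :=
  ∀ x y, ψ (F x) y = τ (ψ x (V y))

/-- There is a nonzero `x` in `M` with `F ^ s x = p ^ r x`, where `s > 0`. -/
def IsSlope (p : ℕ) (F : M →ₛₗ[τ] M) (r s : ℕ) : Prop :=
  0 < s ∧ ∃ x : M, x ≠ 0 ∧ F^[s] x = (p : R) ^ r • x

/-- The image of `F / p - 1 : F¹_N(M) → M`, where `F¹_N(M) = {x ∈ M : p ∣ F x}`: the elements
`y - x` with `F x = p y`. -/
def nygaardImage (p : ℕ) (F : M →ₛₗ[τ] M) : AddSubgroup M where
  carrier := {z | ∃ x y : M, F x = (p : R) • y ∧ z = y - x}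
  zero_mem' := ⟨0, 0, by simp, by simp⟩
  add_mem' := by
    rintro a b ⟨x, y, h1, rfl⟩ ⟨x', y', h2, rfl⟩
    exact ⟨x + x', y + y', by rw [map_add, h1, h2, smul_add], by abel⟩
  neg_mem' := by
    rintro a ⟨x, y, h1, rfl⟩
    exact ⟨-x, -y, by rw [map_neg, h1, smul_neg], by abel⟩

/-- The group `U(k)` of an F-crystal `(M, F)`: the cokernel of `F / p - 1 : F¹_N(M) → M`. -/
abbrev UPoints (p : ℕ) (F : M →ₛₗ[τ] M) : Type _ := M ⧸ nygaardImage p F

/-- `p ^ n` kills the group `U(k)` of the F-crystal `(M, F)`. -/
def KillsUPoints (p : ℕ) (F : M →ₛₗ[τ] M) (n : ℕ) : Prop := ∀ u : UPoints p F, p ^ n • u = 0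

/-- `p ^ n` kills the group `U(k)` of the F-crystal `⋀² (M, F)`. -/
def KillsUPointsSq (p : ℕ) (F : M →ₛₗ[τ] M) (n : ℕ) : Prop := KillsUPoints p (wedgeSq F) n

end Generic

/-! ## Dieudonné modules -/

section Statement

variable (p : ℕ) [Fact p.Prime] (k : Type u) [Field k] [CharP k p]

/-- The Frobenius lift `σ` of the Witt vectors `W = W(k)`. -/
noncomputable abbrev frob : WittVector p k →+* WittVector p k := WittVector.frobenius

/-- The inverse of the Frobenius lift (`k` is perfect). -/
noncomputable abbrev frobInv [PerfectRing k p] : WittVector p k →+* WittVector p k :=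
  ((WittVector.frobeniusEquiv p k).symm : WittVector p k ≃+* WittVector p k)

variable {p k} {M : Type v} [AddCommGroup M] [Module (WittVector p k) M]

/-- The structure on `M = H¹_cris(A / W)`, for an abelian variety `A` of dimension `g` with a
polarisation: `M` is free of rank `2 g` over `W`, `F` is `σ`-linear, `V` is `σ⁻¹`-linear,
`F V = V F = p`, and `ψ` is an alternating `W`-bilinear form with trivial kernel such that
`ψ(F x, y) = σ(ψ(x, V y))`. -/
structure IsPolarisedDieudonneModule [PerfectRing k p] (g : ℕ) (F : M →ₛₗ[frob p k] M)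
    (V : M →ₛₗ[frobInv p k] M)
    (ψ : M →ₗ[WittVector p k] M →ₗ[WittVector p k] WittVector p k) : Prop where
  free : Module.Free (WittVector p k) M
  finite : Module.Finite (WittVector p k) M
  finrank_eq : Module.finrank (WittVector p k) M = 2 * g
  isFVPair : IsFVPair (p : WittVector p k) F V
  isAltForm : IsAltForm ψ
  isAdjoint : IsAdjoint F V ψ

/-- All slopes of `F` are `1 / 2`. (With `k` algebraically closed, `r / s` is a slope of the
Newton polygon exactly when there is a nonzero `x` in `M` with `F ^ s x = p ^ r x`.) -/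
def IsSupersingular (F : M →ₛₗ[frob p k] M) : Prop := ∀ r s : ℕ, IsSlope p F r s → 2 * r = s

end Statement

end MPd27f8c
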