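import Mathlib

/-!
# The valuation of the fraction field of a discrete valuation ring
-/

set_option linter.unusedSectionVars false

namespace MPd27f8c

variable {R K : Type*} [CommRing R] [IsDomain R] [Field K] [Algebra R K] [IsFractionRing R K]

section

variable {ϖ : R} (hϖ0 : ϖ ≠ 0) (hϖu : ¬ IsUnit ϖ)
  (hfac : ∀ r : R, r ≠ 0 → ∃ (n : ℕ) (u : Rˣ), r = ϖ ^ n * u)

include hϖ0 hfac in
theorem frac_form (a : K) (ha : a ≠ 0) :
    ∃ (m : ℤ) (u : Rˣ), a = (algebraMap R K ϖ) ^ m * algebraMap R K u := by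
  have hπ0 : algebraMap R K ϖ ≠ 0 := by
    rwa [Ne, FaithfulSMul.algebraMap_eq_zero_iff R K]
  obtain ⟨x, y, hy, rfl⟩ := IsFractionRing.div_surjective (A := R) a
  have hy0 : y ≠ 0 := nonZeroDivisors.ne_zero hy
  have hx0 : x ≠ 0 := by
    rintro rfl
    simp at ha
  obtain ⟨n, u, rfl⟩ := hfac x hx0
  obtain ⟨m, u', rfl⟩ := hfac y hy0
  refine ⟨n - m, u * u'⁻¹, ?_⟩
  have hu' : algebraMap R K (u' : R) ≠ 0 := by
    rw [Ne, FaithfulSMul.algebraMap_eq_zero_iff R K]
    exact u'.ne_zero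
  have h1 : algebraMap R K (u' : R) * algebraMap R K ((u'⁻¹ : Rˣ) : R) = 1 := by
    rw [← map_mul, Units.mul_inv, map_one]
  rw [zpow_sub₀ hπ0, zpow_natCast, zpow_natCast, map_mul, map_mul, map_pow, map_pow, Units.val_mul,
    map_mul]
  rw [div_eq_iff (mul_ne_zero (pow_ne_zero _ hπ0) hu')]
  rw [div_eq_mul_inv]
  have h2 : (algebraMap R K ϖ ^ m)⁻¹ * algebraMap R K ϖ ^ m = 1 :=
    inv_mul_cancel₀ (pow_ne_zero _ hπ0)
  linear_combination (-(algebraMap R K ϖ ^ n * algebraMap R K (u : R))) * h1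
    - (algebraMap R K ϖ ^ n * algebraMap R K (u : R) * algebraMap R K (u' : R)
      * algebraMap R K ((u'⁻¹ : Rˣ) : R)) * h2

include hϖ0 hϖu in
theorem frac_form_unique {m m' : ℤ} {u u' : Rˣ}
    (h : (algebraMap R K ϖ) ^ m * algebraMap R K u = (algebraMap R K ϖ) ^ m' * algebraMap R K u') :
    m = m' := by
  have key : ∀ {m m' : ℤ} {u u' : Rˣ},
      (algebraMap R K ϖ) ^ m * algebraMap R K u = (algebraMap R K ϖ) ^ m' * algebraMap R K u' →
      ¬ m < m' := by
    intro m m' u u' h hlt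
    have hπ0 : algebraMap R K ϖ ≠ 0 := by
      rwa [Ne, FaithfulSMul.algebraMap_eq_zero_iff R K]
    obtain ⟨n, hn⟩ := Int.eq_ofNat_of_zero_le (show 0 ≤ m' - m - 1 by omega)
    have h1 : m' = m + ((n : ℕ) + 1 : ℕ) := by push_cast; omega
    rw [h1, zpow_add₀ hπ0, zpow_natCast, mul_assoc] at h
    have h2 := mul_left_cancel₀ (zpow_ne_zero m hπ0) h
    rw [← map_pow, ← map_mul] at h2
    have h3 := IsFractionRing.injective R K h2
    apply hϖu
    have h4 : IsUnit (ϖ ^ (n + 1) * (u' : R)) := by rw [← h3]; exact u.isUnit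
    exact isUnit_of_mul_isUnit_left (isUnit_of_mul_isUnit_left (by rwa [pow_succ'] at h4))
  rcases lt_trichotomy m m' with h1 | h1 | h1
  · exact absurd h1 (key h)
  · exact h1
  · exact absurd h1 (key h.symm)

include hϖ0 hϖu hfac in
theorem exists_addValuation : ∃ v : AddValuation K (WithTop ℤ), v (algebraMap R K ϖ) = 1 ∧
    (∀ (m : ℤ) (u : Rˣ), v ((algebraMap R K ϖ) ^ m * algebraMap R K u) = m) ∧
    ∀ a, 0 ≤ v a ↔ ∃ r, algebraMap R K r = a := by
  classical
  have hπ0 : algebraMap R K ϖ ≠ 0 := by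
    rwa [Ne, FaithfulSMul.algebraMap_eq_zero_iff R K]
  have hu0 : ∀ u : Rˣ, algebraMap R K (u : R) ≠ 0 := by
    intro u
    rw [Ne, FaithfulSMul.algebraMap_eq_zero_iff R K]
    exact u.ne_zero
  choose m u hmu using frac_form (K := K) hϖ0 hfac
  let f : K → WithTop ℤ := fun a => if h : a = 0 then ⊤ else (m a h : WithTop ℤ)
  have hf0 : f 0 = ⊤ := by simp [f]
  have hf : ∀ (n : ℤ) (u : Rˣ), f ((algebraMap R K ϖ) ^ n * algebraMap R K u) = n := by
    intro n u'
    have hne : (algebraMap R K ϖ) ^ n * algebraMap R K (u' : R) ≠ 0 :=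
      mul_ne_zero (zpow_ne_zero _ hπ0) (hu0 u')
    simp only [f]
    rw [dif_neg hne]
    congr 1
    exact (frac_form_unique hϖ0 hϖu (hmu _ hne)).symm
  have hint : ∀ (a : K), (0 ≤ f a ↔ ∃ r, algebraMap R K r = a) := by
    intro a
    by_cases ha : a = 0
    · subst ha
      simp only [hf0, le_top, true_iff]
      exact ⟨0, map_zero _⟩
    · obtain ⟨n, u', rfl⟩ := frac_form hϖ0 hfac a ha
      rw [hf]
      constructor
      · intro h
        have h1 : 0 ≤ n := by exact_mod_cast h
        obtain ⟨k, rfl⟩ := Int.eq_ofNat_of_zero_le h1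
        refine ⟨ϖ ^ k * u', ?_⟩
        rw [map_mul, map_pow, zpow_natCast]
      · rintro ⟨r, hr⟩
        have hr0 : r ≠ 0 := by
          rintro rfl
          rw [map_zero] at hr
          exact ha hr.symm
        obtain ⟨k, u'', rfl⟩ := hfac r hr0
        rw [map_mul, map_pow, ← zpow_natCast] at hr
        have := frac_form_unique hϖ0 hϖu hr
        rw [← this]
        exact_mod_cast Nat.zero_le k
  have hf1 : f 1 = 0 := by
    have := hf 0 1
    simpa using this
  have hmul : ∀ x y, f (x * y) = f x + f y := by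
    intro x y
    by_cases hx : x = 0
    · subst hx; simp [hf0]
    by_cases hy : y = 0
    · subst hy; simp [hf0]
    obtain ⟨n, u₁, rfl⟩ := frac_form hϖ0 hfac x hx
    obtain ⟨n', u₂, rfl⟩ := frac_form hϖ0 hfac y hy
    have h1 : (algebraMap R K ϖ) ^ n * algebraMap R K (u₁ : R) *
        ((algebraMap R K ϖ) ^ n' * algebraMap R K (u₂ : R))
        = (algebraMap R K ϖ) ^ (n + n') * algebraMap R K ((u₁ * u₂ : Rˣ) : R) := by
      rw [zpow_add₀ hπ0, Units.val_mul, map_mul]
      ring
    rw [h1, hf, hf, hf]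
    push_cast
    rfl
  have hadd : ∀ x y, min (f x) (f y) ≤ f (x + y) := by
    have key : ∀ x y, f x ≤ f y → f x ≤ f (x + y) := by
      intro x y hxy
      by_cases hx : x = 0
      · subst hx
        rw [hf0, top_le_iff] at hxy
        rw [zero_add, hf0, hxy]
      have h1 : y / x = y * x⁻¹ := div_eq_mul_inv _ _
      have h2 : f y = f x + f (y / x) := by
        rw [← hmul, mul_div_cancel₀ _ hx]
      have h3 : 0 ≤ f (y / x) := by
        by_contra hc
        rw [not_le] at hc
        obtain ⟨n, u₁, hn⟩ := frac_form hϖ0 hfac x hx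
        have hfx : f x = n := by rw [hn, hf]
        have h4 : f x + f (y / x) < f x + 0 :=
          WithTop.add_lt_add_left (by rw [hfx]; exact WithTop.coe_ne_top) hc
        rw [← h2, add_zero] at h4
        exact absurd hxy (not_le.2 h4)
      obtain ⟨r, hr⟩ := (hint _).1 h3
      have h5 : x + y = x * algebraMap R K (1 + r) := by
        rw [map_add, map_one, hr, mul_add, mul_one, mul_div_cancel₀ _ hx]
      rw [h5, hmul]
      exact le_add_of_nonneg_right ((hint _).2 ⟨_, rfl⟩)
    intro x y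
    rcases le_total (f x) (f y) with h | h
    · exact (min_le_left _ _).trans (key x y h)
    · rw [add_comm]
      exact (min_le_right _ _).trans (key y x h)
  refine ⟨AddValuation.of f hf0 hf1 hadd hmul, ?_, hf, hint⟩
  have := hf 1 1
  simpa using this

end

end MPd27f8c
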