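import Mathlib

/-!
# Frobenius polynomial equations over Witt vectors of an algebraically closed field
-/

set_option linter.unusedSectionVars false

namespace MPd27f8c

open Polynomial

variable {p : ℕ} [hp : Fact p.Prime] {k : Type*} [Field k] [IsAlgClosed k] [CharP k p]


theorem dvd_of_coeff_zero {x : WittVector p k} (hx : x.coeff 0 = 0) : ∃ b, x = p * b := by
  have := (WittVector.mem_span_p_iff_coeff_zero_eq_zero x).2 hx
  exact Ideal.mem_span_singleton'.1 this |>.imp fun b hb => by rw [← hb, mul_comm]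

/-- the operator `w ↦ ∑ e_j F^{mj} w` -/
noncomputable def opT (m h : ℕ) (e : ℕ → WittVector p k) : WittVector p k →+ WittVector p k where
  toFun w := ∑ j ∈ Finset.range (h + 1), e j * (WittVector.frobenius^[m * j] w)
  map_zero' := by
    refine Finset.sum_eq_zero fun j _ => ?_
    rw [Function.iterate_fixed (map_zero _), mul_zero]
  map_add' x y := by
    rw [← Finset.sum_add_distrib]
    refine Finset.sum_congr rfl fun j _ => ?_
    rw [iterate_map_add, mul_add]

theorem opT_apply (m h : ℕ) (e : ℕ → WittVector p k) (w : WittVector p k) :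
    opT m h e w = ∑ j ∈ Finset.range (h + 1), e j * (WittVector.frobenius^[m * j] w) := rfl

theorem iter_frob_p_mul (n : ℕ) (w : WittVector p k) (N : ℕ) :
    (WittVector.frobenius^[n] ((p : WittVector p k) ^ N * w)) = (p : WittVector p k) ^ N * WittVector.frobenius^[n] w := by
  rw [iterate_map_mul]
  congr 1
  induction n with
  | zero => rfl
  | succ n ih => rw [Function.iterate_succ_apply', ih, map_pow, map_natCast]

theorem opT_p_mul (m h : ℕ) (e : ℕ → WittVector p k) (N : ℕ) (w : WittVector p k) :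
    opT m h e ((p : WittVector p k) ^ N * w) = (p : WittVector p k) ^ N * opT m h e w := by
  rw [opT_apply, opT_apply, Finset.mul_sum]
  refine Finset.sum_congr rfl fun j _ => ?_
  rw [iter_frob_p_mul]
  ring

theorem opT_coeff_zero (m h : ℕ) (e : ℕ → WittVector p k) (w : WittVector p k) :
    (opT m h e w).coeff 0 =
      ∑ j ∈ Finset.range (h + 1), (e j).coeff 0 * (w.coeff 0) ^ (p ^ (m * j)) := by
  rw [opT_apply, ← WittVector.constantCoeff_apply, map_sum]
  refine Finset.sum_congr rfl fun j _ => ?_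
  rw [map_mul, WittVector.constantCoeff_apply, WittVector.constantCoeff_apply,
    WittVector.iterate_frobenius_coeff]

theorem opT_mod (m h : ℕ) (hm : 0 < m) (e : ℕ → WittVector p k) {j₀ : ℕ} (hj₀ : j₀ ≤ h)
    (he : (e j₀).coeff 0 ≠ 0) (a : WittVector p k) : ∃ w b : WittVector p k, a = opT m h e w + p * b := by
  classical
  set P : k[X] := ∑ j ∈ Finset.range (h + 1), C ((e j).coeff 0) * X ^ (p ^ (m * j)) -
    C (a.coeff 0) with hP
  have hp1 : 1 < p := hp.out.one_lt
  have hcoeff : P.coeff (p ^ (m * j₀)) ≠ 0 := by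
    rw [hP, coeff_sub, finsetSum_coeff, coeff_C, if_neg (pow_pos hp.out.pos _).ne', sub_zero,
      Finset.sum_eq_single j₀]
    · simpa using he
    · intro j _ hj
      rw [coeff_C_mul, coeff_X_pow, if_neg, mul_zero]
      intro h1
      have := Nat.pow_right_injective hp.out.two_le h1
      exact hj (Nat.eq_of_mul_eq_mul_left hm this).symm
    · intro h1
      exact absurd (Finset.mem_range.2 (by omega)) h1
  have hdeg : P.degree ≠ 0 := by
    intro h0
    have h1 : ((p ^ (m * j₀) : ℕ) : WithBot ℕ) ≤ P.degree := le_degree_of_ne_zero hcoeff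
    rw [h0] at h1
    have : p ^ (m * j₀) ≤ 0 := by exact_mod_cast h1
    have := pow_pos hp.out.pos (m * j₀)
    omega
  obtain ⟨x, hx⟩ := IsAlgClosed.exists_root P hdeg
  obtain ⟨w, hw⟩ := WittVector.constantCoeff_surjective (R := k) p x
  have h1 : (a - opT m h e w).coeff 0 = 0 := by
    rw [← WittVector.constantCoeff_apply, map_sub, WittVector.constantCoeff_apply,
      WittVector.constantCoeff_apply, opT_coeff_zero]
    rw [WittVector.constantCoeff_apply] at hw
    rw [hw, sub_eq_zero]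
    have h2 : P.eval x = 0 := hx
    rw [hP, eval_sub, eval_finsetSum, eval_C, sub_eq_zero] at h2
    rw [← h2]
    refine Finset.sum_congr rfl fun j _ => ?_
    simp
  obtain ⟨b, hb⟩ := dvd_of_coeff_zero h1
  exact ⟨w, b, by rw [← hb]; ring⟩

theorem eq_zero_of_forall_dvd {x : WittVector p k} (h : ∀ n, ∃ b, x = (p : WittVector p k) ^ n * b) : x = 0 := by
  apply IsHausdorff.haus (I := Ideal.span {(p : WittVector p k)}) inferInstance x
  intro n
  obtain ⟨b, hb⟩ := h n
  rw [SModEq.zero, Ideal.span_singleton_pow, smul_eq_mul, Ideal.mul_top,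
    Ideal.mem_span_singleton]
  exact ⟨b, hb⟩

theorem exists_limit (f : ℕ → WittVector p k) (hf : ∀ n, ∃ b, f (n + 1) = f n + (p : WittVector p k) ^ n * b) :
    ∃ L : WittVector p k, ∀ n, ∃ b, L = f n + (p : WittVector p k) ^ n * b := by
  have h1 : ∀ m n, m ≤ n → ∃ b, f n = f m + (p : WittVector p k) ^ m * b := by
    intro m n hmn
    induction n, hmn using Nat.le_induction with
    | base => exact ⟨0, by simp⟩
    | succ n hmn ih =>
      obtain ⟨b, hb⟩ := ih
      obtain ⟨c, hc⟩ := hf n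
      obtain ⟨d, rfl⟩ := Nat.exists_eq_add_of_le hmn
      refine ⟨b + (p : WittVector p k) ^ d * c, ?_⟩
      rw [hc, hb, pow_add]
      ring
  obtain ⟨L, hL⟩ := IsPrecomplete.prec (I := Ideal.span {(p : WittVector p k)}) inferInstance (f := f)
    (fun {m n} hmn => by
      obtain ⟨b, hb⟩ := h1 m n hmn
      rw [Ideal.span_singleton_pow, smul_eq_mul, Ideal.mul_top, SModEq.sub_mem,
        Ideal.mem_span_singleton]
      exact ⟨-b, by rw [hb]; ring⟩)
  refine ⟨L, fun n => ?_⟩
  have h2 := hL n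
  rw [Ideal.span_singleton_pow, smul_eq_mul, Ideal.mul_top, SModEq.sub_mem,
    Ideal.mem_span_singleton] at h2
  obtain ⟨b, hb⟩ := h2
  exact ⟨-b, by linear_combination -hb⟩

theorem opT_surj (m h : ℕ) (hm : 0 < m) (e : ℕ → WittVector p k) {j₀ : ℕ} (hj₀ : j₀ ≤ h)
    (he : (e j₀).coeff 0 ≠ 0) (a : WittVector p k) : ∃ w : WittVector p k, opT m h e w = a := by
  choose w b hwb using opT_mod m h hm e hj₀ he
  let A : ℕ → WittVector p k := fun n => Nat.rec a (fun _ x => b x) n
  have hA0 : A 0 = a := rfl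
  have hA : ∀ n, A (n + 1) = b (A n) := fun n => rfl
  let S : ℕ → WittVector p k := fun n => ∑ i ∈ Finset.range n, (p : WittVector p k) ^ i * w (A i)
  have hS : ∀ n, S (n + 1) = S n + (p : WittVector p k) ^ n * w (A n) := fun n =>
    Finset.sum_range_succ _ n
  have hTS : ∀ n, opT m h e (S n) = a - (p : WittVector p k) ^ n * A n := by
    intro n
    induction n with
    | zero => simp [S, hA0]
    | succ n ih =>
      rw [hS, map_add, ih, opT_p_mul, hA]
      have := hwb (A n)
      have h2 : opT m h e (w (A n)) = A n - p * b (A n) := by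
        rw [eq_sub_iff_add_eq]; exact this.symm
      rw [h2, pow_succ]
      ring
  obtain ⟨L, hL⟩ := exists_limit S fun n => ⟨_, hS n⟩
  refine ⟨L, sub_eq_zero.1 (eq_zero_of_forall_dvd fun n => ?_)⟩
  obtain ⟨c, hc⟩ := hL n
  refine ⟨opT m h e c - A n, ?_⟩
  rw [hc, map_add, hTS, opT_p_mul]
  ring

theorem opT_kernel (m h : ℕ) (hm : 0 < m) (e : ℕ → WittVector p k) {j₁ j₂ : ℕ} (hj₁ : j₁ ≤ h)
    (hj₂ : j₂ ≤ h) (hne : j₁ ≠ j₂) (he₁ : (e j₁).coeff 0 ≠ 0) (he₂ : (e j₂).coeff 0 ≠ 0) :
    ∃ w : WittVector p k, w.coeff 0 ≠ 0 ∧ opT m h e w = 0 := by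
  classical
  have hpn : ∀ n, 0 < p ^ n := fun n => pow_pos hp.out.pos _
  -- least index with a unit coefficient
  have hex : ∃ j, (e j).coeff 0 ≠ 0 := ⟨j₁, he₁⟩
  set j₀ := Nat.find hex with hj₀
  have hj₀e : (e j₀).coeff 0 ≠ 0 := Nat.find_spec hex
  have hj₀min : ∀ j < j₀, (e j).coeff 0 = 0 := fun j hj => by
    by_contra h0
    exact Nat.find_min hex hj h0
  obtain ⟨j₃, hj₃, hj₃e, hj₀₃⟩ : ∃ j₃ ≤ h, (e j₃).coeff 0 ≠ 0 ∧ j₀ < j₃ := by
    have h1 : j₀ ≤ j₁ := Nat.find_min' hex he₁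
    have h2 : j₀ ≤ j₂ := Nat.find_min' hex he₂
    rcases lt_or_gt_of_ne hne with h3 | h3
    · exact ⟨j₂, hj₂, he₂, by omega⟩
    · exact ⟨j₁, hj₁, he₁, by omega⟩
  set P : k[X] := ∑ j ∈ Finset.Icc j₀ h, C ((e j).coeff 0) * X ^ (p ^ (m * j) - p ^ (m * j₀))
    with hP
  have hinj : ∀ j, j₀ ≤ j → ∀ j', j₀ ≤ j' → p ^ (m * j) - p ^ (m * j₀) =
      p ^ (m * j') - p ^ (m * j₀) → j = j' := by
    intro j hj j' hj' h1
    have h2 : p ^ (m * j₀) ≤ p ^ (m * j) :=
      Nat.pow_le_pow_right hp.out.pos (Nat.mul_le_mul_left _ hj)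
    have h3 : p ^ (m * j₀) ≤ p ^ (m * j') :=
      Nat.pow_le_pow_right hp.out.pos (Nat.mul_le_mul_left _ hj')
    have h4 : p ^ (m * j) = p ^ (m * j') := by omega
    have := Nat.pow_right_injective hp.out.two_le h4
    exact Nat.eq_of_mul_eq_mul_left hm this
  have hcoef : ∀ j, j₀ ≤ j → j ≤ h → P.coeff (p ^ (m * j) - p ^ (m * j₀)) = (e j).coeff 0 := by
    intro j hj hjh
    rw [hP, finsetSum_coeff, Finset.sum_eq_single j]
    · simp
    · intro j' hj' hne'
      rw [coeff_C_mul, coeff_X_pow, if_neg, mul_zero]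
      intro h1
      exact hne' (hinj j' (Finset.mem_Icc.1 hj').1 j hj h1.symm)
    · intro h1
      exact absurd (Finset.mem_Icc.2 ⟨hj, hjh⟩) h1
  have hdeg : P.degree ≠ 0 := by
    intro h0
    have h1 : ((p ^ (m * j₃) - p ^ (m * j₀) : ℕ) : WithBot ℕ) ≤ P.degree := by
      apply le_degree_of_ne_zero
      rw [hcoef j₃ hj₀₃.le hj₃]
      exact hj₃e
    rw [h0] at h1
    have h2 : p ^ (m * j₃) - p ^ (m * j₀) ≤ 0 := by exact_mod_cast h1
    have h3 : p ^ (m * j₀) < p ^ (m * j₃) :=
      Nat.pow_lt_pow_right hp.out.one_lt (Nat.mul_lt_mul_of_pos_left hj₀₃ hm)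
    omega
  obtain ⟨x, hx⟩ := IsAlgClosed.exists_root P hdeg
  have hx0 : x ≠ 0 := by
    rintro rfl
    have h1 : P.coeff 0 = 0 := by
      rw [coeff_zero_eq_eval_zero]; exact hx
    have h2 := hcoef j₀ le_rfl (by omega)
    rw [Nat.sub_self, h1] at h2
    exact hj₀e h2.symm
  obtain ⟨w, hw⟩ := WittVector.constantCoeff_surjective (R := k) p x
  rw [WittVector.constantCoeff_apply] at hw
  have h1 : (opT m h e w).coeff 0 = 0 := by
    rw [opT_coeff_zero, hw]
    have h2 : ∑ j ∈ Finset.range (h + 1), (e j).coeff 0 * x ^ p ^ (m * j)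
        = ∑ j ∈ Finset.Icc j₀ h, (e j).coeff 0 * x ^ p ^ (m * j) := by
      symm
      apply Finset.sum_subset
      · intro j hj
        rw [Finset.mem_Icc] at hj
        exact Finset.mem_range.2 (by omega)
      · intro j hj hj'
        rw [Finset.mem_range] at hj
        rw [Finset.mem_Icc] at hj'
        rw [hj₀min j (by omega), zero_mul]
    have h3 : ∑ j ∈ Finset.Icc j₀ h, (e j).coeff 0 * x ^ p ^ (m * j)
        = x ^ p ^ (m * j₀) * P.eval x := by
      rw [hP, eval_finsetSum, Finset.mul_sum]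
      refine Finset.sum_congr rfl fun j hj => ?_
      have h4 : p ^ (m * j₀) ≤ p ^ (m * j) :=
        Nat.pow_le_pow_right hp.out.pos (Nat.mul_le_mul_left _ (Finset.mem_Icc.1 hj).1)
      simp only [eval_mul, eval_C, eval_pow, eval_X]
      rw [mul_left_comm, ← pow_add, Nat.add_sub_cancel' h4]
    rw [h2, h3, show P.eval x = 0 from hx, mul_zero]
  obtain ⟨b, hb⟩ := dvd_of_coeff_zero h1
  obtain ⟨w', hw'⟩ := opT_surj m h hm e hj₁ he₁ (-b)
  refine ⟨w + p * w', ?_, ?_⟩
  · rw [← WittVector.constantCoeff_apply, map_add, map_mul, map_natCast,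
      CharP.cast_eq_zero, zero_mul, add_zero, WittVector.constantCoeff_apply, hw]
    exact hx0
  · have h2 := opT_p_mul m h e 1 w'
    rw [pow_one] at h2
    rw [map_add, h2, hw', hb]
    ring

end MPd27f8c
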