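import Pool.Agent.Lib.MP_d27f8c_ag.Solv
import Pool.Agent.Lib.MP_d27f8c_ag.Val
import Pool.Agent.Lib.MP_d27f8c_ag.Wit

/-!
# The fraction field of the Witt vectors of an algebraically closed field
-/

set_option linter.unusedSectionVars false

namespace MPd27f8c

variable (p : ℕ) [hp : Fact p.Prime] (k : Type*) [Field k] [IsAlgClosed k] [CharP k p]


/-- the fraction field -/
abbrev KK := FractionRing (WittVector p k)

/-- Frobenius on the fraction field -/
noncomputable def sig : RingAut (KK p k) := WittVector.FractionRing.frobenius p k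

theorem sig_algebraMap (a : WittVector p k) :
    sig p k (algebraMap (WittVector p k) (KK p k) a) = algebraMap (WittVector p k) (KK p k) (WittVector.frobenius a) := by
  unfold sig WittVector.FractionRing.frobenius
  rw [IsFractionRing.ringEquivOfRingEquiv_algebraMap]
  rfl

theorem not_isUnit_p : ¬ IsUnit (p : WittVector p k) := (WittVector.irreducible (k := k) p).not_isUnit

theorem exists_v : ∃ v : AddValuation (KK p k) (WithTop ℤ), v (p : KK p k) = 1 ∧
    (∀ (m : ℤ) (u : (WittVector p k)ˣ), v ((p : KK p k) ^ m * algebraMap (WittVector p k) (KK p k) u) = m) ∧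
    ∀ a, 0 ≤ v a ↔ ∃ r, algebraMap (WittVector p k) (KK p k) r = a := by
  have h := exists_addValuation (R := WittVector p k) (K := KK p k) (ϖ := (p : WittVector p k))
    (WittVector.p_nonzero p k) (not_isUnit_p p k) (fun r hr => WittVector.exists_eq_pow_p_mul' r hr)
  simpa only [map_natCast] using h

/-- the valuation -/
noncomputable def vv : AddValuation (KK p k) (WithTop ℤ) := (exists_v p k).choose

theorem vv_p : vv p k (p : KK p k) = 1 := (exists_v p k).choose_spec.1

theorem vv_form (m : ℤ) (u : (WittVector p k)ˣ) :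
    vv p k ((p : KK p k) ^ m * algebraMap (WittVector p k) (KK p k) u) = m :=
  (exists_v p k).choose_spec.2.1 m u

theorem vv_int (a : KK p k) : 0 ≤ vv p k a ↔ ∃ r, algebraMap (WittVector p k) (KK p k) r = a :=
  (exists_v p k).choose_spec.2.2 a

theorem sig_p : sig p k (p : KK p k) = p := map_natCast _ _

theorem vv_sig (a : KK p k) : vv p k (sig p k a) = vv p k a := by
  by_cases ha : a = 0
  · subst ha; rw [map_zero]
  · obtain ⟨m, u, rfl⟩ := frac_form (R := WittVector p k) (K := KK p k) (ϖ := (p : WittVector p k))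
      (WittVector.p_nonzero p k) (fun r hr => WittVector.exists_eq_pow_p_mul' r hr) a ha
    rw [map_natCast, vv_form, map_mul, map_zpow₀, sig_p, sig_algebraMap]
    have := vv_form p k m (Units.map (WittVector.frobenius : WittVector p k →+* WittVector p k) u)
    exact this

theorem vv_unit {r : WittVector p k} : vv p k (algebraMap (WittVector p k) (KK p k) r) = 0 ↔ r.coeff 0 ≠ 0 := by
  constructor
  · intro h h0
    obtain ⟨b, rfl⟩ := dvd_of_coeff_zero h0
    rw [map_mul, map_natCast, (vv p k).map_mul, vv_p] at h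
    have h1 := (vv_int p k (algebraMap (WittVector p k) (KK p k) b)).2 ⟨b, rfl⟩
    have h2 : (1 : WithTop ℤ) ≤ 0 := by
      rw [← h]
      exact le_add_of_nonneg_right h1
    have h3 : (1 : ℤ) ≤ 0 := by exact_mod_cast h2
    omega
  · intro h
    obtain ⟨u, rfl⟩ := WittVector.isUnit_of_coeff_zero_ne_zero r h
    have := vv_form p k 0 u
    simpa using this

theorem sig_pow_algebraMap (n : ℕ) (a : WittVector p k) :
    (sig p k ^ n) (algebraMap (WittVector p k) (KK p k) a)
      = algebraMap (WittVector p k) (KK p k) (WittVector.frobenius^[n] a) := by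
  induction n with
  | zero => simp
  | succ n ih => rw [pow_succ', RingAut.mul_apply, ih, sig_algebraMap,
      Function.iterate_succ_apply']

theorem solv_sig (m : ℕ) (hm : 0 < m) : Solv (vv p k) (sig p k ^ m) := by
  have key : ∀ (h : ℕ) (e' : ℕ → WittVector p k) (w : WittVector p k),
      ∑ j ∈ Finset.range (h + 1), algebraMap (WittVector p k) (KK p k) (e' j) *
        ((sig p k ^ m) ^ j) (algebraMap (WittVector p k) (KK p k) w)
      = algebraMap (WittVector p k) (KK p k) (opT m h e' w) := by
    intro h e' w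
    rw [opT_apply, map_sum]
    refine Finset.sum_congr rfl fun j _ => ?_
    rw [← pow_mul, sig_pow_algebraMap, map_mul]
  constructor
  · intro h e he hu a ha
    choose e' he' using fun j => (vv_int p k (e j)).1 (he j)
    obtain ⟨a', rfl⟩ := (vv_int p k a).1 ha
    obtain ⟨j₀, hj₀, hj₀u⟩ := hu
    rw [← he', vv_unit] at hj₀u
    obtain ⟨w, hw⟩ := opT_surj m h hm e' hj₀ hj₀u a'
    refine ⟨algebraMap (WittVector p k) (KK p k) w, (vv_int p k _).2 ⟨w, rfl⟩, ?_⟩
    rw [← hw, ← key]
    exact Finset.sum_congr rfl fun j _ => by rw [he']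
  · intro h e he hu
    choose e' he' using fun j => (vv_int p k (e j)).1 (he j)
    obtain ⟨i, hi, j, hj, hij, hiu, hju⟩ := hu
    rw [← he', vv_unit] at hiu hju
    obtain ⟨w, hw0, hw⟩ := opT_kernel m h hm e' hi hj hij hiu hju
    refine ⟨algebraMap (WittVector p k) (KK p k) w, (vv_unit p k).2 hw0, ?_⟩
    have := key h e' w
    rw [hw, map_zero] at this
    rw [← this]
    exact Finset.sum_congr rfl fun j _ => by rw [he']

theorem exists_generic : ∃ t : KK p k, ∀ n m : ℕ, n ≠ m →
    (sig p k ^ (n : ℤ)) t ≠ (sig p k ^ (m : ℤ)) t := by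
  classical
  have hinf : Infinite k := IsAlgClosed.instInfinite
  have h1 : ∀ n : ℕ, ∃ x : k, 0 < n → x ^ p ^ n ≠ x := by
    intro n
    by_cases hn : 0 < n
    · have hpn : 1 < p ^ n := Nat.one_lt_pow hn.ne' hp.out.one_lt
      have hP : (Polynomial.X ^ p ^ n - Polynomial.X : Polynomial k) ≠ 0 :=
        FiniteField.X_pow_card_sub_X_ne_zero k hpn
      obtain ⟨x, hx⟩ := Polynomial.exists_eval_ne_zero_of_natDegree_lt_card _ hP
        ((Cardinal.natCast_lt_aleph0).trans_le (Cardinal.aleph0_le_mk k))
      refine ⟨x, fun _ h => hx ?_⟩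
      simp [h]
    · exact ⟨0, fun h => absurd h hn⟩
  choose x hx using h1
  refine ⟨algebraMap (WittVector p k) (KK p k) (WittVector.mk p x), ?_⟩
  have key : ∀ n : ℕ, 0 < n → ∀ m : ℕ, (sig p k ^ ((n + m : ℕ) : ℤ))
      (algebraMap (WittVector p k) (KK p k) (WittVector.mk p x)) ≠ (sig p k ^ (m : ℤ))
      (algebraMap (WittVector p k) (KK p k) (WittVector.mk p x)) := by
    intro n hn m h
    rw [zpow_natCast, zpow_natCast, add_comm, pow_add, RingAut.mul_apply] at h
    have h2 := (sig p k ^ m).injective h
    rw [sig_pow_algebraMap] at h2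
    have h3 := IsFractionRing.injective (WittVector p k) (KK p k) h2
    have h4 := congrArg (fun w => WittVector.coeff w n) h3
    simp only [WittVector.iterate_frobenius_coeff, WittVector.coeff_mk] at h4
    exact hx n hn h4
  intro n m hnm
  rcases lt_or_gt_of_ne hnm with h | h
  · obtain ⟨d, rfl⟩ := Nat.exists_eq_add_of_lt h
    have := key (d + 1) (by omega) n
    rw [show d + 1 + n = n + d + 1 by ring] at this
    exact this.symm
  · obtain ⟨d, rfl⟩ := Nat.exists_eq_add_of_lt h
    have := key (d + 1) (by omega) m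
    rw [show d + 1 + m = m + d + 1 by ring] at this
    exact this

theorem charZero_KK : CharZero (KK p k) := by
  refine charZero_of_inj_zero fun n hn => ?_
  by_contra hn0
  obtain ⟨e, n', hn', hne⟩ := Nat.exists_eq_pow_mul_and_not_dvd hn0 p hp.out.ne_one
  have h1 : (n' : KK p k) ≠ 0 := by
    have h2 : ((n' : WittVector p k)).coeff 0 ≠ 0 := by
      rw [← WittVector.constantCoeff_apply, map_natCast]
      intro h3
      exact hn' ((CharP.cast_eq_zero_iff k p n').1 h3)
    intro h3
    have h4 := (vv_unit p k (r := (n' : WittVector p k))).2 h2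
    rw [map_natCast, h3, (vv p k).map_zero] at h4
    exact absurd h4 (by simp)
  rw [hne] at hn
  push_cast at hn
  rcases mul_eq_zero.1 hn with h2 | h2
  · exact WittVector.FractionRing.p_nonzero p k (eq_zero_of_pow_eq_zero h2)
  · exact h1 h2

end MPd27f8c
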