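import Pool.Agent.Lib.MP_d27f8c_ag.Key

/-!
# Lattices with `F` and `V`: basic properties
-/

namespace MPd27f8c

open Module

variable {K V ι : Type*} [Field K] [AddCommGroup V] [Module K V]
variable {v : AddValuation K (WithTop ℤ)} {π : K}

/-- A `σ`-semilinear automorphism `F` of `V` together with a lattice (given by a basis `e`)
stable under `F` and `π F⁻¹`. -/
structure World (K V ι : Type*) [Field K] [AddCommGroup V] [Module K V]
    (v : AddValuation K (WithTop ℤ)) (π : K) where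
  σ : RingAut K
  F : V ≃+ V
  e : Basis ι K V
  vπ : v π = 1
  vσ : ∀ a, v (σ a) = v a
  σπ : σ π = π
  semi : ∀ (a : K) (x : V), F (a • x) = σ a • F x
  F_int : ∀ x, Fil v e 0 x → Fil v e 0 (F x)
  V_int : ∀ x, Fil v e 0 x → Fil v e 0 (π • F.symm x)

theorem perm_zpow_add (F : V ≃+ V) (n : ℤ) (x y : V) :
    ((F.toEquiv : Equiv.Perm V) ^ n) (x + y) =
      ((F.toEquiv : Equiv.Perm V) ^ n) x + ((F.toEquiv : Equiv.Perm V) ^ n) y := by
  induction n using Int.induction_on generalizing x y with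
  | zero => simp
  | succ n ih =>
    rw [zpow_add_one]
    simp only [Equiv.Perm.mul_apply]
    rw [← ih]
    simp
  | pred n ih =>
    rw [zpow_sub_one]
    simp only [Equiv.Perm.mul_apply]
    rw [← ih]
    congr 1
    exact map_add F.symm x y

namespace World

variable (W : World K V ι v π)

/-- The `n`-th power (`n ∈ ℤ`) of `F` as an additive map. -/
def Fz (n : ℤ) : V →+ V :=
  AddMonoidHom.mk' (fun x => ((W.F.toEquiv : Equiv.Perm V) ^ n) x) (perm_zpow_add W.F n)

theorem Fz_apply (n : ℤ) (x : V) : W.Fz n x = ((W.F.toEquiv : Equiv.Perm V) ^ n) x := rfl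

@[simp] theorem Fz_zero (x : V) : W.Fz 0 x = x := by simp [Fz_apply]

@[simp] theorem Fz_one (x : V) : W.Fz 1 x = W.F x := by simp [Fz_apply]

theorem Fz_neg_one (x : V) : W.Fz (-1) x = W.F.symm x := by
  simp only [Fz_apply, zpow_neg_one]; rfl

theorem Fz_add (m n : ℤ) (x : V) : W.Fz (m + n) x = W.Fz m (W.Fz n x) := by
  simp only [Fz_apply, zpow_add, Equiv.Perm.mul_apply]

include W in
theorem π_ne : π ≠ 0 := by
  rintro rfl
  have := W.vπ
  simp at this

theorem σ_inv_apply (x : K) : W.σ (W.σ⁻¹ x) = x := RingEquiv.apply_symm_apply W.σ x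

theorem inv_σ_apply (x : K) : W.σ⁻¹ (W.σ x) = x := RingEquiv.symm_apply_apply W.σ x

theorem semi_inv (a : K) (x : V) : W.F.symm (a • x) = W.σ⁻¹ a • W.F.symm x := by
  apply W.F.injective
  rw [W.F.apply_symm_apply, W.semi, W.σ_inv_apply, W.F.apply_symm_apply]

theorem semi_z (n : ℤ) : ∀ (a : K) (x : V), W.Fz n (a • x) = (W.σ ^ n) a • W.Fz n x := by
  induction n using Int.induction_on with
  | zero => intro a x; simp
  | succ n ih =>
    intro a x
    rw [W.Fz_add, zpow_add_one, RingAut.mul_apply, W.Fz_one, W.semi, ih, W.Fz_add, W.Fz_one]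
  | pred n ih =>
    intro a x
    rw [sub_eq_add_neg, W.Fz_add, ← sub_eq_add_neg, zpow_sub_one, RingAut.mul_apply,
      W.Fz_neg_one, W.semi_inv, ih, sub_eq_add_neg, W.Fz_add, W.Fz_neg_one]

theorem σ_zpow_π (n m : ℤ) : (W.σ ^ n) (π ^ m) = π ^ m := by
  have h1 : W.σ (π ^ m) = π ^ m := by rw [map_zpow₀, W.σπ]
  have h2 : W.σ⁻¹ (π ^ m) = π ^ m := by
    apply W.σ.injective
    rw [W.σ_inv_apply, h1]
  induction n using Int.induction_on with
  | zero => simp
  | succ n ih => rw [zpow_add_one, RingAut.mul_apply, h1, ih]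
  | pred n ih => rw [zpow_sub_one, RingAut.mul_apply, h2, ih]

include W in
theorem v_π_zpow (n : ℤ) : v (π ^ n) = n := v_pow_int W.vπ n

theorem F_pi (n m : ℤ) (x : V) : W.Fz n (π ^ m • x) = π ^ m • W.Fz n x := by
  rw [W.semi_z, W.σ_zpow_π]

theorem F_pi' (n : ℤ) (x : V) : W.Fz n (π • x) = π • W.Fz n x := by
  have := W.F_pi n 1 x
  simpa using this

theorem v_σz (n : ℤ) (a : K) : v ((W.σ ^ n) a) = v a := v_zpow_aut W.vσ n a

theorem F_fil {m : ℤ} {x : V} (hx : Fil v W.e m x) : Fil v W.e m (W.F x) := by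
  have h0 : Fil v W.e 0 (π ^ (-m) • x) := by
    have := Fil.smul (W.v_π_zpow (-m)).ge hx
    simpa using this
  have h1 := W.F_int _ h0
  have h2 : W.F (π ^ (-m) • x) = π ^ (-m) • W.F x := by
    have := W.F_pi 1 (-m) x
    simpa using this
  rw [h2] at h1
  have h3 : Fil v W.e (-m + m) (π ^ (-m) • W.F x) := by simpa using h1
  rwa [Fil.smul_iff (W.v_π_zpow (-m))] at h3

theorem F_inv_fil {m : ℤ} {x : V} (hx : Fil v W.e m x) : Fil v W.e (m - 1) (W.F.symm x) := by
  have h0 : Fil v W.e 0 (π ^ (-m) • x) := by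
    have := Fil.smul (W.v_π_zpow (-m)).ge hx
    simpa using this
  have h1 := W.V_int _ h0
  have h2 : W.F.symm (π ^ (-m) • x) = π ^ (-m) • W.F.symm x := by
    have := W.F_pi (-1) (-m) x
    rwa [W.Fz_neg_one, W.Fz_neg_one] at this
  rw [h2, ← mul_smul] at h1
  have h3 : π * π ^ (-m) = π ^ (-(m - 1)) := by
    rw [← zpow_one_add₀ W.π_ne]; congr 1; ring
  rw [h3] at h1
  have h4 : Fil v W.e (-(m - 1) + (m - 1)) (π ^ (-(m - 1)) • W.F.symm x) := by
    simpa using h1
  rwa [Fil.smul_iff (W.v_π_zpow _)] at h4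

theorem Fz_fil (n : ℤ) {m : ℤ} {x : V} (hx : Fil v W.e m x) :
    Fil v W.e (m + min n 0) (W.Fz n x) := by
  have hpos : ∀ n : ℕ, Fil v W.e m (W.Fz n x) := by
    intro n
    induction n with
    | zero => simpa using hx
    | succ n ih =>
      push_cast
      rw [add_comm, W.Fz_add, W.Fz_one]
      exact W.F_fil ih
  have hneg : ∀ n : ℕ, Fil v W.e (m - n) (W.Fz (-(n : ℤ)) x) := by
    intro n
    induction n with
    | zero => simpa using hx
    | succ n ih =>
      have := W.F_inv_fil ih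
      rw [show -((n + 1 : ℕ) : ℤ) = -1 + -(n : ℤ) by push_cast; ring, W.Fz_add, W.Fz_neg_one,
        show m - ((n + 1 : ℕ) : ℤ) = m - n - 1 by push_cast; ring]
      exact this
  rcases le_or_gt 0 n with h | h
  · obtain ⟨k, rfl⟩ := Int.eq_ofNat_of_zero_le h
    have := hpos k
    simpa using this
  · obtain ⟨k, hk⟩ := Int.eq_ofNat_of_zero_le (show 0 ≤ -n by omega)
    have : n = -(k : ℤ) := by omega
    subst this
    have h3 := hneg k
    have h4 : min (-(k : ℤ)) 0 = -(k : ℤ) := by omega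
    rw [h4, ← sub_eq_add_neg]
    exact h3

theorem Fz_fil_of_nonneg {n : ℤ} (hn : 0 ≤ n) {m : ℤ} {x : V} (hx : Fil v W.e m x) :
    Fil v W.e m (W.Fz n x) := by
  have := W.Fz_fil n hx
  rwa [min_eq_right hn, add_zero] at this

theorem Fz_fil_of_nonpos {n : ℤ} (hn : n ≤ 0) {m : ℤ} {x : V} (hx : Fil v W.e m x) :
    Fil v W.e (m + n) (W.Fz n x) := by
  have := W.Fz_fil n hx
  rwa [min_eq_left hn] at this

/-- multiplication by `π` as an additive automorphism -/
def piEquiv : V ≃+ V := DistribMulAction.toAddEquiv V (Units.mk0 π W.π_ne)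

theorem piEquiv_apply (x : V) : W.piEquiv x = π • x := rfl

theorem piEquiv_symm_apply (x : V) : W.piEquiv.symm x = π⁻¹ • x := rfl

/-- The world with `F` and `V = π F⁻¹` exchanged. -/
def flip : World K V ι v π where
  σ := W.σ⁻¹
  F := W.F.symm.trans W.piEquiv
  e := W.e
  vπ := W.vπ
  vσ := fun a => by rw [← W.vσ, W.σ_inv_apply]
  σπ := by
    apply W.σ.injective
    rw [W.σ_inv_apply, W.σπ]
  semi := fun a x => by
    simp only [AddEquiv.trans_apply, W.piEquiv_apply, W.semi_inv]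
    rw [smul_comm]
  F_int := fun x hx => W.V_int x hx
  V_int := fun x hx => by
    have h1 := W.F_int x hx
    have h2 : (W.F.symm.trans W.piEquiv).symm x = π⁻¹ • W.F x := by
      rw [AddEquiv.symm_trans_apply, W.piEquiv_symm_apply, AddEquiv.symm_symm]
      have := W.F_pi 1 (-1) x
      simpa using this
    rw [h2, smul_smul, mul_inv_cancel₀ W.π_ne, one_smul]
    exact h1

theorem flip_F (x : V) : W.flip.F x = π • W.F.symm x := rfl

theorem flip_F_symm (x : V) : W.flip.F.symm x = π⁻¹ • W.F x := by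
  apply W.flip.F.injective
  rw [AddEquiv.apply_symm_apply, W.flip_F]
  have h2 := W.F_pi (-1) (-1) (W.F x)
  rw [zpow_neg_one, W.Fz_neg_one, W.Fz_neg_one] at h2
  rw [h2, AddEquiv.symm_apply_apply, smul_smul, mul_inv_cancel₀ W.π_ne, one_smul]

theorem flip_Fz (n : ℤ) (x : V) : W.flip.Fz n x = π ^ n • W.Fz (-n) x := by
  induction n using Int.induction_on generalizing x with
  | zero => simp
  | succ n ih =>
    rw [W.flip.Fz_add, W.flip.Fz_one, ih, W.flip_F, W.F_pi', smul_smul, ← zpow_add_one₀ W.π_ne,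
      ← W.Fz_neg_one, ← W.Fz_add]
    congr 3
    ring
  | pred n ih =>
    rw [sub_eq_add_neg, W.flip.Fz_add, W.flip.Fz_neg_one, ih, W.flip_F_symm]
    have h2 := W.F_pi (-(-(n : ℤ))) (-1) (W.F x)
    rw [zpow_neg_one] at h2
    rw [h2, smul_smul, ← zpow_sub_one₀ W.π_ne, ← W.Fz_one x, ← W.Fz_add]
    congr 3
    ring

@[simp] theorem flip_e : W.flip.e = W.e := rfl

@[simp] theorem flip_σ : W.flip.σ = W.σ⁻¹ := rfl

end World

end MPd27f8c
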