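import Pool.Agent.Lib.MP_d27f8c_ag.SemiA
import Pool.Agent.Lib.MP_d27f8c_ag.Ext
import Pool.Agent.Lib.MP_d27f8c_ag.WK
import Pool.Agent.Lib.MP_d27f8c_ag.World

/-!
# Scalar extension of Dieudonné modules
-/

set_option linter.unusedSectionVars false

universe u v

open Module

open scoped TensorProduct

namespace MPd27f8c

section Proof

variable {p : ℕ} [hp : Fact p.Prime] {k : Type u} [Field k] [IsAlgClosed k] [CharP k p]
variable {M : Type v} [AddCommGroup M] [Module (WittVector p k) M]

theorem sig_comp (a : WittVector p k) :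
    (sig p k : KK p k →+* KK p k) (algebraMap (WittVector p k) (KK p k) a) =
      algebraMap (WittVector p k) (KK p k) (frob p k a) := sig_algebraMap p k a

theorem sig_symm_comp (a : WittVector p k) :
    ((sig p k)⁻¹ : RingAut (KK p k)) (algebraMap (WittVector p k) (KK p k) a) =
      algebraMap (WittVector p k) (KK p k) (frobInv p k a) := by
  apply (sig p k).injective
  have h1 : sig p k (((sig p k)⁻¹ : RingAut (KK p k)) (algebraMap (WittVector p k) (KK p k) a)) =
      algebraMap (WittVector p k) (KK p k) a := RingEquiv.apply_symm_apply (sig p k) _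
  rw [h1, sig_algebraMap]
  congr 1
  exact ((WittVector.frobeniusEquiv p k).apply_symm_apply a).symm

/-- scalar extension of a `σ`-linear endomorphism to `K ⊗ M` -/
noncomputable def extF (f : M →ₛₗ[frob p k] M) :
    KK p k ⊗[WittVector p k] M →+ KK p k ⊗[WittVector p k] M :=
  extS (τK := (sig p k : KK p k →+* KK p k)) sig_comp f

/-- scalar extension of a `σ⁻¹`-linear endomorphism to `K ⊗ M` -/
noncomputable def extV (f : M →ₛₗ[frobInv p k] M) :
    KK p k ⊗[WittVector p k] M →+ KK p k ⊗[WittVector p k] M :=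
  extS (τK := (((sig p k)⁻¹ : RingAut (KK p k)) : KK p k →+* KK p k)) sig_symm_comp f

theorem extF_tmul (f : M →ₛₗ[frob p k] M) (c : KK p k) (m : M) :
    extF f (c ⊗ₜ m) = sig p k c ⊗ₜ f m := rfl

theorem extV_tmul (f : M →ₛₗ[frobInv p k] M) (c : KK p k) (m : M) :
    extV f (c ⊗ₜ m) = ((sig p k)⁻¹ : RingAut (KK p k)) c ⊗ₜ f m := rfl

theorem extF_smul (f : M →ₛₗ[frob p k] M) (a : KK p k) (z : KK p k ⊗[WittVector p k] M) :
    extF f (a • z) = sig p k a • extF f z := extS_smul _ f a z

theorem p_smul_tmul (c : KK p k) (m : M) :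
    c ⊗ₜ[WittVector p k] ((p : WittVector p k) • m) = (p : KK p k) • (c ⊗ₜ m) := by
  rw [← TensorProduct.smul_tmul, TensorProduct.smul_tmul', Algebra.smul_def, smul_eq_mul,
    map_natCast]

theorem extF_extV {f : M →ₛₗ[frob p k] M} {f' : M →ₛₗ[frobInv p k] M} {n : ℕ}
    (h : ∀ x, f (f' x) = (p : WittVector p k) ^ n • x) (z : KK p k ⊗[WittVector p k] M) :
    extF f (extV f' z) = (p : KK p k) ^ n • z := by
  induction z using TensorProduct.induction_on with
  | zero => simp
  | tmul c m =>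
    rw [extV_tmul, extF_tmul, h]
    have h1 : sig p k (((sig p k)⁻¹ : RingAut (KK p k)) c) = c :=
      RingEquiv.apply_symm_apply (sig p k) _
    rw [h1, ← TensorProduct.smul_tmul, TensorProduct.smul_tmul', Algebra.smul_def, smul_eq_mul,
      map_pow, map_natCast]
  | add x y hx hy => rw [map_add, map_add, hx, hy, smul_add]

theorem extV_extF {f : M →ₛₗ[frob p k] M} {f' : M →ₛₗ[frobInv p k] M} {n : ℕ}
    (h : ∀ x, f' (f x) = (p : WittVector p k) ^ n • x) (z : KK p k ⊗[WittVector p k] M) :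
    extV f' (extF f z) = (p : KK p k) ^ n • z := by
  induction z using TensorProduct.induction_on with
  | zero => simp
  | tmul c m =>
    rw [extF_tmul, extV_tmul, h]
    have h1 : ((sig p k)⁻¹ : RingAut (KK p k)) (sig p k c) = c :=
      RingEquiv.symm_apply_apply (sig p k) _
    rw [h1, ← TensorProduct.smul_tmul, TensorProduct.smul_tmul', Algebra.smul_def, smul_eq_mul,
      map_pow, map_natCast]
  | add x y hx hy => rw [map_add, map_add, hx, hy, smul_add]

theorem pK_ne : (p : KK p k) ≠ 0 := WittVector.FractionRing.p_nonzero p k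

/-- the automorphism of `K ⊗ M` -/
noncomputable def extE {f : M →ₛₗ[frob p k] M} {f' : M →ₛₗ[frobInv p k] M} {n : ℕ}
    (h : ∀ x, f (f' x) = (p : WittVector p k) ^ n • x)
    (h' : ∀ x, f' (f x) = (p : WittVector p k) ^ n • x) :
    KK p k ⊗[WittVector p k] M ≃+ KK p k ⊗[WittVector p k] M where
  toFun := extF f
  invFun z := ((p : KK p k) ^ n)⁻¹ • extV f' z
  left_inv z := by
    change ((p : KK p k) ^ n)⁻¹ • extV f' (extF f z) = z
    rw [extV_extF h', smul_smul, inv_mul_cancel₀ (pow_ne_zero _ pK_ne), one_smul]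
  right_inv z := by
    change extF f (((p : KK p k) ^ n)⁻¹ • extV f' z) = z
    rw [extF_smul, extF_extV h, smul_smul, map_inv₀, map_pow, sig_p,
      inv_mul_cancel₀ (pow_ne_zero _ pK_ne), one_smul]
  map_add' := map_add _

theorem extE_apply {f : M →ₛₗ[frob p k] M} {f' : M →ₛₗ[frobInv p k] M} {n : ℕ}
    (h : ∀ x, f (f' x) = (p : WittVector p k) ^ n • x)
    (h' : ∀ x, f' (f x) = (p : WittVector p k) ^ n • x) (z : KK p k ⊗[WittVector p k] M) :
    extE h h' z = extF f z := rfl

theorem extE_symm_apply {f : M →ₛₗ[frob p k] M} {f' : M →ₛₗ[frobInv p k] M} {n : ℕ}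
    (h : ∀ x, f (f' x) = (p : WittVector p k) ^ n • x)
    (h' : ∀ x, f' (f x) = (p : WittVector p k) ^ n • x) (z : KK p k ⊗[WittVector p k] M) :
    (extE h h').symm z = ((p : KK p k) ^ n)⁻¹ • extV f' z := rfl

/-- the world attached to a Dieudonné module -/
noncomputable def world {ι : Type} [Fintype ι] (e : Basis ι (WittVector p k) M)
    {f : M →ₛₗ[frob p k] M} {f' : M →ₛₗ[frobInv p k] M}
    (h : ∀ x, f (f' x) = (p : WittVector p k) ^ 1 • x)
    (h' : ∀ x, f' (f x) = (p : WittVector p k) ^ 1 • x) :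
    World (KK p k) (KK p k ⊗[WittVector p k] M) ι (vv p k) (p : KK p k) where
  σ := sig p k
  F := extE h h'
  e := e.baseChange (KK p k)
  vπ := vv_p p k
  vσ := vv_sig p k
  σπ := sig_p p k
  semi := extF_smul f
  F_int := fun x hx => by
    obtain ⟨m, rfl⟩ := (fil_tensor (vv_int p k) e x).1 hx
    rw [fil_tensor (vv_int p k)]
    exact ⟨f m, by rw [extE_apply, extF_tmul, map_one]⟩
  V_int := fun x hx => by
    obtain ⟨m, rfl⟩ := (fil_tensor (vv_int p k) e x).1 hx
    rw [fil_tensor (vv_int p k)]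
    refine ⟨f' m, ?_⟩
    rw [extE_symm_apply, extV_tmul, map_one, smul_smul, pow_one, mul_inv_cancel₀ pK_ne, one_smul]

theorem F_iterate_tmul (f : M →ₛₗ[frob p k] M) (n : ℕ) (m : M) :
    (extF f)^[n] ((1 : KK p k) ⊗ₜ m) = 1 ⊗ₜ (f^[n] m) := by
  induction n with
  | zero => rfl
  | succ n ih => rw [Function.iterate_succ_apply', ih, extF_tmul, map_one,
      Function.iterate_succ_apply']

theorem upoints_killed {L : Type*} [AddCommGroup L] [Module (WittVector p k) L]
    {F : L →ₛₗ[frob p k] L} {n : ℕ}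
    (h : ∀ z : L, (p : WittVector p k) ^ n • z ∈ nygaardImage p F) : KillsUPoints p F n := by
  intro u
  obtain ⟨z, rfl⟩ := QuotientAddGroup.mk_surjective u
  have h1 := h z
  have h2 : (p : WittVector p k) ^ n • z = p ^ n • z := by
    rw [← Nat.cast_pow, Nat.cast_smul_eq_nsmul]
  rw [h2] at h1
  rw [← QuotientAddGroup.mk_nsmul]
  exact (QuotientAddGroup.eq_zero_iff _).2 h1

end Proof

end MPd27f8c
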