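import Pool.Agent.Lib.MP_d27f8c_ag.Lat
import Pool.Agent.Lib.MP_d27f8c_ag.Slope
import Pool.Agent.Lib.MP_d27f8c_ag.WS

/-!
# Splitting off the parts of slope `0` and `1`
-/

set_option linter.unusedSectionVars false

namespace MPd27f8c

open Module

variable {R K V ι κ : Type*} [CommRing R] [IsDomain R] [IsPrincipalIdealRing R] [Field K]
  [Algebra R K] [IsFractionRing R K] [AddCommGroup V] [Module K V] [Fintype ι] [Fintype κ]
variable {v : AddValuation K (WithTop ℤ)} {π : K}

namespace World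

variable (W : World K V ι v π)

/-- powers of `F` as additive automorphisms -/
def Fe (n : ℤ) : V ≃+ V where
  toFun := W.Fz n
  invFun := W.Fz (-n)
  left_inv x := by rw [← W.Fz_add]; simp
  right_inv x := by rw [← W.Fz_add]; simp
  map_add' := map_add _

theorem Fe_apply (n : ℤ) (x : V) : W.Fe n x = W.Fz n x := rfl

theorem Fe_symm_apply (n : ℤ) (x : V) : (W.Fe n).symm x = W.Fz (-n) x := rfl

theorem Fz_iterate (n : ℤ) (m : ℕ) (x : V) : (W.Fz n)^[m] x = W.Fz (n * m) x := by
  induction m with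
  | zero => simp
  | succ m ih =>
    rw [Function.iterate_succ_apply', ih, ← W.Fz_add]
    congr 2
    push_cast
    ring

theorem Fe_symm_iterate (n : ℤ) (m : ℕ) (x : V) : (W.Fe n).symm^[m] x = W.Fz (-(n * m)) x := by
  have h1 : ((W.Fe n).symm : V → V) = W.Fz (-n) := rfl
  rw [h1, W.Fz_iterate]
  congr 2
  ring

end World

namespace Eig

variable {W : World K V ι v π} (E : Eig W κ)

theorem r_nonneg (j : κ) : 0 ≤ E.r j := by
  by_contra hc
  push Not at hc
  obtain ⟨m, hm, hm'⟩ := exists_order (v := v) W.e (E.b.ne_zero j)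
  have h1 := W.Fz_fil_of_nonneg E.hs.le hm
  rw [E.heig] at h1
  have h2 : Fil v W.e (E.r j + (m - E.r j)) (π ^ E.r j • E.b j) := by
    refine h1.mono ?_
    omega
  rw [Fil.smul_iff (W.v_π_zpow _)] at h2
  exact hm' (h2.mono (by omega))

theorem r_le (j : κ) : E.r j ≤ E.s := by
  have := E.flip.r_nonneg j
  rw [E.flip_r] at this
  omega

/-- the subspace of prescribed slopes -/
def sub (P : ℤ → Prop) : Submodule K V where
  carrier := {x | ∀ j, ¬ P (E.r j) → E.b.repr x j = 0}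
  add_mem' hx hy j hj := by rw [map_add, Finsupp.add_apply, hx j hj, hy j hj, add_zero]
  zero_mem' j _ := by rw [map_zero]; rfl
  smul_mem' c x hx j hj := by rw [map_smul, Finsupp.smul_apply, hx j hj, smul_zero]

theorem mem_sub {P : ℤ → Prop} {x : V} : x ∈ E.sub P ↔ ∀ j, ¬ P (E.r j) → E.b.repr x j = 0 :=
  Iff.rfl

theorem mem_sub_iff_pr {P : ℤ → Prop} {x : V} : x ∈ E.sub P ↔ E.pr P x = x := by
  classical
  constructor
  · intro h
    apply E.pr_of_coord
    intro j hj
    by_contra hc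
    exact hj (h j hc)
  · intro h j hj
    rw [← h, E.repr_pr, if_neg hj]

theorem pr_mem (P : ℤ → Prop) (x : V) : E.pr P x ∈ E.sub P := by
  classical
  intro j hj
  rw [E.repr_pr, if_neg hj]

theorem Fz_mem_sub {P : ℤ → Prop} {x : V} (hx : x ∈ E.sub P) (n : ℤ) : W.Fz n x ∈ E.sub P := by
  rw [mem_sub_iff_pr] at hx ⊢
  rw [← E.Fz_pr, hx]

theorem fil_of_Fz_fil_slope_zero (hv : ∀ a : K, 0 ≤ v a ↔ ∃ r, algebraMap R K r = a) {x : V}
    (hx : x ∈ E.sub (fun a => a = 0)) (hFx : Fil v W.e 0 (W.Fz E.s x)) : Fil v W.e 0 x := by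
  classical
  obtain ⟨T₁, -, hT₁⟩ := Fil.compare (v := v) W.e E.b
  obtain ⟨T₂, -, hT₂⟩ := Fil.compare (v := v) E.b W.e
  refine chain (R := R) hv W.vπ W.e (E.sub (fun a => a = 0)) (W.Fe E.s) (W.σ ^ E.s)
    (fun a => W.v_σz _ a) (fun a x => W.semi_z _ a x) (fun x hx => E.Fz_mem_sub hx _)
    (fun x hx => E.Fz_mem_sub hx _) (fun x _ hx0 => W.Fz_fil_of_nonneg E.hs.le hx0) (T₂ + T₁)
    (fun x hx hx0 n => ?_) x hx hFx
  rw [W.Fe_symm_iterate]
  have h1 : Fil v E.b (-T₂) (W.Fz (-(E.s * n)) x) := by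
    intro j
    have h2 := E.repr_Fz (-n) x j
    have h3 : E.s * -(n : ℤ) = -(E.s * n) := by ring
    rw [h3] at h2
    rw [h2, v.map_mul, W.v_σz, W.v_π_zpow]
    by_cases hj : E.r j = 0
    · rw [hj, zero_mul]
      have := (hT₂ 0 x hx0) j
      simpa using this
    · rw [hx j hj]
      simp
  have h2 := hT₁ _ _ h1
  refine h2.mono ?_
  omega

theorem pr_zero_fil (hv : ∀ a : K, 0 ≤ v a ↔ ∃ r, algebraMap R K r = a) {x : V}
    (hx : Fil v W.e 0 x) : Fil v W.e 0 (E.pr (fun a => a = 0) x) := by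
  classical
  set y := E.pr (fun a => a = 0) x with hy
  have hdown : ∀ q : ℕ, ∀ z ∈ E.sub (fun a => a = 0), Fil v W.e 0 (W.Fz (E.s * q) z) →
      Fil v W.e 0 z := by
    intro q
    induction q with
    | zero => intro z _ h; simpa using h
    | succ q ih =>
      intro z hz h
      apply ih z hz
      apply E.fil_of_Fz_fil_slope_zero hv (E.Fz_mem_sub hz _)
      rw [← W.Fz_add]
      have : E.s * ((q + 1 : ℕ) : ℤ) = E.s + E.s * q := by push_cast; ring
      rwa [this] at h
  obtain ⟨C, hC⟩ := E.growth_pos (t := 1) (y := x - y) (by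
    intro j hj
    rw [map_sub, Finsupp.sub_apply, hy, E.repr_pr] at hj
    have h1 := E.r_nonneg j
    by_contra hc
    have h2 : E.r j = 0 := by omega
    rw [if_pos h2, sub_self] at hj
    exact hj rfl)
  set q := C.toNat with hq
  have hqC : C ≤ E.s * q := by
    have h1 : C ≤ (q : ℤ) := Int.self_le_toNat C
    have h2 : (q : ℤ) ≤ E.s * q := by
      have := E.hs
      nlinarith [Int.natCast_nonneg q]
    omega
  have hn0 : 0 ≤ E.s * (q : ℤ) := mul_nonneg E.hs.le (Int.natCast_nonneg q)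
  apply hdown q y (E.pr_mem _ _)
  have h1 : W.Fz (E.s * q) y = W.Fz (E.s * q) x - W.Fz (E.s * q) (x - y) := by
    rw [map_sub]; abel
  rw [h1]
  refine (W.Fz_fil_of_nonneg hn0 hx).sub ?_
  apply hC _ hn0
  have := E.hs
  omega

theorem pr_s_fil (hv : ∀ a : K, 0 ≤ v a ↔ ∃ r, algebraMap R K r = a) {x : V}
    (hx : Fil v W.e 0 x) : Fil v W.e 0 (E.pr (fun a => a = E.s) x) := by
  have h1 := E.flip.pr_zero_fil hv (x := x) hx
  rw [E.flip_pr] at h1
  rw [E.pr_congr (Q := fun a => E.s - a = 0)]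
  · exact h1
  · intro j
    constructor <;> intro h <;> omega

/-- intermediate slopes -/
def Mid (a : ℤ) : Prop := 0 < a ∧ a < E.s

theorem split (x : V) : x = E.pr (fun a => a = 0) x + E.pr E.Mid x + E.pr (fun a => a = E.s) x := by
  classical
  apply E.b.repr.injective
  ext j
  rw [map_add, map_add, Finsupp.add_apply, Finsupp.add_apply, E.repr_pr, E.repr_pr, E.repr_pr]
  have h1 := E.r_nonneg j
  have h2 := E.r_le j
  have h3 := E.hs
  unfold Mid
  rcases h1.lt_or_eq with h4 | h4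
  · rcases h2.lt_or_eq with h5 | h5
    · rw [if_neg (by omega), if_pos ⟨h4, h5⟩, if_neg (by omega), zero_add, add_zero]
    · rw [if_neg (by omega), if_neg (by omega), if_pos h5, zero_add, zero_add]
  · rw [if_pos h4.symm, if_neg (by omega), if_neg (by omega), add_zero, add_zero]

theorem pr_mid_fil (hv : ∀ a : K, 0 ≤ v a ↔ ∃ r, algebraMap R K r = a) {x : V}
    (hx : Fil v W.e 0 x) : Fil v W.e 0 (E.pr E.Mid x) := by
  have h1 := E.split x
  have h2 : E.pr E.Mid x = x - E.pr (fun a => a = 0) x - E.pr (fun a => a = E.s) x := by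
    calc E.pr E.Mid x = (E.pr (fun a => a = 0) x + E.pr E.Mid x + E.pr (fun a => a = E.s) x)
          - E.pr (fun a => a = 0) x - E.pr (fun a => a = E.s) x := by abel
      _ = _ := by rw [← h1]
  rw [h2]
  exact (hx.sub (E.pr_zero_fil hv hx)).sub (E.pr_s_fil hv hx)

end Eig

end MPd27f8c
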